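import Mathlib
import Pool.Agent.H474R2.GE.Iface
import Pool.Agent.H410R2.ENIface3
import Pool.Agent.H880R2.EN7

/-!
ALMOST-ALL version of the general engine.

For J disjoint sets of positions B_0, ..., B_{J-1} (J large in terms of ε) the repelling weights of
the B_j are uncorrelated.  Hence for all but a proportion ε of the mass some B_j contains no P-rough
position.
-/

set_option autoImplicit false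

open Finset

namespace Pool.Agent.H474R3.AA

open Pool.Agent.H410R2.AC Pool.Agent.H410R2.EN Pool.Agent.H474R2.GE

/-- the statement of SecondW for a fixed value of the constant K -/
def SecK (n κ0 : ℕ) (C : ℝ) (K : ℕ) : Prop :=
  ∀ (b J z0 D0 : ℕ) (P1 P2 B : Finset ℕ) (Hs : ℕ → ℕ → Finset ℕ) (q : ℕ → ℝ)
    (κ : ℕ → ℕ → ℝ) (e : ℕ → ℕ)
    (w : ℕ → ℝ) (M : ℕ) (A : ℝ) (err : Finset ℕ → ℝ) (S : Fin n → Finset (Finset ℕ))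
    (g : Fin n → ℝ) (Y : Fin n → ℕ) (Y1 : ℕ) (V δ : ℝ),
    Setup κ0 K b J z0 D0 P1 P2 B Hs q κ e w M A err →
    (2 ^ 2 ^ J) ^ (K * b) * (Y1 * ∏ τ, Y τ) ^ 2 ≤ D0 → 0 < V → V ≤ 1 → δ ≤ 1 →
    Pi1 q P2 ≤ C / V → (B.card : ℝ) * V1 q P1 ≤ C / V → (∀ τ, 0 ≤ g τ ∧ g τ ≤ C) →
    (∀ τ, ∀ R ∈ S τ, R ⊆ P2) → (∀ τ, ∅ ∉ S τ) → (∀ τ τ', τ ≠ τ' → Disjoint (S τ) (S τ')) →
    (∀ U ⊆ B, U.card ≤ 2 * n + 2 → dl e Hs (P1 ∪ P2) U ≤ δ) →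
    (∀ τ, 1 ≤ Y τ ∧ ∀ R ∈ S τ, ∏ p ∈ R, p ≤ Y τ) → 1 ≤ Y1 →
    (∀ (c : (Fin n → Option ℕ) → ℝ), (∀ σ, |c σ| ≤ 1) →
      |∑ m ∈ range M, w m * WW B c (xx Hs q P1 S g m) ^ 2 -
        A * ∑ σ ∈ cfg n B, c σ ^ 2 * occ (fun τ => g τ ^ 2 * (V1 q P1 * GG q (S τ))) σ| ≤
      EF n K b J B.card A V δ (ET K (P1 ∪ P2) D0 err)) ∧
    (∀ (S1 : Finset (Finset ℕ)), (∀ R ∈ S1, R ⊆ P2) → (∀ R ∈ S1, ∏ p ∈ R, p ≤ Y1) →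
      ∀ a₀ ∈ B, ∀ (c : (Fin n → Option ℕ) → ℝ), (∀ σ, |c σ| ≤ 1) →
      |∑ m ∈ range M, w m * (WW (B.erase a₀) c (xx Hs q P1 S g m) *
          (rg Hs P1 a₀ m * FF Hs q S1 (some a₀) m)) ^ 2 -
        A * (V1 q P1 * GG q S1 * ∑ σ ∈ cfg n (B.erase a₀), c σ ^ 2 *
          occ (fun τ => g τ ^ 2 * (V1 q P1 * GG q (S τ))) σ)| ≤
      EF n K b J B.card (A * V1 q P1) V δ (ET K (P1 ∪ P2) D0 err))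

/-- second moments where two types may have equal families if they live on disjoint sets of
positions `Bp τ` -/
def SecXK (n κ0 : ℕ) (C : ℝ) (K : ℕ) : Prop :=
  ∀ (b J z0 D0 : ℕ) (P1 P2 B : Finset ℕ) (Hs : ℕ → ℕ → Finset ℕ) (q : ℕ → ℝ)
    (κ : ℕ → ℕ → ℝ) (e : ℕ → ℕ)
    (w : ℕ → ℝ) (M : ℕ) (A : ℝ) (err : Finset ℕ → ℝ) (S : Fin n → Finset (Finset ℕ))
    (g : Fin n → ℝ) (Y : Fin n → ℕ) (V δ : ℝ) (Bp : Fin n → Finset ℕ),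
    Setup κ0 K b J z0 D0 P1 P2 B Hs q κ e w M A err →
    (2 ^ 2 ^ J) ^ (K * b) * (∏ τ, Y τ) ^ 2 ≤ D0 → 0 < V → V ≤ 1 → δ ≤ 1 →
    Pi1 q P2 ≤ C / V → (B.card : ℝ) * V1 q P1 ≤ C / V → (∀ τ, 0 ≤ g τ ∧ g τ ≤ C) →
    (∀ τ, ∀ R ∈ S τ, R ⊆ P2) → (∀ τ, ∅ ∉ S τ) →
    (∀ τ τ', τ ≠ τ' → Disjoint (S τ) (S τ') ∨ Disjoint (Bp τ) (Bp τ')) →
    (∀ U ⊆ B, U.card ≤ 2 * n + 2 → dl e Hs (P1 ∪ P2) U ≤ δ) →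
    (∀ τ, 1 ≤ Y τ ∧ ∀ R ∈ S τ, ∏ p ∈ R, p ≤ Y τ) →
    ∀ (c : (Fin n → Option ℕ) → ℝ), (∀ σ, |c σ| ≤ 1) →
      (∀ σ, c σ ≠ 0 → ∀ τ a, σ τ = some a → a ∈ Bp τ) →
      |∑ m ∈ range M, w m * WW B c (xx Hs q P1 S g m) ^ 2 -
        A * ∑ σ ∈ cfg n B, c σ ^ 2 * occ (fun τ => g τ ^ 2 * (V1 q P1 * GG q (S τ))) σ| ≤
      EF n K b J B.card A V δ (ET K (P1 ∪ P2) D0 err)

/-- AA1: second moments for all large constants K -/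
def SecM : Prop := ∀ (n κ0 : ℕ) (C : ℝ), 1 ≤ C → ∃ K1 : ℕ, 1 ≤ K1 ∧ ∀ K : ℕ, K1 ≤ K →
  SecK n κ0 C K ∧ SecXK n κ0 C K

open Classical in
/-- the coefficient which selects the configurations of a product of two weights: the first n types
live on B1, the last n types on B2 -/
noncomputable def cc (n : ℕ) (B1 B2 : Finset ℕ) (σ : Fin (n + n) → Option ℕ) : ℝ :=
  if (∀ τ : Fin n, ∀ a, σ (Fin.castAdd n τ) = some a → a ∈ B1) ∧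
    (∀ τ : Fin n, ∀ a, σ (Fin.natAdd n τ) = some a → a ∈ B2) then 1 else 0

/-- AA2: the product of the weights of two disjoint sets of positions -/
def Cross : Prop := ∀ (n : ℕ) (B1 B2 : Finset ℕ), Disjoint B1 B2 →
  ∀ x : Fin (n + n) → ℕ → ℝ,
    WW (B1 ∪ B2) (cc n B1 B2) x =
      WW B1 (fun _ => 1) (fun τ => x (Fin.castAdd n τ)) *
        WW B2 (fun _ => 1) (fun τ => x (Fin.natAdd n τ))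

/-- AA3: the error terms are at most ε1 A -/
def ErrE : Prop := ∀ (n K2 Ko J b k : ℕ) (A L C CB C1 θ v0 V δ E V1' G1 Cst R1 R2 ε1 : ℝ),
    0 < ε1 → 1 ≤ C → 1 ≤ CB → 1 ≤ C1 → 0 < θ → 0 ≤ A →
    2 * n + 5 ≤ Ko → 1 ≤ L → 0 < v0 → 0 < V → V ≤ 1 →
    v0 / 2 ≤ V → 0 < δ → 0 ≤ E → E ≤ A / L ^ Ko →
    K2 * (1 + CB * (40 * C1 / θ) ^ 2) ≤ ε1 * Cst →
    K2 * (2 / v0) ^ K2 * (2 * C) ^ (2 * n + 2) ≤ ε1 * R1 →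
    (2 * C) * (40 * C1 / θ) ^ 2 * R1 ≤ R2 → 16 * R1 ≤ L → 16 * R2 ≤ L →
    Cst * (2 / v0) ^ K2 * (1 / 2 : ℝ) ^ b ≤ 1 / 32 →
    Cst * (2 / v0) ^ K2 * (Real.exp (K2 * δ) - 1) ≤ 1 / 32 →
    (k : ℝ) + 1 ≤ 2 * C * L → (J : ℝ) + 2 ≤ L → 0 < V1' →
    (k : ℝ) * V1' ≤ CB / V → 0 < G1 → 1 / G1 ≤ 40 * C1 / θ * V →
    EF n K2 b J k A V δ E ≤ ε1 * A ∧
      (k : ℝ) * ((1 / G1) ^ 2 * EF n K2 b J k (A * V1') V δ E) ≤ ε1 * A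

/-- AA4: Chebyshev: many uncorrelated nonnegative functions with mean 1 cannot all be small, and
each has little mass on its own bad set -/
def Finish : Prop := ∀ (Jn M : ℕ) (w : ℕ → ℝ) (u : Fin Jn → ℕ → ℝ) (bad : Fin Jn → ℕ → Prop)
  [∀ j, DecidablePred (bad j)] (A F0 ε1 η1 : ℝ),
  0 < Jn → 0 ≤ A → 0 ≤ ε1 → ε1 ≤ 1 → (∀ m, 0 ≤ w m) → (∀ j m, 0 ≤ u j m) →
  ∑ m ∈ range M, w m ≤ (1 + ε1) * A →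
  (∀ j, (1 - ε1) * A ≤ ∑ m ∈ range M, w m * u j m) →
  (∀ i j, i ≠ j → ∑ m ∈ range M, w m * (u i m * u j m) ≤ (1 + ε1) * A) →
  (∀ j, ∑ m ∈ range M, w m * u j m ^ 2 ≤ F0 * A) →
  (∀ j, ∑ m ∈ (range M).filter (bad j), w m * u j m ≤ η1 * A) →
  ∑ m ∈ (range M).filter (fun m => ∀ j, bad j m), w m ≤
    (2 * η1 + 16 * ε1 + 4 * F0 / Jn) * A

/-- AA5: the level condition for pairs of windows -/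
def Level2 : Prop := ∀ (X θ v0 T0 : ℝ) (n J b K Km : ℕ) (u : Fin n → ℝ), 1 < X → 0 < θ →
    0 < v0 → K ≤ Km → (((2 ^ 2 ^ J : ℕ)) : ℝ) ≤ X ^ v0 →
    v0 * (Km * b) = θ / 20 → T0 = θ / 10 → ∑ τ, u τ ≤ T0 →
    (2 ^ 2 ^ J) ^ (K * b) * (∏ τ : Fin (n + n),
      Fin.append (fun τ => ⌊X ^ (u τ)⌋₊) (fun τ => ⌊X ^ (u τ)⌋₊) τ) ^ 2 ≤ ⌊X ^ θ⌋₊

/-- AA6: the core theorem -/
def CoreAA : Prop := ∀ (κ0 : ℕ) (C θ ε : ℝ), 1 ≤ κ0 → 1 ≤ C → 0 < θ → θ ≤ 1 → 0 < ε →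
  ∃ J0 : ℕ, 1 ≤ J0 ∧ ∃ K : ℕ, 1 ≤ K ∧ ∃ X0 : ℝ, ∀ X : ℝ, X0 ≤ X → ∀ (z0 z2 D0 : ℕ),
    K ≤ z0 → (z0 : ℝ) ≤ Real.log X → z2 = ⌊X ^ θ⌋₊ → D0 = ⌊X ^ θ⌋₊ →
    ∀ (P : Finset ℕ) (B : Fin J0 → Finset ℕ) (Hs : ℕ → ℕ → Finset ℕ) (q : ℕ → ℝ)
      (κ : ℕ → ℕ → ℝ) (e : ℕ → ℕ)
      (w : ℕ → ℝ) (M : ℕ) (A : ℝ) (err : Finset ℕ → ℝ),
      P ⊆ PP z0 z2 → Mert q P z0 z2 C →
      (∀ p ∈ P, 1 / (p : ℝ) ≤ 1 / q p ∧ 1 / q p ≤ κ0 / (p : ℝ)) →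
      (∀ i j, i ≠ j → Disjoint (B i) (B j)) →
      (∀ j, ((B j).card : ℝ) * Real.log z0 ≤ C * Real.log X) →
      (∀ j, Hit κ0 Hs q P (B j)) →
      Dens κ e P → (∀ m, 0 ≤ w m) → 0 ≤ A →
      Equid κ w M A P D0 err →
      (∀ U ⊆ Finset.univ.biUnion B, U.card ≤ K → dl e Hs P U ≤ 1 / K) →
      ET K P D0 err ≤ A / Real.log X ^ K →
      (∀ m < M, w m ≠ 0 → ∀ j, ∀ a ∈ B j,
        (∏ p ∈ P.filter (fun p => m % p ∈ Hs p a), (p : ℝ)) ≤ X ^ C ∨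
          ∀ p ∈ P, m % p ∈ Hs p a) →
      ∑ m ∈ (range M).filter (fun m => ∀ j, ∃ a ∈ B j, ∀ p ∈ P, m % p ∉ Hs p a), w m ≤ ε * A

/-- AA7: for all but few classes at least half of the windows are good -/
def ClassMarkov : Prop := ∀ (R : Finset ℕ) (J : ℕ) (f : Fin (2 * J) → ℕ → ℝ) (T ε : ℝ),
  0 < J → 0 < T → 0 < ε → (∀ j, ∀ b ∈ R, 0 ≤ f j b) →
  (∀ j, ∑ b ∈ R, f j b ≤ T * R.card) →
  ∃ G ⊆ R, ((R \ G).card : ℝ) ≤ ε * R.card ∧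
    ∀ b ∈ G, ∃ φ : Fin J → Fin (2 * J), Function.Injective φ ∧ ∀ i, f (φ i) b ≤ 2 * T / ε

open Classical in
/-- AA8 (polynomials): for all but ε N of the n < N there is a j such that all the values f(n+a),
a in A_j, have a proper prime factor at most N^δ -/
def PolyAA : Prop := ∀ (f : Polynomial ℤ), Irreducible f → 0 < f.natDegree →
  ∀ C δ ε : ℝ, 0 < δ → δ ≤ 1 / 10 → 0 < ε →
  ∃ J : ℕ, 1 ≤ J ∧ ∃ N₀ : ℕ, ∀ N : ℕ, N₀ ≤ N → ∀ A : Fin J → Finset ℤ,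
    (∀ i j, i ≠ j → Disjoint (A i) (A j)) →
    (∀ j, ∀ a ∈ A j, |(a : ℝ)| ≤ (N : ℝ) ^ C) → (∀ j, ((A j).card : ℝ) ≤ C * Real.log N) →
    (((range N).filter (fun n : ℕ => ¬ ∃ j, ∀ a ∈ A j, ∃ p : ℕ, p.Prime ∧
      (p : ℝ) ≤ (N : ℝ) ^ δ ∧ (p : ℤ) ∣ f.eval ((n : ℤ) + a) ∧
      p < (f.eval ((n : ℤ) + a)).natAbs)).card : ℝ) ≤ ε * N

/-- AA9 (primes, smooth weight) -/
def PMassAA : Prop := ∀ C ε : ℝ, 1 ≤ C → 0 < ε → ∃ J : ℕ, 1 ≤ J ∧ ∃ X0 : ℝ, ∀ X : ℝ, X0 ≤ X →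
  ∀ A : Fin J → Finset ℤ, (∀ i j, i ≠ j → Disjoint (A i) (A j)) →
  (∀ j, ∀ a ∈ A j, a ≠ 0 ∧ |(a : ℝ)| ≤ X ^ C) →
  (∀ j, ∑ a ∈ A j, ((a.natAbs : ℝ) / (Nat.totient a.natAbs : ℝ)) ≤ C * Real.log X) →
  ∑ m ∈ (range (⌊3 * X⌋₊ + 1)).filter (fun m : ℕ => ∀ j, ∃ a ∈ A j,
      ((m : ℤ) - a).natAbs.Prime ∧ ⌊X ^ (1 / 100 : ℝ)⌋₊ < ((m : ℤ) - a).natAbs),
    Pool.Agent.H880R2.EN7.vv X m ≤ ε * X

/-- AA10 (primes) -/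
def PrimesAA : Prop := ∀ C ε : ℝ, 0 < ε → ∃ J : ℕ, 1 ≤ J ∧ ∃ N₀ : ℕ, ∀ N : ℕ, N₀ ≤ N →
  ∀ A : Fin J → Finset ℤ, (∀ i j, i ≠ j → Disjoint (A i) (A j)) →
  (∀ j, ∀ a ∈ A j, |a| ≤ N ∧ a ≠ 0) →
  (∀ j, ∑ a ∈ A j, ((a.natAbs : ℝ) / (Nat.totient a.natAbs : ℝ)) ≤ C * Real.log N) →
  (((range N).filter (fun p : ℕ => p.Prime ∧ ∀ j, ∃ a ∈ A j,
    ((p : ℤ) - a).natAbs.Prime)).card : ℝ) ≤ ε * (N / Real.log N)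

/-- AA11: windows of length H with small sum of a/phi(a) -/
def Windows : Prop := ∃ C' : ℝ, 1 ≤ C' ∧ ∀ (J H : ℕ), 0 < J → 0 < H →
  ∃ φ : Fin J → Fin (2 * J), Function.Injective φ ∧ ∀ i,
    ∑ a ∈ Finset.Ioc ((φ i : ℕ) * H) (((φ i : ℕ) + 1) * H),
      ((a : ℝ) / (Nat.totient a : ℝ)) ≤ C' * H

/-- AA12: few primes are followed by many primes in a short interval -/
def Dense : Prop := ∀ B ε : ℝ, 0 < ε → ∃ K N₀ : ℕ, ∀ N : ℕ, N₀ ≤ N →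
  (((range N).filter (fun p : ℕ => p.Prime ∧
    K ≤ ((Finset.Ioc p (p + ⌊B * Real.log N⌋₊)).filter Nat.Prime).card)).card : ℝ) ≤
    ε * (N / Real.log N)

/-- AA13: K consecutive gaps are almost never all at most C times the average -/
def GapsAA : Prop := ∀ C ε : ℝ, 0 < ε → ∃ K x₀ : ℕ, ∀ x : ℕ, x₀ ≤ x →
  (((range x).filter (fun k : ℕ => ∀ i < K, ((Nat.nth Nat.Prime (k + i + 1) : ℝ) -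
    Nat.nth Nat.Prime (k + i)) ≤ C * Real.log (Nat.nth Nat.Prime (k + i)))).card : ℝ) ≤ ε * x

end Pool.Agent.H474R3.AA
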