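import Mathlib
import Pool.Agent.H474R3.AA.Iface

/-!
AA7: for all but few classes at least half of the windows are good.
-/

set_option autoImplicit false

open Finset

namespace Pool.Agent.H474R3.AA

open Pool.Agent.H410R2.AC Pool.Agent.H410R2.EN Pool.Agent.H474R2.GE

/-- AA7, file ClassMarkov.lean -/
theorem classMarkov : ClassMarkov := by
  classical
  intro R J f T ε hJ hT hε h0 hsum
  set c : ℝ := 2 * T / ε with hc
  have hcpos : 0 < c := by positivity
  have hJr : (0 : ℝ) < J := by exact_mod_cast hJ
  set G : Finset ℕ := R.filter (fun b => J ≤ (univ.filter (fun j : Fin (2 * J) => f j b ≤ c)).card) with hG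
  refine ⟨G, Finset.filter_subset _ _, ?_, ?_⟩
  · have hlow : ∀ b ∈ R \ G, (J : ℝ) * c ≤ ∑ j : Fin (2 * J), f j b := by
      intro b hb
      rw [Finset.mem_sdiff] at hb
      have hlt : (univ.filter (fun j : Fin (2 * J) => f j b ≤ c)).card < J := by
        by_contra hcon
        push Not at hcon
        exact hb.2 (Finset.mem_filter.2 ⟨hb.1, hcon⟩)
      have hadd := Finset.card_filter_add_card_filter_not (s := (univ : Finset (Fin (2 * J))))
        (fun j => f j b ≤ c)
      rw [Finset.card_univ, Fintype.card_fin] at hadd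
      have hbad : J ≤ (univ.filter (fun j : Fin (2 * J) => ¬ f j b ≤ c)).card := by omega
      calc (J : ℝ) * c ≤ ((univ.filter (fun j : Fin (2 * J) => ¬ f j b ≤ c)).card : ℝ) * c := by
            apply mul_le_mul_of_nonneg_right _ hcpos.le
            exact_mod_cast hbad
        _ = ∑ j ∈ univ.filter (fun j : Fin (2 * J) => ¬ f j b ≤ c), c := by
            rw [Finset.sum_const, nsmul_eq_mul]
        _ ≤ ∑ j ∈ univ.filter (fun j : Fin (2 * J) => ¬ f j b ≤ c), f j b := by
            refine Finset.sum_le_sum fun j hj => ?_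
            have := (Finset.mem_filter.1 hj).2
            linarith
        _ ≤ ∑ j : Fin (2 * J), f j b :=
            Finset.sum_le_sum_of_subset_of_nonneg (Finset.filter_subset _ _)
              (fun j _ _ => h0 j b hb.1)
    have h1 : ((R \ G).card : ℝ) * (J * c) ≤ 2 * J * (T * R.card) := by
      calc ((R \ G).card : ℝ) * (J * c) = ∑ b ∈ R \ G, (J : ℝ) * c := by
            rw [Finset.sum_const, nsmul_eq_mul]
        _ ≤ ∑ b ∈ R \ G, ∑ j : Fin (2 * J), f j b := Finset.sum_le_sum hlow
        _ ≤ ∑ b ∈ R, ∑ j : Fin (2 * J), f j b :=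
            Finset.sum_le_sum_of_subset_of_nonneg Finset.sdiff_subset
              (fun b hb _ => Finset.sum_nonneg fun j _ => h0 j b hb)
        _ = ∑ j : Fin (2 * J), ∑ b ∈ R, f j b := Finset.sum_comm
        _ ≤ ∑ j : Fin (2 * J), T * R.card := Finset.sum_le_sum fun j _ => hsum j
        _ = 2 * J * (T * R.card) := by
            rw [Finset.sum_const, Finset.card_univ, Fintype.card_fin, nsmul_eq_mul]
            push_cast
            ring
    have h2 : ((R \ G).card : ℝ) * (J * c) = ((R \ G).card : ℝ) * (2 * J * T) / ε := by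
      rw [hc]
      field_simp
    rw [h2, div_le_iff₀ hε] at h1
    have h3 : (0 : ℝ) < 2 * J * T := by positivity
    nlinarith
  · intro b hb
    have hb' := (Finset.mem_filter.1 hb).2
    obtain ⟨s, hs, hcard⟩ := Finset.exists_subset_card_eq hb'
    refine ⟨fun i => s.orderEmbOfFin hcard i, (s.orderEmbOfFin hcard).injective, fun i => ?_⟩
    have hmem := hs (s.orderEmbOfFin_mem hcard i)
    exact (Finset.mem_filter.1 hmem).2

end Pool.Agent.H474R3.AA
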