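import Mathlib
import Pool.Agent.H474R3.AA.Iface
import Pool.Agent.H646.Tuples
import Pool.Agent.H646.Moment

/-! AA12: few primes are followed by many primes in a short interval. -/

set_option autoImplicit false

open Finset

namespace Pool.Agent.H474R3.AA

open Pool.Agent.H410R2.AC Pool.Agent.H410R2.EN Pool.Agent.H474R2.GE

namespace DenseAux

theorem pairs_two : (univ : Finset (Fin 2 × Fin 2)).filter (fun q => q.1 < q.2) = {(0, 1)} := by
  decide

theorem pair_bound : ∃ C > (0 : ℝ), ∃ A x₀ : ℕ, ∀ x : ℕ, x₀ ≤ x → ∀ h : ℕ, 1 ≤ h →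
    (((Icc 1 x).filter (fun n : ℕ => n.Prime ∧ (n + h).Prime)).card : ℝ) ≤
      C * x / (Real.log x) ^ 2 * Pool.Agent.H646.rat h ^ A := by
  obtain ⟨C, hC, A, x₀, hb⟩ := Pool.Agent.H646.TuplesM.tuple_bound 2 (by norm_num)
  refine ⟨C, hC, A, x₀, fun x hx h hh => ?_⟩
  have hd : StrictMono (![0, h] : Fin 2 → ℕ) := by
    intro i j hij
    fin_cases i <;> fin_cases j <;> simp at hij ⊢
    omega
  have h1 := hb x hx ![0, h] hd
  have h2 : (Icc 1 x).filter (fun n : ℕ => ∀ j : Fin 2, (n + (![0, h] : Fin 2 → ℕ) j).Prime) =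
      (Icc 1 x).filter (fun n : ℕ => n.Prime ∧ (n + h).Prime) := by
    apply filter_congr
    intro n _
    simp [Fin.forall_fin_two]
  rw [h2] at h1
  refine h1.trans (le_of_eq ?_)
  congr 1
  have h3 : (∏ q ∈ (univ : Finset (Fin 2 × Fin 2)) with q.1 < q.2,
      Pool.Agent.H646.rat ((![0, h] : Fin 2 → ℕ) q.2 - (![0, h] : Fin 2 → ℕ) q.1) ^ A) =
      Pool.Agent.H646.rat h ^ A := by
    rw [pairs_two, prod_singleton]
    simp
  exact h3

end DenseAux

open DenseAux in
theorem dense : Dense := by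
  intro B ε hε
  obtain ⟨C1, hC1, A, x₀, hp⟩ := pair_bound
  obtain ⟨C2, hC2, hm⟩ := Pool.Agent.H646.MomentM.rat_moment A
  obtain ⟨K, hK⟩ := exists_nat_gt (C1 * C2 * |B| / ε)
  have hK0 : (0 : ℝ) < K := lt_of_le_of_lt (by positivity) hK
  refine ⟨K, max x₀ 3, fun N hN => ?_⟩
  have hN1 : x₀ ≤ N := le_trans (le_max_left _ _) hN
  have hN3 : 3 ≤ N := le_trans (le_max_right _ _) hN
  have hlog : 0 < Real.log N := Real.log_pos (by exact_mod_cast (by omega : 1 < N))
  obtain ⟨H, hH⟩ : ∃ H : ℕ, H = ⌊B * Real.log N⌋₊ := ⟨_, rfl⟩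
  have hHle : (H : ℝ) ≤ |B| * Real.log N := by
    rw [hH]
    rcases le_or_gt 0 (B * Real.log N) with h0 | h0
    · exact (Nat.floor_le h0).trans (mul_le_mul_of_nonneg_right (le_abs_self B) hlog.le)
    · rw [Nat.floor_of_nonpos h0.le]
      simp only [Nat.cast_zero]
      positivity
  rw [← hH]
  set bad := (range N).filter (fun p : ℕ => p.Prime ∧
    K ≤ ((Finset.Ioc p (p + H)).filter Nat.Prime).card) with hbad
  have h1 : (K : ℝ) * bad.card ≤ ∑ p ∈ bad, (((Ioc p (p + H)).filter Nat.Prime).card : ℝ) := by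
    have : ∑ _p ∈ bad, (K : ℝ) ≤ ∑ p ∈ bad, (((Ioc p (p + H)).filter Nat.Prime).card : ℝ) := by
      apply sum_le_sum
      intro p hpb
      rw [hbad, mem_filter] at hpb
      exact_mod_cast hpb.2.2
    rw [sum_const, nsmul_eq_mul] at this
    linarith
  have h2 : ∑ p ∈ bad, (((Ioc p (p + H)).filter Nat.Prime).card : ℝ) ≤
      ∑ h ∈ Icc 1 H, (((Icc 1 N).filter (fun n : ℕ => n.Prime ∧ (n + h).Prime)).card : ℝ) := by
    have e1 : ∀ p ∈ bad, (((Ioc p (p + H)).filter Nat.Prime).card : ℝ) =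
        ∑ h ∈ Icc 1 H, (if (p + h).Prime then (1 : ℝ) else 0) := by
      intro p _
      rw [← sum_filter, sum_const, nsmul_eq_mul, mul_one]
      congr 1
      apply card_bij' (fun n _ => n - p) (fun h _ => p + h)
      · intro n hn
        rw [mem_filter, mem_Ioc] at hn
        rw [mem_filter, mem_Icc]
        refine ⟨by omega, ?_⟩
        rw [Nat.add_sub_cancel' (by omega)]
        exact hn.2
      · intro h hh
        rw [mem_filter, mem_Icc] at hh
        rw [mem_filter, mem_Ioc]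
        exact ⟨by omega, hh.2⟩
      · intro n hn
        rw [mem_filter, mem_Ioc] at hn
        omega
      · intro h hh
        omega
    rw [sum_congr rfl e1, sum_comm]
    apply sum_le_sum
    intro h _
    rw [← sum_filter, sum_const, nsmul_eq_mul, mul_one]
    have : (bad.filter (fun p => (p + h).Prime)).card ≤
        ((Icc 1 N).filter (fun n : ℕ => n.Prime ∧ (n + h).Prime)).card := by
      apply card_le_card
      intro p hpb
      rw [mem_filter, hbad, mem_filter, mem_range] at hpb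
      rw [mem_filter, mem_Icc]
      exact ⟨⟨hpb.1.2.1.one_lt.le, by omega⟩, hpb.1.2.1, hpb.2⟩
    exact_mod_cast this
  have h3 : ∑ h ∈ Icc 1 H, (((Icc 1 N).filter (fun n : ℕ => n.Prime ∧ (n + h).Prime)).card : ℝ) ≤
      C1 * N / (Real.log N) ^ 2 * (C2 * H) := by
    have : ∑ h ∈ Icc 1 H, (((Icc 1 N).filter (fun n : ℕ => n.Prime ∧ (n + h).Prime)).card : ℝ) ≤
        ∑ h ∈ Icc 1 H, C1 * N / (Real.log N) ^ 2 * Pool.Agent.H646.rat h ^ A := by
      apply sum_le_sum
      intro h hh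
      exact hp N hN1 h (mem_Icc.mp hh).1
    refine this.trans ?_
    rw [← mul_sum]
    exact mul_le_mul_of_nonneg_left (hm H) (by positivity)
  have h4 : C1 * N / (Real.log N) ^ 2 * (C2 * H) ≤ (C1 * C2 * |B|) * (N / Real.log N) := by
    have : C1 * N / (Real.log N) ^ 2 * (C2 * H) ≤
        C1 * N / (Real.log N) ^ 2 * (C2 * (|B| * Real.log N)) := by
      apply mul_le_mul_of_nonneg_left _ (by positivity)
      exact mul_le_mul_of_nonneg_left hHle hC2.le
    refine this.trans (le_of_eq ?_)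
    field_simp
  have h5 : C1 * C2 * |B| ≤ K * ε := by
    rw [div_lt_iff₀ hε] at hK
    exact hK.le
  have h6 : (K : ℝ) * bad.card ≤ K * (ε * (N / Real.log N)) := by
    have : (C1 * C2 * |B|) * (N / Real.log N) ≤ (K * ε) * (N / Real.log N) :=
      mul_le_mul_of_nonneg_right h5 (by positivity)
    linarith
  exact le_of_mul_le_mul_left h6 hK0

end Pool.Agent.H474R3.AA
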