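import Mathlib
import Pool.Agent.H474R3.AA.Iface
import Pool.Agent.H646.Cheb

/-!
AA13: K consecutive gaps are almost never all at most C times the average.
-/

set_option autoImplicit false

open Finset Filter

namespace Pool.Agent.H474R3.AA

open Pool.Agent.H410R2.AC Pool.Agent.H410R2.EN Pool.Agent.H474R2.GE

namespace GapsAux

/-- the primes in increasing order -/
noncomputable abbrev pr (n : ℕ) : ℕ := Nat.nth Nat.Prime n

/-- combinatorial core -/
theorem core (p k m H W K : ℕ) (hp : p = pr k)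
    (hW : ((Finset.Ioc p (p + W)).filter Nat.Prime).card < K) (hmW : m ≤ W)
    (hno : ∀ a ∈ Finset.Ioc m (m + H), ¬ (p + a).Prime) :
    ∃ i < K, pr (k + i) ≤ p + m ∧ pr (k + i) + H < pr (k + i + 1) := by
  have hinf : (Set.ofPred Nat.Prime).Infinite := Nat.infinite_setOfPred_prime
  have hk : k < Nat.count Nat.Prime (p + m + 1) := by
    rw [Nat.lt_nth_iff_count_lt hinf]
    show pr k < p + m + 1
    omega
  obtain ⟨i, hi⟩ : ∃ i, k + i + 1 = Nat.count Nat.Prime (p + m + 1) :=
    ⟨Nat.count Nat.Prime (p + m + 1) - k - 1, by omega⟩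
  have h1 : pr (k + i) < p + m + 1 := by
    apply Nat.nth_lt_of_lt_count
    omega
  have h2 : p + m + 1 ≤ pr (k + i + 1) := by
    apply (Nat.count_le_iff_le_nth hinf).1
    omega
  have h3 : p + m + H < pr (k + i + 1) := by
    by_contra hc
    push Not at hc
    have hpr : (pr (k + i + 1)).Prime := Nat.prime_nth_prime _
    apply hno (pr (k + i + 1) - p)
    · rw [Finset.mem_Ioc]
      omega
    · rw [show p + (pr (k + i + 1) - p) = pr (k + i + 1) by omega]
      exact hpr
  refine ⟨i, ?_, by omega, by omega⟩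
  -- i is at most the number of primes in the short interval
  refine lt_of_le_of_lt ?_ hW
  have hsub : (Finset.range i).image (fun s => pr (k + 1 + s)) ⊆
      (Finset.Ioc p (p + W)).filter Nat.Prime := by
    intro r hr
    rw [Finset.mem_image] at hr
    obtain ⟨s, hs, rfl⟩ := hr
    rw [Finset.mem_range] at hs
    rw [Finset.mem_filter, Finset.mem_Ioc]
    refine ⟨⟨?_, ?_⟩, Nat.prime_nth_prime _⟩
    · rw [hp]
      exact Nat.nth_strictMono hinf (by omega)
    · have : pr (k + 1 + s) ≤ pr (k + i) := Nat.nth_monotone hinf (by omega)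
      omega
  have hcard := Finset.card_le_card hsub
  rw [Finset.card_image_of_injective, Finset.card_range] at hcard
  · exact hcard
  · intro s s' h
    have := Nat.nth_injective hinf h
    omega

theorem growth (J : ℕ) (c : ℝ) (hc : 1 ≤ c) :
    ∃ Y : ℝ, ∀ y : ℝ, Y ≤ y → 2 * J * (3 * c * Real.log y + 1) ≤ y := by
  have h1 := Real.isLittleO_log_id_atTop.bound (by positivity : (0 : ℝ) < 1 / (12 * (J + 1) * c))
  have h2 : ∀ᶠ y : ℝ in atTop, 2 * J * (3 * c * Real.log y + 1) ≤ y := by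
    filter_upwards [h1, eventually_ge_atTop (4 * (J : ℝ) + 4)] with y hy hy1
    have hJ : (0 : ℝ) ≤ J := Nat.cast_nonneg J
    have hy0 : 0 < y := by linarith
    have hlog : 0 ≤ Real.log y := Real.log_nonneg (by linarith)
    simp only [id_eq, Real.norm_eq_abs] at hy
    rw [abs_of_nonneg hlog, abs_of_pos hy0, one_div, inv_mul_eq_div, le_div_iff₀ (by positivity)] at hy
    nlinarith
  obtain ⟨Y, hY⟩ := Filter.eventually_atTop.1 h2
  exact ⟨Y, hY⟩

/-- the set of shifts of a window -/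
def win (m H : ℕ) : Finset ℤ := (Finset.Ioc m (m + H)).image (fun a : ℕ => -(a : ℤ))

theorem mem_win {m H : ℕ} {z : ℤ} : z ∈ win m H ↔ ∃ a : ℕ, (m < a ∧ a ≤ m + H) ∧ z = -(a : ℤ) := by
  unfold win
  rw [Finset.mem_image]
  constructor
  · rintro ⟨a, ha, rfl⟩
    exact ⟨a, Finset.mem_Ioc.1 ha, rfl⟩
  · rintro ⟨a, ha, rfl⟩
    exact ⟨a, Finset.mem_Ioc.2 ha, rfl⟩

theorem sum_win (m H : ℕ) (f : ℕ → ℝ) :
    ∑ z ∈ win m H, f z.natAbs = ∑ a ∈ Finset.Ioc m (m + H), f a := by
  unfold win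
  rw [Finset.sum_image]
  · refine Finset.sum_congr rfl fun a _ => ?_
    rw [Int.natAbs_neg, Int.natAbs_natCast]
  · intro a _ b _ h
    have : (a : ℤ) = b := by simpa using h
    exact_mod_cast this

end GapsAux

open GapsAux in
/-- AA13, file GapsAA.lean -/
theorem gapsAA_of (h : PrimesAA) (hw : Windows) (hd : Dense) : GapsAA := by
  intro C ε hε
  obtain ⟨C', hC', hw⟩ := hw
  obtain ⟨C₀, hC₀, hcheb⟩ := Pool.Agent.H646.ChebM.P_le
  obtain ⟨c, hc1, hcC⟩ : ∃ c : ℝ, 1 ≤ c ∧ C ≤ c := ⟨max C 1, le_max_right _ _, le_max_left _ _⟩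
  have hC₀0 : 0 < C₀ := by linarith
  obtain ⟨J, hJ, N1, hN1⟩ := h (C' * (3 * c + 1)) (ε / (2 * C₀)) (by positivity)
  obtain ⟨K, N2, hN2⟩ := hd (2 * J * (3 * c + 1)) (ε / (2 * C₀)) (by positivity)
  obtain ⟨Y, hY⟩ := growth J c hc1
  refine ⟨K, max (max N1 N2) (max ⌈Y⌉₊ 3), fun x hx => ?_⟩
  have hinf : (Set.ofPred Nat.Prime).Infinite := Nat.infinite_setOfPred_prime
  have hxN1 : N1 ≤ x := ((le_max_left _ _).trans (le_max_left _ _)).trans hx
  have hxN2 : N2 ≤ x := ((le_max_right _ _).trans (le_max_left _ _)).trans hx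
  have hxY : ⌈Y⌉₊ ≤ x := ((le_max_left _ _).trans (le_max_right _ _)).trans hx
  have hx3 : 3 ≤ x := ((le_max_right _ _).trans (le_max_right _ _)).trans hx
  obtain ⟨N, hN⟩ : ∃ N, N = pr x := ⟨_, rfl⟩
  have hxN : x + 2 ≤ N := by rw [hN]; exact Nat.add_two_le_nth_prime x
  have hNr : (x : ℝ) + 2 ≤ N := by exact_mod_cast hxN
  have hx3r : (3 : ℝ) ≤ x := by exact_mod_cast hx3
  have hNpos : (0 : ℝ) < N := by linarith
  have hlogN : 1 ≤ Real.log N := by
    rw [Real.le_log_iff_exp_le hNpos]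
    have := Real.exp_one_lt_d9
    linarith
  have hYN : 2 * J * (3 * c * Real.log N + 1) ≤ (N : ℝ) := by
    apply hY
    have : (⌈Y⌉₊ : ℝ) ≤ x := by exact_mod_cast hxY
    linarith [Nat.le_ceil Y]
  -- the length of the windows
  obtain ⟨H, hHdef⟩ : ∃ H, H = ⌈3 * c * Real.log N⌉₊ := ⟨_, rfl⟩
  have hclog : 0 < 3 * c * Real.log N := by positivity
  have hH0 : 0 < H := by rw [hHdef]; exact Nat.ceil_pos.2 hclog
  have hHlow : 3 * c * Real.log N ≤ H := by rw [hHdef]; exact Nat.le_ceil _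
  have hHup : (H : ℝ) ≤ 3 * c * Real.log N + 1 := by
    rw [hHdef]
    exact (Nat.ceil_lt_add_one hclog.le).le
  have hJr : (1 : ℝ) ≤ J := by exact_mod_cast hJ
  have h2JH : (2 * J * H : ℝ) ≤ N := by
    refine le_trans ?_ hYN
    exact mul_le_mul_of_nonneg_left hHup (by positivity)
  have h2JHn : 2 * J * H ≤ N := by exact_mod_cast h2JH
  obtain ⟨φ, hφ, hφs⟩ := hw J H (by omega) hH0
  have hφlt : ∀ i, (φ i : ℕ) + 1 ≤ 2 * J := fun i => (φ i).2
  have hwin : ∀ i, (φ i : ℕ) * H + H ≤ 2 * J * H := by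
    intro i
    have := Nat.mul_le_mul_right H (hφlt i)
    linarith [Nat.add_mul (φ i : ℕ) 1 H]
  -- first exceptional set
  have hE1 := hN1 N (by omega) (fun i => win ((φ i : ℕ) * H) H)
    (by
      intro i j hij
      rw [Finset.disjoint_left]
      intro z hz1 hz2
      obtain ⟨a, ha, rfl⟩ := mem_win.1 hz1
      obtain ⟨b, hb, hab⟩ := mem_win.1 hz2
      have hab' : a = b := by
        have : (a : ℤ) = b := by simpa using hab
        exact_mod_cast this
      subst hab'
      have hne : (φ i : ℕ) ≠ φ j := fun h' => hij (hφ (Fin.ext h'))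
      rcases lt_or_gt_of_ne hne with h' | h'
      · have : ((φ i : ℕ) + 1) * H ≤ (φ j : ℕ) * H := Nat.mul_le_mul_right H h'
        rw [Nat.add_mul, one_mul] at this
        omega
      · have : ((φ j : ℕ) + 1) * H ≤ (φ i : ℕ) * H := Nat.mul_le_mul_right H h'
        rw [Nat.add_mul, one_mul] at this
        omega)
    (by
      intro j z hz
      obtain ⟨a, ha, rfl⟩ := mem_win.1 hz
      have := hwin j
      constructor
      · rw [abs_neg, Nat.abs_cast]
        have : a ≤ N := by omega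
        exact_mod_cast this
      · have : a ≠ 0 := by omega
        simpa using this)
    (by
      intro j
      have h1 := sum_win ((φ j : ℕ) * H) H (fun a => (a : ℝ) / (Nat.totient a : ℝ))
      rw [h1]
      have h2 := hφs j
      rw [Nat.add_mul, one_mul] at h2
      refine h2.trans ?_
      have h3 : C' * (H : ℝ) ≤ C' * ((3 * c + 1) * Real.log N) := by
        apply mul_le_mul_of_nonneg_left _ (by linarith)
        nlinarith
      linarith)
  have hE2 := hN2 N (by omega)
  have hW : 2 * J * H ≤ ⌊2 * (J : ℝ) * (3 * c + 1) * Real.log N⌋₊ := by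
    apply Nat.le_floor
    push_cast
    have : (H : ℝ) ≤ (3 * c + 1) * Real.log N := by nlinarith
    calc 2 * (J : ℝ) * H ≤ 2 * J * ((3 * c + 1) * Real.log N) :=
          mul_le_mul_of_nonneg_left this (by positivity)
      _ = _ := by ring
  -- the map k -> p_k
  have hmaps : ∀ k ∈ (range x).filter (fun k : ℕ => ∀ i < K, ((Nat.nth Nat.Prime (k + i + 1) : ℝ) -
      Nat.nth Nat.Prime (k + i)) ≤ C * Real.log (Nat.nth Nat.Prime (k + i))),
      pr k ∈ ((range N).filter (fun p : ℕ => p.Prime ∧ ∀ j, ∃ a ∈ win ((φ j : ℕ) * H) H,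
        ((p : ℤ) - a).natAbs.Prime)) ∪
      ((range N).filter (fun p : ℕ => p.Prime ∧
        K ≤ ((Finset.Ioc p (p + ⌊2 * (J : ℝ) * (3 * c + 1) * Real.log N⌋₊)).filter Nat.Prime).card)) := by
    intro k hk
    rw [Finset.mem_filter, Finset.mem_range] at hk
    obtain ⟨hkx, hgap⟩ := hk
    have hpkN : pr k < N := by
      rw [hN]
      exact Nat.nth_strictMono hinf hkx
    by_contra hcon
    rw [Finset.mem_union, not_or, Finset.mem_filter, Finset.mem_filter, Finset.mem_range] at hcon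
    obtain ⟨hc1', hc2'⟩ := hcon
    have hprime : (pr k).Prime := Nat.prime_nth_prime k
    have hc3 : ¬ ∀ j, ∃ a ∈ win ((φ j : ℕ) * H) H, (((pr k : ℕ) : ℤ) - a).natAbs.Prime :=
      fun h' => hc1' ⟨hpkN, hprime, h'⟩
    have hc4 : ¬ K ≤ ((Finset.Ioc (pr k) (pr k + ⌊2 * (J : ℝ) * (3 * c + 1) * Real.log N⌋₊)).filter
        Nat.Prime).card := fun h' => hc2' ⟨hpkN, hprime, h'⟩
    push Not at hc3
    obtain ⟨j, hj⟩ := hc3
    have hno : ∀ a ∈ Finset.Ioc ((φ j : ℕ) * H) ((φ j : ℕ) * H + H), ¬ (pr k + a).Prime := by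
      intro a ha
      have h1 := hj (-(a : ℤ)) (mem_win.2 ⟨a, Finset.mem_Ioc.1 ha, rfl⟩)
      have h2 : (((pr k : ℕ) : ℤ) - -(a : ℤ)).natAbs = pr k + a := by
        rw [sub_neg_eq_add, ← Nat.cast_add, Int.natAbs_natCast]
      rwa [h2] at h1
    obtain ⟨i, hiK, hi1, hi2⟩ := core (pr k) k ((φ j : ℕ) * H) H _ K rfl (not_le.1 hc4)
      (by have := hwin j; omega) hno
    have hg := hgap i hiK
    have hpos : (0 : ℝ) < Nat.nth Nat.Prime (k + i) := by
      exact_mod_cast (Nat.prime_nth_prime (k + i)).pos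
    have hle : (Nat.nth Nat.Prime (k + i) : ℝ) ≤ 2 * N := by
      have h1 : pr (k + i) ≤ 2 * N := by
        have := hwin j
        omega
      exact_mod_cast h1
    have hone : (1 : ℝ) ≤ Nat.nth Nat.Prime (k + i) := by
      exact_mod_cast (Nat.prime_nth_prime (k + i)).one_lt.le
    have hlog0 : 0 ≤ Real.log (Nat.nth Nat.Prime (k + i)) := Real.log_nonneg hone
    have hlog1 : Real.log (Nat.nth Nat.Prime (k + i)) ≤ 2 * Real.log N := by
      calc Real.log (Nat.nth Nat.Prime (k + i)) ≤ Real.log (2 * N) := Real.log_le_log hpos hle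
        _ = Real.log 2 + Real.log N := Real.log_mul (by norm_num) hNpos.ne'
        _ ≤ 2 * Real.log N := by
            have h1 : Real.log 2 ≤ Real.log N := Real.log_le_log (by norm_num) (by linarith)
            linarith
    have hgapr : (H : ℝ) < (Nat.nth Nat.Prime (k + i + 1) : ℝ) - Nat.nth Nat.Prime (k + i) := by
      have h1 : ((pr (k + i) + H : ℕ) : ℝ) < (pr (k + i + 1) : ℕ) := by exact_mod_cast hi2
      push_cast at h1
      linarith
    have h5 : C * Real.log (Nat.nth Nat.Prime (k + i)) ≤ c * (2 * Real.log N) :=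
      (mul_le_mul_of_nonneg_right hcC hlog0).trans (mul_le_mul_of_nonneg_left hlog1 (by linarith))
    nlinarith
  have hcard : (((range x).filter (fun k : ℕ => ∀ i < K, ((Nat.nth Nat.Prime (k + i + 1) : ℝ) -
      Nat.nth Nat.Prime (k + i)) ≤ C * Real.log (Nat.nth Nat.Prime (k + i)))).card : ℝ) ≤
      ε / (2 * C₀) * (N / Real.log N) + ε / (2 * C₀) * (N / Real.log N) := by
    have h1 := Finset.card_le_card_of_injOn pr hmaps
      (fun a _ b _ hab => Nat.nth_injective hinf hab)
    have h2 := h1.trans (Finset.card_union_le _ _)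
    refine le_trans (Nat.cast_le.2 h2) ?_
    rw [Nat.cast_add]
    exact add_le_add hE1 hE2
  refine hcard.trans ?_
  have hNlog : (N : ℝ) / Real.log N ≤ C₀ * x := by
    rw [div_le_iff₀ (by linarith)]
    have h1 := hcheb x (by omega)
    have h2 : (N : ℝ) ≤ C₀ * (x * Real.log x) := by rw [hN]; exact h1
    have h3 : Real.log x ≤ Real.log N := Real.log_le_log (by linarith) (by linarith)
    calc (N : ℝ) ≤ C₀ * (x * Real.log x) := h2
      _ ≤ C₀ * (x * Real.log N) := by gcongr
      _ = C₀ * x * Real.log N := by ring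
  calc ε / (2 * C₀) * (N / Real.log N) + ε / (2 * C₀) * (N / Real.log N) =
      ε / C₀ * (N / Real.log N) := by field_simp; ring
    _ ≤ ε / C₀ * (C₀ * x) := by gcongr
    _ = ε * x := by field_simp

end Pool.Agent.H474R3.AA
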