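import Mathlib
import Pool.Agent.H474R3.AA.Iface
import Pool.Agent.H474R2.GE.CoreB

set_option autoImplicit false

open Finset Filter

namespace Pool.Agent.H474R3.AA

open Pool.Agent.H410R2.AC Pool.Agent.H410R2.EN Pool.Agent.H474R2.GE

/-- the fourth moment bound for a fixed constant -/
def FouK (n κ0 : ℕ) (C : ℝ) (K : ℕ) : Prop :=
  ∀ (b J z0 D0 k0 : ℕ) (P1 P2 B : Finset ℕ) (Hs : ℕ → ℕ → Finset ℕ) (q : ℕ → ℝ)
    (κ : ℕ → ℕ → ℝ) (e : ℕ → ℕ)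
    (w : ℕ → ℝ) (M : ℕ) (A : ℝ) (err : Finset ℕ → ℝ) (S : Fin n → Finset (Finset ℕ))
    (g : Fin n → ℝ) (V : ℝ),
    Setup κ0 K b J z0 D0 P1 P2 B Hs q κ e w M A err →
    (2 ^ 2 ^ J) ^ (K * b) ≤ D0 → 0 < V → V ≤ 1 →
    Pi1 q P2 ≤ C / V → (B.card : ℝ) * V1 q P1 ≤ C / V → (∀ τ, 0 ≤ g τ ∧ g τ ≤ C) →
    (∀ τ, ∀ R ∈ S τ, R ⊆ P2) →
    (∀ U ⊆ B, U.card ≤ 4 * n → dl e Hs (P1 ∪ P2) U ≤ 1) →
    (∀ m < M, w m ≠ 0 → ∀ a ∈ B, rg Hs P1 a m ≠ 0 →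
      (P2.filter (fun p => m % p ∈ Hs p a)).card ≤ k0) →
    ∀ (c : (Fin n → Option ℕ) → ℝ), (∀ σ, |c σ| ≤ 1) →
    ∑ m ∈ range M, w m * WW B c (xx Hs q P1 S g m) ^ 4 ≤
      (K / V) ^ K * 2 ^ (4 * n * k0) *
        (A + (B.card + 1 : ℝ) ^ (4 * n) * (((J : ℝ) + 2) * ET K (P1 ∪ P2) D0 err))

lemma cc_abs (n : ℕ) (B1 B2 : Finset ℕ) (σ : Fin (n + n) → Option ℕ) : |cc n B1 B2 σ| ≤ 1 := by
  unfold cc
  split_ifs <;> simp

lemma cc_sq (n : ℕ) (B1 B2 : Finset ℕ) (σ : Fin (n + n) → Option ℕ) :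
    cc n B1 B2 σ ^ 2 = cc n B1 B2 σ := by
  unfold cc
  split_ifs <;> simp

lemma occ_eq_term {n : ℕ} (q : Fin n → ℝ) (σ : Fin n → Option ℕ) :
    occ q σ = term (fun τ _ => q τ) σ := by
  unfold occ term
  refine Finset.prod_congr rfl (fun τ _ => ?_)
  cases σ τ <;> simp

lemma sum_occ_cc (hCross : Cross) (n : ℕ) (B1 B2 : Finset ℕ) (hd : Disjoint B1 B2)
    (q : Fin (n + n) → ℝ) :
    ∑ σ ∈ cfg (n + n) (B1 ∪ B2), cc n B1 B2 σ ^ 2 * occ q σ =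
      (∑ σ ∈ cfg n B1, occ (fun τ => q (Fin.castAdd n τ)) σ) *
        ∑ σ ∈ cfg n B2, occ (fun τ => q (Fin.natAdd n τ)) σ := by
  have h := hCross n B1 B2 hd (fun τ _ => q τ)
  unfold WW at h
  simp only [one_mul] at h
  simp only [cc_sq, occ_eq_term]
  exact h

lemma WW_mul (hCross : Cross) (n : ℕ) (B1 B2 : Finset ℕ) (hd : Disjoint B1 B2)
    (Hs : ℕ → ℕ → Finset ℕ) (q : ℕ → ℝ) (P1 : Finset ℕ) (S : Fin n → Finset (Finset ℕ))
    (g : Fin n → ℝ) (m : ℕ) :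
    WW (B1 ∪ B2) (cc n B1 B2) (xx Hs q P1 (Fin.append S S) (Fin.append g g) m) =
      WW B1 (fun _ => 1) (xx Hs q P1 S g m) * WW B2 (fun _ => 1) (xx Hs q P1 S g m) := by
  rw [hCross n B1 B2 hd]
  congr 1
  · congr 1
    funext τ a
    unfold Pool.Agent.H474R2.GE.xx
    rw [Fin.append_left, Fin.append_left]
  · congr 1
    funext τ a
    unfold Pool.Agent.H474R2.GE.xx
    rw [Fin.append_right, Fin.append_right]

/-- the total mass -/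
lemma mass_le {κ : ℕ → ℕ → ℝ} {w : ℕ → ℝ} {M : ℕ} {A ε1 L : ℝ} {P : Finset ℕ} {D0 Ko : ℕ}
    {err : Finset ℕ → ℝ} (hP : ∀ p ∈ P, p.Prime) (hEq : Equid κ w M A P D0 err) (hD0 : 1 ≤ D0)
    (hA : 0 < A) (hKo : 1 ≤ Ko) (hL : 1 ≤ L) (hET : ET Ko P D0 err ≤ A / L ^ Ko)
    (h1 : 1 ≤ ε1 * L) : ∑ m ∈ range M, w m ≤ (1 + ε1) * A := by
  have herr := err_nonneg hP hEq
  have h2 := hEq ∅ (Finset.empty_subset _) (by simpa using hD0) (fun _ => 0) (by simp)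
  simp only [Finset.notMem_empty, false_implies, implies_true, Finset.filter_true,
    Finset.prod_empty, mul_one] at h2
  have h3 : err ∅ ≤ ET Ko P D0 err := by
    unfold ET
    have h4 : ∅ ∈ P.powerset.filter (fun T : Finset ℕ => ∏ p ∈ T, p ≤ D0) := by
      rw [Finset.mem_filter]
      exact ⟨Finset.empty_mem_powerset _, by simpa using hD0⟩
    have h5 := Finset.single_le_sum (f := fun T : Finset ℕ => (Ko : ℝ) ^ T.card * err T)
      (fun T hT => by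
        have h6 := Finset.mem_filter.1 hT
        exact mul_nonneg (by positivity) (herr T (Finset.mem_powerset.1 h6.1) h6.2)) h4
    simpa using h5
  have h7 : A / L ^ Ko ≤ ε1 * A := by
    have h8 : L ≤ L ^ Ko := le_self_pow₀ hL (by omega)
    have h9 : 0 < L := by linarith
    rw [div_le_iff₀ (by positivity)]
    have h10 : 0 ≤ ε1 := by
      by_contra hcon
      push Not at hcon
      nlinarith
    calc A = 1 * A := (one_mul A).symm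
      _ ≤ (ε1 * L) * A := mul_le_mul_of_nonneg_right h1 hA.le
      _ ≤ (ε1 * L ^ Ko) * A := by gcongr
      _ = ε1 * A * L ^ Ko := by ring
  have h11 := (abs_le.mp h2).2
  linarith

end Pool.Agent.H474R3.AA
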