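import Mathlib
import Pool.Agent.H474R3.AA.CoreFix

set_option autoImplicit false

open Finset Filter

namespace Pool.Agent.H474R3.AA

open Pool.Agent.H410R2.AC Pool.Agent.H410R2.EN Pool.Agent.H474R2.GE

/-- the argument at a fixed X -/
lemma core_fixedAA (hCollapse : Collapse) (hMain : MainIneq) (hCross : Cross) (hErr : ErrE)
    (hFinish : Finish) (hLevel : Level2)
    (C C1 CB θ η η' ε ε1 T0 v0 δ βm : ℝ)
    (n K2 K4 Km b Ko k0 Jn : ℕ) (u β : Fin n → ℝ) (Cst R1 R2 F0 C2 : ℝ)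
    (hC : 1 ≤ C) (hC1 : 1 ≤ C1) (hCB : CB = 2 * C * C1) (hθ : 0 < θ) (hθ1 : θ ≤ 1)
    (hε : 0 < ε) (hεone : ε ≤ 1) (hη' : η' = ε / 8) (hε1 : ε1 = ε / 100)
    (hη : η = η' * θ / (40 * C1 * CB ^ 2)) (hT0 : T0 = θ / 10)
    (huβ : ∀ τ, 0 < u τ ∧ 0 < β τ) (hβs : ∑ τ, β τ = 1) (hus : ∑ τ, u τ ≤ T0)
    (hβm0 : 0 < βm) (hβm : ∀ τ, βm ≤ β τ) (hC2 : C2 = CB + C1 + η / βm + 1)
    (hKm : Km = K2 + K4) (hK21 : 1 ≤ K2) (hKo1 : Km + 8 * n + 8 ≤ Ko)
    (hKoδ : 1 / (Ko : ℝ) ≤ δ)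
    (hbK : Km ≤ b) (hb4 : v0 ≤ 1 / 4) (hb10 : v0 ≤ θ / 10) (hv00 : 0 < v0)
    (hvb : v0 * (Km * b) = θ / 20) (hδ0 : 0 < δ) (hδ1 : δ ≤ 1)
    (hCst : K2 * (1 + CB * (40 * C1 / θ) ^ 2) ≤ ε1 * Cst)
    (hbE : Cst * (2 / v0) ^ K2 * (1 / 2 : ℝ) ^ b ≤ 1 / 32)
    (hδE : Cst * (2 / v0) ^ K2 * (Real.exp (K2 * δ) - 1) ≤ 1 / 32)
    (hR1 : K2 * (2 / v0) ^ K2 * (2 * C) ^ (4 * n + 2) ≤ ε1 * R1)
    (hR2 : (2 * C) * (40 * C1 / θ) ^ 2 * R1 ≤ R2) (hk0 : k0 = ⌈2 * C / v0⌉₊)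
    (hF0 : F0 = (2 * K4 / v0) ^ K4 * 2 ^ (4 * n * k0) * 2) (hF00 : 0 < F0)
    (hJn0 : 0 < Jn) (hJn : 16 * F0 / ε ≤ Jn)
    (X L V : ℝ) (J κ0 z0 z1 z2 D0 : ℕ) (hX1 : 1 < X) (hL : L = Real.log X) (hL8 : 8 ≤ L)
    (hz1 : z1 = 2 ^ 2 ^ J) (hz14 : 4 ≤ z1) (hV : V = Real.log z1 / L)
    (hJlow : v0 * L / 2 ≤ Real.log z1) (hJup : Real.log z1 ≤ v0 * L)
    (hXz : L ≤ X ^ (v0 / 2)) (hXR1 : 16 * R1 ≤ L) (hXR2 : 16 * R2 ≤ L)
    (hXC : (2 * C) ^ (4 * n) ≤ L) (hXne : 2 * C1 * Real.log L < v0 * L / 2)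
    (hz0K : Ko ≤ z0) (hz0L : (z0 : ℝ) ≤ L) (hz2 : z2 = ⌊X ^ θ⌋₊) (hD0 : D0 = ⌊X ^ θ⌋₊)
    (P P1 P2 : Finset ℕ) (q : ℕ → ℝ) (hPsub : P ⊆ PP z0 z2) (hQ : QG q P)
    (hκb : ∀ p ∈ P, 1 / (p : ℝ) ≤ 1 / q p ∧ 1 / q p ≤ κ0 / (p : ℝ))
    (hP1 : P1 = P.filter (fun p => z0 < p ∧ p ≤ z1))
    (hP2 : P2 = P.filter (fun p => z1 < p ∧ p ≤ z2))
    (hN1 : ∀ a b : ℕ, z0 ≤ a → a ≤ b → b ≤ z2 →
      Pi1 q (P.filter (fun p => a < p ∧ p ≤ b)) ≤ C1 * (Real.log b / Real.log a) ∧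
      Real.log b / Real.log a ≤ C1 * Pi1 q (P.filter (fun p => a < p ∧ p ≤ b)))
    (S : Fin n → Finset (Finset ℕ))
    (hSsub : ∀ τ, S τ ⊆ (P2.powerset).filter
      (fun R => V < Real.log (∏ p ∈ R, (p : ℝ)) / L ∧ Real.log (∏ p ∈ R, (p : ℝ)) / L ≤ u τ))
    (hSdis : ∀ τ τ', τ ≠ τ' → Disjoint (S τ) (S τ'))
    (hSGG : ∀ τ, β τ ^ 2 / (η * V) ≤ GG q (S τ))
    (hmass0 : T0 / (4 * C1 * V) ≤ ∑ R ∈ (P2.powerset).filter
        (fun R : Finset ℕ => Real.log (∏ p ∈ R, (p : ℝ)) / L ≤ T0), wt q R)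
    (B : Fin Jn → Finset ℕ) (hBdis : ∀ i j, i ≠ j → Disjoint (B i) (B j))
    (Hs : ℕ → ℕ → Finset ℕ) (κ : ℕ → ℕ → ℝ) (e : ℕ → ℕ) (w : ℕ → ℝ)
    (M : ℕ) (A : ℝ) (err : Finset ℕ → ℝ)
    (hSec : SecK n κ0 C2 K2) (hSecX : SecXK (n + n) κ0 C2 K2) (hFou : FouK n κ0 C2 K4)
    (hBc : ∀ i j, ((B i ∪ B j).card : ℝ) * Real.log z0 ≤ C * L)
    (hρ : ∀ j, Hit κ0 Hs q P (B j))
    (hDens : Dens κ e P) (hw : ∀ m, 0 ≤ w m) (hA : 0 < A)
    (hEq : Equid κ w M A P D0 err)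
    (hdl : ∀ U ⊆ Finset.univ.biUnion B, U.card ≤ Ko → dl e Hs P U ≤ 1 / Ko)
    (hET : ET Ko P D0 err ≤ A / L ^ Ko)
    (hsize : ∀ m < M, w m ≠ 0 → ∀ j, ∀ a ∈ B j,
        (∏ p ∈ P.filter (fun p => m % p ∈ Hs p a), (p : ℝ)) ≤ X ^ C ∨
          ∀ p ∈ P, m % p ∈ Hs p a) :
    ∑ m ∈ (range M).filter (fun m => ∀ j, ∃ a ∈ B j, ∀ p ∈ P, m % p ∉ Hs p a), w m ≤ ε * A := by
  classical
  have hL1 : 1 ≤ L := by linarith
  have hL0 : 0 < L := by linarith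
  have hXpos : 0 < X := by linarith
  have hCB1 : 1 ≤ CB := by rw [hCB]; nlinarith
  have hη'0 : 0 < η' := by rw [hη']; positivity
  have hε10 : 0 < ε1 := by rw [hε1]; positivity
  have hε1one : ε1 ≤ 1 := by rw [hε1]; linarith
  have hη0 : 0 < η := by rw [hη]; positivity
  have hz1r : (4 : ℝ) ≤ z1 := by exact_mod_cast hz14
  have hlz1 : 0 < Real.log (z1 : ℝ) := Real.log_pos (by linarith)
  have hVpos : 0 < V := by rw [hV]; positivity
  have hVlow : v0 / 2 ≤ V := by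
    rw [hV, le_div_iff₀ hL0]
    linarith
  have hVup : V ≤ v0 := by
    rw [hV, div_le_iff₀ hL0]
    linarith
  have hV1 : V ≤ 1 := by linarith
  have hz1X : (z1 : ℝ) ≤ X ^ v0 := by
    rw [← Real.log_le_log_iff (by linarith) (by positivity), Real.log_rpow hXpos, ← hL]
    exact hJup
  have hz1X2 : X ^ (v0 / 2) ≤ (z1 : ℝ) := by
    rw [← Real.log_le_log_iff (by positivity) (by linarith), Real.log_rpow hXpos, ← hL]
    linarith
  have hz01 : z0 ≤ z1 := by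
    have : (z0 : ℝ) ≤ z1 := hz0L.trans (hXz.trans hz1X2)
    exact_mod_cast this
  have hz12 : z1 ≤ z2 := by
    rw [hz2]
    refine Nat.le_floor (hz1X.trans (Real.rpow_le_rpow_of_exponent_le hX1.le ?_))
    linarith
  have hz08 : 8 ≤ z0 := by omega
  have hszs := fun i j => sizes C C1 CB θ v0 X L V z0 z1 z2 J (B i ∪ B j).card P q hC hC1 hCB hθ1
    hX1 hL (by linarith) hz1 hz1r hV hz2 hz01 hz12 hz08 hb4 hJup (hBc i j) hQ hN1
  rw [← hP1, ← hP2] at hszs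
  have j0 : Fin Jn := ⟨0, hJn0⟩
  obtain ⟨hV10, hPi1low, -, hPi2, -, hJL⟩ := hszs j0 j0
  have hBV : ∀ i j, ((B i ∪ B j).card : ℝ) * V1 q P1 ≤ CB / V := fun i j => (hszs i j).2.2.1
  have hBL1 : ∀ i j, ((B i ∪ B j).card : ℝ) + 1 ≤ 2 * C * L := fun i j => (hszs i j).2.2.2.2.1
  have hne : P1.Nonempty :=
    P1_nonempty C1 v0 L z0 z1 P1 q hC1 hz08 hz0L hJlow hXne hPi1low
  have hP12 : P1 ∪ P2 = P := by
    rw [hP1, hP2]
    ext p
    simp only [Finset.mem_union, Finset.mem_filter]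
    constructor
    · rintro (⟨h, -, -⟩ | ⟨h, -, -⟩) <;> exact h
    · intro h
      have h1 := hPsub h
      have h2 := PP_gt h1
      have h3 := PP_le h1
      by_cases h4 : p ≤ z1
      · exact Or.inl ⟨h, h2, h4⟩
      · exact Or.inr ⟨h, by omega, h3⟩
  have hP1P : P1 ⊆ P := by rw [hP1]; exact Finset.filter_subset _ _
  have hP2P : P2 ⊆ P := by rw [hP2]; exact Finset.filter_subset _ _
  have hP1p : ∀ p ∈ P1, p.Prime := fun p hp => PP_prime (hPsub (hP1P hp))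
  have hP2p : ∀ p ∈ P2, p.Prime := fun p hp => PP_prime (hPsub (hP2P hp))
  have hP2z : ∀ p ∈ P2, z1 < p := by
    intro p hp
    rw [hP2, Finset.mem_filter] at hp
    exact hp.2.1
  have hPp : ∀ p ∈ P1 ∪ P2, p.Prime := by
    intro p hp
    rcases Finset.mem_union.mp hp with h | h
    · exact hP1p p h
    · exact hP2p p h
  rw [← hP12] at hρ hDens hEq hdl hET hsize hκb ⊢
  have herr := err_nonneg hPp hEq
  have hSP : ∀ τ, ∀ R ∈ S τ, R ⊆ P2 := by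
    intro τ R hR
    exact Finset.mem_powerset.mp (Finset.mem_filter.mp (hSsub τ hR)).1
  have hSpr : ∀ τ, ∀ R ∈ S τ, ∀ p ∈ R, p.Prime := fun τ R hR p hp => hP2p p (hSP τ R hR hp)
  have hSe : ∀ τ, ∅ ∉ S τ := by
    intro τ h
    have h1 := (Finset.mem_filter.mp (hSsub τ h)).2.1
    simp at h1
    linarith
  have hGpos : ∀ τ, 0 < GG q (S τ) := fun τ =>
    lt_of_lt_of_le (by have := (huβ τ).2; positivity) (hSGG τ)
  set g : Fin n → ℝ := fun τ => β τ / GG q (S τ) with hg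
  have hgG : ∀ τ, g τ * GG q (S τ) = β τ := fun τ => div_mul_cancel₀ _ (hGpos τ).ne'
  have hg0 : ∀ τ, 0 ≤ g τ := fun τ => div_nonneg (huβ τ).2.le (hGpos τ).le
  have hηβ : 0 < η / βm := by positivity
  have hgC : ∀ τ, g τ ≤ C2 := by
    intro τ
    have hb := (huβ τ).2
    have h1 : g τ ≤ β τ / (β τ ^ 2 / (η * V)) :=
      div_le_div_of_nonneg_left hb.le (by positivity) (hSGG τ)
    have h2 : β τ / (β τ ^ 2 / (η * V)) = η / β τ * V := by field_simp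
    have h3 : η / β τ ≤ η / βm := div_le_div_of_nonneg_left hη0.le hβm0 (hβm τ)
    have h4 : η / β τ * V ≤ η / βm * 1 := mul_le_mul h3 hV1 hVpos.le hηβ.le
    rw [hC2]
    linarith
  have hC2B : CB ≤ C2 := by rw [hC2]; linarith
  have hC2C : C1 ≤ C2 := by rw [hC2]; linarith
  have hPi2' : Pi1 q P2 ≤ C2 / V := hPi2.trans (div_le_div_of_nonneg_right hC2C hVpos.le)
  have hBV' : ∀ i j, ((B i ∪ B j).card : ℝ) * V1 q P1 ≤ C2 / V := fun i j =>
    (hBV i j).trans (div_le_div_of_nonneg_right hC2B hVpos.le)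
  have hBu : ∀ j, B j ∪ B j = B j := fun j => Finset.union_self _
  -- sizes of the divisors
  have hY1 : ∀ τ, 1 ≤ ⌊X ^ (u τ)⌋₊ := fun τ =>
    Nat.le_floor (by exact_mod_cast Real.one_le_rpow hX1.le (huβ τ).1.le)
  have hszS : ∀ τ, ∀ R ∈ S τ, ∏ p ∈ R, p ≤ ⌊X ^ (u τ)⌋₊ := by
    intro τ R hR
    have h1 := (Finset.mem_filter.mp (hSsub τ hR)).2.2
    have h2 := prod_ge_one (hSpr τ R hR)
    rw [div_le_iff₀ hL0, hL, ← Real.log_rpow hXpos] at h1
    have h3 := (Real.log_le_log_iff (by linarith) (by positivity)).mp h1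
    refine Nat.le_floor ?_
    push_cast
    exact h3
  have hT00 : 0 < T0 := by rw [hT0]; positivity
  have hY11 : 1 ≤ ⌊X ^ T0⌋₊ := Nat.le_floor (by exact_mod_cast Real.one_le_rpow hX1.le hT00.le)
  have hz1X' : (((2 ^ 2 ^ J : ℕ)) : ℝ) ≤ X ^ v0 := by rw [← hz1]; exact hz1X
  have hlev2 := (level X θ v0 T0 n J b K2 Km ⌊X ^ T0⌋₊ u hX1 hθ hv00 (by omega) hz1X' hvb hT0
    hus rfl).2
  have hlev4 := (level X θ v0 T0 n J b K4 Km ⌊X ^ T0⌋₊ u hX1 hθ hv00 (by omega) hz1X' hvb hT0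
    hus rfl).1
  have hlevX := hLevel X θ v0 T0 n J b K2 Km u hX1 hθ hv00 (by omega) hz1X' hvb hT0 hus
  have hD01 : 1 ≤ D0 := by
    rw [hD0]
    exact Nat.le_floor (by exact_mod_cast Real.one_le_rpow hX1.le hθ.le)
  rw [← hD0] at hlev2 hlev4 hlevX
  have hρU : ∀ i j, Hit κ0 Hs q (P1 ∪ P2) (B i ∪ B j) := by
    intro i j p hp a ha
    rcases Finset.mem_union.mp ha with h | h
    · exact hρ i p hp a h
    · exact hρ j p hp a h
  have hSetup : ∀ K : ℕ, K ≤ Km → ∀ i j,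
      Setup κ0 K b J z0 D0 P1 P2 (B i ∪ B j) Hs q κ e w M A err := by
    intro K hK i j
    refine ⟨hK.trans hbK, by omega, ?_, ?_, hDens, hw, hA.le, hκb, hEq, hρU i j⟩
    · intro p hp
      have h2 := PP_gt (hPsub (hP1P hp))
      rw [hP1, Finset.mem_filter] at hp
      exact ⟨PP_prime (hPsub hp.1), h2, by rw [← hz1]; exact hp.2.2⟩
    · intro p hp
      exact ⟨hP2p p hp, lt_of_le_of_lt hz01 (hP2z p hp), by rw [← hz1]; exact hP2z p hp⟩
  have hBsub : ∀ i j, B i ∪ B j ⊆ Finset.univ.biUnion B := by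
    intro i j a ha
    rw [Finset.mem_biUnion]
    rcases Finset.mem_union.mp ha with h | h
    · exact ⟨i, Finset.mem_univ _, h⟩
    · exact ⟨j, Finset.mem_univ _, h⟩
  have hdlU : ∀ i j, ∀ U ⊆ B i ∪ B j, U.card ≤ Ko → dl e Hs (P1 ∪ P2) U ≤ δ := fun i j U hU hUc =>
    (hdl U (hU.trans (hBsub i j)) hUc).trans hKoδ
  -- main inequality
  have hβ0 : ∀ τ, 0 ≤ β τ := fun τ => (huβ τ).2.le
  have hq : ∀ τ, 0 ≤ g τ ^ 2 * (V1 q P1 * GG q (S τ)) := fun τ =>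
    mul_nonneg (sq_nonneg _) (mul_nonneg hV10.le (hGpos τ).le)
  have hqη : ∀ j τ, ((B j).card : ℝ) * (g τ ^ 2 * (V1 q P1 * GG q (S τ))) ≤ CB * η := by
    intro j τ
    have h1 : g τ ^ 2 * (V1 q P1 * GG q (S τ)) = V1 q P1 * (β τ ^ 2 / GG q (S τ)) := by
      simp only [hg]
      have := (hGpos τ).ne'
      field_simp
    have h2 : β τ ^ 2 / GG q (S τ) ≤ η * V := by
      rw [div_le_iff₀ (hGpos τ)]
      have h3 := hSGG τ
      rw [div_le_iff₀ (by positivity)] at h3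
      linarith
    have h4 : 0 ≤ β τ ^ 2 / GG q (S τ) := div_nonneg (sq_nonneg _) (hGpos τ).le
    have h5 : ((B j).card : ℝ) * (g τ ^ 2 * (V1 q P1 * GG q (S τ))) =
        ((B j).card * V1 q P1) * (β τ ^ 2 / GG q (S τ)) := by rw [h1]; ring
    have hBVj := hBV j j
    rw [hBu] at hBVj
    have h6 : ((B j).card * V1 q P1) * (β τ ^ 2 / GG q (S τ)) ≤ (CB / V) * (η * V) :=
      mul_le_mul hBVj h2 h4 (by positivity)
    have h7 : (CB / V) * (η * V) = CB * η := by field_simp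
    rw [h5, ← h7]
    exact h6
  -- the star family
  set S1 : Finset (Finset ℕ) := (P2.powerset).filter
        (fun R : Finset ℕ => Real.log (∏ p ∈ R, (p : ℝ)) / L ≤ T0) with hS1
  have hS1P : ∀ R ∈ S1, R ⊆ P2 := fun R hR =>
    Finset.mem_powerset.mp (Finset.mem_filter.mp hR).1
  have hS1pr : ∀ R ∈ S1, ∀ p ∈ R, p.Prime := fun R hR p hp => hP2p p (hS1P R hR hp)
  have hG1 : θ / (40 * C1 * V) ≤ GG q S1 := by
    have h2 : T0 / (4 * C1 * V) = θ / (40 * C1 * V) := by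
      rw [hT0]
      field_simp
      norm_num
    rw [h2] at hmass0
    exact hmass0
  have hG1pos : 0 < GG q S1 := lt_of_lt_of_le (by positivity) hG1
  have hG1inv : 1 / GG q S1 ≤ 40 * C1 / θ * V := by
    rw [div_le_iff₀ hG1pos]
    calc (1 : ℝ) = 40 * C1 / θ * V * (θ / (40 * C1 * V)) := by field_simp
      _ ≤ 40 * C1 / θ * V * GG q S1 := mul_le_mul_of_nonneg_left hG1 (by positivity)
  have hinv0 : 0 ≤ 1 / GG q S1 := by positivity
  have hsz1 : ∀ R ∈ S1, ∏ p ∈ R, p ≤ ⌊X ^ T0⌋₊ := by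
    intro R hR
    have h1 := (Finset.mem_filter.mp hR).2
    have h2 := prod_ge_one (hS1pr R hR)
    rw [div_le_iff₀ hL0, hL, ← Real.log_rpow hXpos] at h1
    have h3 := (Real.log_le_log_iff (by linarith) (by positivity)).mp h1
    refine Nat.le_floor ?_
    push_cast
    exact h3
  -- errors
  have hE0 : 0 ≤ ET K2 (P1 ∪ P2) D0 err := ET_nonneg herr
  have hEL : ET K2 (P1 ∪ P2) D0 err ≤ A / L ^ Ko := (ET_mono (by omega) herr).trans hET
  have h2C : (1 : ℝ) ≤ 2 * C := by linarith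
  have h2v : (1 : ℝ) ≤ 2 / v0 := by
    rw [le_div_iff₀ hv00]
    linarith
  have hR1' : K2 * (2 / v0) ^ K2 * (2 * C) ^ (2 * n + 2) ≤ ε1 * R1 := by
    refine le_trans ?_ hR1
    have : (2 * C) ^ (2 * n + 2) ≤ (2 * C) ^ (4 * n + 2) := pow_le_pow_right₀ h2C (by omega)
    gcongr
  have hR1'' : K2 * (2 / v0) ^ K2 * (2 * C) ^ (2 * (n + n) + 2) ≤ ε1 * R1 := by
    refine le_trans (le_of_eq ?_) hR1
    congr 2
    omega
  have hEFs := fun j => hErr n K2 Ko J b (B j ∪ B j).card A L C CB C1 θ v0 V δ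
    (ET K2 (P1 ∪ P2) D0 err) (V1 q P1) (GG q S1) Cst R1 R2 ε1 hε10 hC hCB1 hC1 hθ hA.le (by omega)
    hL1 hv00 hVpos hV1 hVlow hδ0 hE0 hEL hCst hR1' hR2 hXR1 hXR2 hbE hδE (hBL1 j j) hJL hV10
    (hBV j j) hG1pos hG1inv
  have hEFX := fun i j => (hErr (n + n) K2 Ko J b (B i ∪ B j).card A L C CB C1 θ v0 V δ
    (ET K2 (P1 ∪ P2) D0 err) (V1 q P1) (GG q S1) Cst R1 R2 ε1 hε10 hC hCB1 hC1 hθ hA.le (by omega)
    hL1 hv00 hVpos hV1 hVlow hδ0 hE0 hEL hCst hR1'' hR2 hXR1 hXR2 hbE hδE (hBL1 i j) hJL hV10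
    (hBV i j) hG1pos hG1inv).1
  simp only [hBu] at hEFs
  -- the weights
  set Qw : Fin Jn → ℕ → ℝ := fun j m => WW (B j) (fun _ => 1) (xx Hs q P1 S g m) with hQw
  set Mj : Fin Jn → ℝ := fun j =>
    ∑ σ ∈ cfg n (B j), occ (fun τ => g τ ^ 2 * (V1 q P1 * GG q (S τ))) σ with hMj
  have hM1 : ∀ j, 1 ≤ Mj j := fun j =>
    (hMain n (B j) 0 β _ (CB * η) hβ0 hβs hq (hqη j)).2
  have hM0 : ∀ j, 0 < Mj j := fun j => lt_of_lt_of_le one_pos (hM1 j)
  have hsec : ∀ j, (∀ (c : (Fin n → Option ℕ) → ℝ), (∀ σ, |c σ| ≤ 1) →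
        |∑ m ∈ range M, w m * WW (B j) c (xx Hs q P1 S g m) ^ 2 -
          A * ∑ σ ∈ cfg n (B j), c σ ^ 2 *
            occ (fun τ => g τ ^ 2 * (V1 q P1 * GG q (S τ))) σ| ≤
        EF n K2 b J (B j).card A V δ (ET K2 (P1 ∪ P2) D0 err)) ∧
      (∀ (S1 : Finset (Finset ℕ)), (∀ R ∈ S1, R ⊆ P2) →
        (∀ R ∈ S1, ∏ p ∈ R, p ≤ ⌊X ^ T0⌋₊) →
        ∀ a₀ ∈ B j, ∀ (c : (Fin n → Option ℕ) → ℝ), (∀ σ, |c σ| ≤ 1) →
        |∑ m ∈ range M, w m * (WW ((B j).erase a₀) c (xx Hs q P1 S g m) *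
            (rg Hs P1 a₀ m * FF Hs q S1 (some a₀) m)) ^ 2 -
          A * (V1 q P1 * GG q S1 * ∑ σ ∈ cfg n ((B j).erase a₀), c σ ^ 2 *
            occ (fun τ => g τ ^ 2 * (V1 q P1 * GG q (S τ))) σ)| ≤
        EF n K2 b J (B j).card (A * V1 q P1) V δ (ET K2 (P1 ∪ P2) D0 err)) := by
    intro j
    have hs := hSetup K2 (by omega) j j
    have hbv := hBV' j j
    have hdlj := hdlU j j
    rw [hBu] at hs hbv hdlj
    exact hSec b J z0 D0 P1 P2 (B j) Hs q κ e w M A err S g (fun τ => ⌊X ^ (u τ)⌋₊) ⌊X ^ T0⌋₊ V δ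
      hs hlev2 hVpos hV1 hδ1 hPi2' hbv (fun τ => ⟨hg0 τ, hgC τ⟩) hSP hSe hSdis
      (fun U hU hUc => hdlj U hU (by omega)) (fun τ => ⟨hY1 τ, hszS τ⟩) hY11
  have hlow : ∀ j, A * Mj j - ε1 * A ≤ ∑ m ∈ range M, w m * Qw j m ^ 2 := by
    intro j
    have h1 := (hsec j).1 (fun _ => 1) (fun σ => by simp)
    simp only [one_pow, one_mul] at h1
    have h2 := (abs_le.mp h1).1
    have h3 := (hEFs j).1
    simp only [hQw, hMj]
    linarith
  -- pairs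
  have hpair : ∀ i j, i ≠ j → ∑ m ∈ range M, w m * (Qw i m ^ 2 * Qw j m ^ 2) ≤
      A * (Mj i * Mj j) + ε1 * A := by
    intro i j hij
    have hd := hBdis i j hij
    have h1 := hSecX b J z0 D0 P1 P2 (B i ∪ B j) Hs q κ e w M A err (Fin.append S S)
      (Fin.append g g) (Fin.append (fun τ => ⌊X ^ (u τ)⌋₊) (fun τ => ⌊X ^ (u τ)⌋₊)) V δ
      (Fin.append (fun _ => B i) (fun _ => B j)) (hSetup K2 (by omega) i j) hlevX hVpos hV1 hδ1
      hPi2' (hBV' i j) ?_ ?_ ?_ ?_ (fun U hU hUc => hdlU i j U hU (by omega)) ?_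
      (cc n (B i) (B j)) (cc_abs n _ _) ?_
    · have h2 := (abs_le.mp h1).2
      have h3 := hEFX i j
      have h4 : ∀ m, w m * WW (B i ∪ B j) (cc n (B i) (B j))
          (xx Hs q P1 (Fin.append S S) (Fin.append g g) m) ^ 2 =
          w m * (Qw i m ^ 2 * Qw j m ^ 2) := by
        intro m
        rw [WW_mul hCross n _ _ hd, mul_pow]
      rw [sum_occ_cc hCross n _ _ hd] at h2
      simp only [h4, Fin.append_left, Fin.append_right] at h2
      simp only [hMj]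
      linarith
    · intro τ
      refine Fin.addCases (fun τ => ?_) (fun τ => ?_) τ
      · rw [Fin.append_left]; exact ⟨hg0 τ, hgC τ⟩
      · rw [Fin.append_right]; exact ⟨hg0 τ, hgC τ⟩
    · intro τ
      refine Fin.addCases (fun τ => ?_) (fun τ => ?_) τ
      · rw [Fin.append_left]; exact hSP τ
      · rw [Fin.append_right]; exact hSP τ
    · intro τ
      refine Fin.addCases (fun τ => ?_) (fun τ => ?_) τ
      · rw [Fin.append_left]; exact hSe τ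
      · rw [Fin.append_right]; exact hSe τ
    · intro τ τ'
      refine Fin.addCases (fun τ => ?_) (fun τ => ?_) τ <;>
      refine Fin.addCases (fun τ' => ?_) (fun τ' => ?_) τ' <;> intro hne'
      · left
        rw [Fin.append_left, Fin.append_left]
        exact hSdis τ τ' (fun h => hne' (by rw [h]))
      · right
        rw [Fin.append_left, Fin.append_right]
        exact hd
      · right
        rw [Fin.append_left, Fin.append_right]
        exact hd.symm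
      · left
        rw [Fin.append_right, Fin.append_right]
        exact hSdis τ τ' (fun h => hne' (by rw [h]))
    · intro τ
      refine Fin.addCases (fun τ => ?_) (fun τ => ?_) τ
      · rw [Fin.append_left, Fin.append_left]; exact ⟨hY1 τ, hszS τ⟩
      · rw [Fin.append_right, Fin.append_right]; exact ⟨hY1 τ, hszS τ⟩
    · intro σ hσ τ a hτa
      have hσ' : (∀ τ : Fin n, ∀ a, σ (Fin.castAdd n τ) = some a → a ∈ B i) ∧
          (∀ τ : Fin n, ∀ a, σ (Fin.natAdd n τ) = some a → a ∈ B j) := by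
        by_contra hcon
        unfold cc at hσ
        rw [if_neg hcon] at hσ
        exact hσ rfl
      revert hτa
      refine Fin.addCases (fun τ => ?_) (fun τ => ?_) τ <;> intro hτa
      · rw [Fin.append_left]; exact hσ'.1 τ a hτa
      · rw [Fin.append_right]; exact hσ'.2 τ a hτa
  -- bad m
  set bad : Fin Jn → ℕ → Prop := fun j m => ∃ a ∈ B j, ∀ p ∈ P1 ∪ P2, m % p ∉ Hs p a with hbad
  have hmain1 : ∀ j, ((B j).card : ℝ) * V1 q P1 * (1 / GG q S1) * (CB * η) ≤ η' := by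
    intro j
    have hBVj := hBV j j
    rw [hBu] at hBVj
    have h1 : ((B j).card : ℝ) * V1 q P1 * (1 / GG q S1) ≤ (CB / V) * (40 * C1 / θ * V) :=
      mul_le_mul hBVj hG1inv hinv0 (by positivity)
    have h2 : (CB / V) * (40 * C1 / θ * V) * (CB * η) = η' := by
      rw [hη]
      field_simp
    rw [← h2]
    exact mul_le_mul_of_nonneg_right h1 (by positivity)
  have hbadm : ∀ j, ∑ m ∈ (range M).filter (bad j), w m * Qw j m ^ 2 ≤
      (η' + ε1) * A * Mj j := by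
    intro j
    have hup := up_bound hCollapse n P1 P2 (B j) Hs q w M S S1 g β hw hSP hS1P hgG hβs hG1pos
      (A * (V1 q P1 * GG q S1 * ((CB * η) * Mj j)) +
        EF n K2 b J (B j).card (A * V1 q P1) V δ (ET K2 (P1 ∪ P2) D0 err))
      (fun m => ∀ a ∈ B j, ∃ p ∈ P1 ∪ P2, m % p ∈ Hs p a) (fun m => Iff.rfl) (by
        intro a₀ ha₀
        have h2 := (hsec j).2 S1 hS1P hsz1 a₀ ha₀ (coef β) (fun σ => coef_abs hβ0 hβs σ)
        have h3 := (abs_le.mp h2).2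
        have h4 := (hMain n (B j) a₀ β _ (CB * η) hβ0 hβs hq (hqη j)).1
        have h5 : A * (V1 q P1 * GG q S1 * ∑ σ ∈ cfg n ((B j).erase a₀),
            coef β σ ^ 2 * occ (fun τ => g τ ^ 2 * (V1 q P1 * GG q (S τ))) σ) ≤
            A * (V1 q P1 * GG q S1 * ((CB * η) * Mj j)) :=
          mul_le_mul_of_nonneg_left (mul_le_mul_of_nonneg_left h4
            (mul_nonneg hV10.le hG1pos.le)) hA.le
        linarith)
    have hsplit : ∑ m ∈ range M, w m * Qw j m ^ 2 =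
        ∑ m ∈ (range M).filter (fun m => ∀ a ∈ B j, ∃ p ∈ P1 ∪ P2, m % p ∈ Hs p a),
          w m * Qw j m ^ 2 +
        ∑ m ∈ (range M).filter (fun m => ¬ ∀ a ∈ B j, ∃ p ∈ P1 ∪ P2, m % p ∈ Hs p a),
          w m * Qw j m ^ 2 :=
      (Finset.sum_filter_add_sum_filter_not _ _ _).symm
    have hfil : (range M).filter (bad j) =
        (range M).filter (fun m => ¬ ∀ a ∈ B j, ∃ p ∈ P1 ∪ P2, m % p ∈ Hs p a) := by
      refine Finset.filter_congr (fun m _ => ?_)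
      simp only [hbad]
      push Not
      rfl
    rw [hfil]
    have h3 := (hEFs j).2
    have h4 : ((B j).card : ℝ) * ((1 / GG q S1) ^ 2 * (A * (V1 q P1 * GG q S1 * ((CB * η) * Mj j)) +
        EF n K2 b J (B j).card (A * V1 q P1) V δ (ET K2 (P1 ∪ P2) D0 err))) =
        A * Mj j * ((B j).card * V1 q P1 * (1 / GG q S1) * (CB * η)) +
        (B j).card * ((1 / GG q S1) ^ 2 *
          EF n K2 b J (B j).card (A * V1 q P1) V δ (ET K2 (P1 ∪ P2) D0 err)) := by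
      field_simp
    have h5 : A * Mj j * ((B j).card * V1 q P1 * (1 / GG q S1) * (CB * η)) ≤ A * Mj j * η' :=
      mul_le_mul_of_nonneg_left (hmain1 j) (mul_nonneg hA.le (hM0 j).le)
    have h6 : ε1 * A ≤ ε1 * A * Mj j := le_mul_of_one_le_right (by positivity) (hM1 j)
    rw [h4] at hup
    have hup' : ∑ m ∈ range M, w m * Qw j m ^ 2 -
        ∑ m ∈ (range M).filter (fun m => ∀ a ∈ B j, ∃ p ∈ P1 ∪ P2, m % p ∈ Hs p a),
          w m * Qw j m ^ 2 ≤ A * Mj j * ((B j).card * V1 q P1 * (1 / GG q S1) * (CB * η)) +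
        (B j).card * ((1 / GG q S1) ^ 2 *
          EF n K2 b J (B j).card (A * V1 q P1) V δ (ET K2 (P1 ∪ P2) D0 err)) := hup
    have h7 : (η' + ε1) * A * Mj j = A * Mj j * η' + ε1 * A * Mj j := by ring
    rw [h7]
    linarith
  -- the fourth moment
  have hhit : ∀ j, ∀ m < M, w m ≠ 0 → ∀ a ∈ B j, rg Hs P1 a m ≠ 0 →
      (P2.filter (fun p => m % p ∈ Hs p a)).card ≤ k0 := by
    intro j m hm hwm a ha hrg
    exact hit_bound C v0 L X z1 k0 m a P1 P2 Hs hv00 hL0 hXpos hL hk0 hz1r hJlow hPp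
      hP2z hne hrg (hsize m hm hwm j a ha)
  have hE40 : 0 ≤ ET K4 (P1 ∪ P2) D0 err := ET_nonneg herr
  have hE4L : ET K4 (P1 ∪ P2) D0 err ≤ A / L ^ Ko := (ET_mono (by omega) herr).trans hET
  have hfour : ∀ j, ∑ m ∈ range M, w m * Qw j m ^ 4 ≤ F0 * A := by
    intro j
    have hs := hSetup K4 (by omega) j j
    have hbv := hBV' j j
    have hdlj := hdlU j j
    have hbl := hBL1 j j
    rw [hBu] at hs hbv hdlj hbl
    have h1 := hFou b J z0 D0 k0 P1 P2 (B j) Hs q κ e w M A err S g V hs hlev4 hVpos hV1 hPi2' hbv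
      (fun τ => ⟨hg0 τ, hgC τ⟩) hSP (fun U hU hUc => (hdlj U hU (by omega)).trans hδ1) (hhit j)
      (fun _ => 1) (fun σ => by simp)
    exact h1.trans (err4 n K4 Ko J (B j).card k0 A L C v0 V (ET K4 (P1 ∪ P2) D0 err) F0 hC
      hA.le (by omega) hL1 hv00 hVpos hVlow hE40 hE4L hXC hF0 hbl hJL)
  -- the total mass
  have hR1pos : 1 ≤ ε1 * L := by
    have h1 : (1 : ℝ) ≤ K2 * (2 / v0) ^ K2 * (2 * C) ^ (4 * n + 2) := by
      have h2 : (1 : ℝ) ≤ K2 := by exact_mod_cast hK21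
      have h3 : (1 : ℝ) ≤ (2 / v0) ^ K2 := one_le_pow₀ h2v
      have h4 : (1 : ℝ) ≤ (2 * C) ^ (4 * n + 2) := one_le_pow₀ h2C
      have h5 : (1 : ℝ) ≤ K2 * (2 / v0) ^ K2 := one_le_mul_of_one_le_of_one_le h2 h3
      exact one_le_mul_of_one_le_of_one_le h5 h4
    have h2 : 1 ≤ ε1 * R1 := h1.trans hR1
    have h3 : R1 ≤ L := by
      have : 0 < R1 := by
        by_contra hcon
        push Not at hcon
        have := mul_nonpos_of_nonneg_of_nonpos hε10.le hcon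
        linarith
      linarith
    exact h2.trans (mul_le_mul_of_nonneg_left h3 hε10.le)
  have htot := mass_le hPp hEq hD01 hA (by omega) hL1 hET hR1pos
  -- conclusion
  have hfin := hFinish Jn M w (fun j m => Qw j m ^ 2 / Mj j) bad A F0 ε1 (η' + ε1) hJn0 hA.le
    hε10.le hε1one hw (fun j m => div_nonneg (sq_nonneg _) (hM0 j).le) htot ?_ ?_ ?_ ?_
  · refine hfin.trans ?_
    refine mul_le_mul_of_nonneg_right ?_ hA.le
    have hJr : (0 : ℝ) < Jn := by exact_mod_cast hJn0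
    have h1 : 4 * F0 / Jn ≤ ε / 4 := by
      rw [div_le_iff₀ hJr]
      rw [div_le_iff₀ hε] at hJn
      linarith
    rw [hη', hε1]
    linarith
  · intro j
    have h1 := hlow j
    have h2 : ∑ m ∈ range M, w m * (Qw j m ^ 2 / Mj j) =
        (∑ m ∈ range M, w m * Qw j m ^ 2) / Mj j := by
      rw [Finset.sum_div]
      exact Finset.sum_congr rfl (fun m _ => by ring)
    rw [h2, le_div_iff₀ (hM0 j)]
    refine le_trans ?_ h1
    have h3 : ε1 * A ≤ ε1 * A * Mj j := le_mul_of_one_le_right (by positivity) (hM1 j)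
    have h4 : (1 - ε1) * A * Mj j = A * Mj j - ε1 * A * Mj j := by ring
    rw [h4]
    linarith
  · intro i j hij
    have h1 := hpair i j hij
    have h2 : ∑ m ∈ range M, w m * (Qw i m ^ 2 / Mj i * (Qw j m ^ 2 / Mj j)) =
        (∑ m ∈ range M, w m * (Qw i m ^ 2 * Qw j m ^ 2)) / (Mj i * Mj j) := by
      rw [Finset.sum_div]
      refine Finset.sum_congr rfl (fun m _ => ?_)
      have := (hM0 i).ne'
      have := (hM0 j).ne'
      field_simp
    have h3 : 0 < Mj i * Mj j := mul_pos (hM0 i) (hM0 j)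
    rw [h2, div_le_iff₀ h3]
    refine h1.trans ?_
    have h4 : 1 ≤ Mj i * Mj j := one_le_mul_of_one_le_of_one_le (hM1 i) (hM1 j)
    have h5 : ε1 * A ≤ ε1 * A * (Mj i * Mj j) := le_mul_of_one_le_right (by positivity) h4
    have h6 : (1 + ε1) * A * (Mj i * Mj j) = A * (Mj i * Mj j) + ε1 * A * (Mj i * Mj j) := by ring
    rw [h6]
    linarith
  · intro j
    have h2 : ∑ m ∈ range M, w m * (Qw j m ^ 2 / Mj j) ^ 2 =
        (∑ m ∈ range M, w m * Qw j m ^ 4) / Mj j ^ 2 := by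
      rw [Finset.sum_div]
      refine Finset.sum_congr rfl (fun m _ => ?_)
      have := (hM0 j).ne'
      field_simp
    have h3 : 0 < Mj j ^ 2 := pow_pos (hM0 j) 2
    rw [h2, div_le_iff₀ h3]
    refine (hfour j).trans ?_
    exact le_mul_of_one_le_right (by positivity) (one_le_pow₀ (hM1 j))
  · intro j
    have h2 : ∑ m ∈ (range M).filter (bad j), w m * (Qw j m ^ 2 / Mj j) =
        (∑ m ∈ (range M).filter (bad j), w m * Qw j m ^ 2) / Mj j := by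
      rw [Finset.sum_div]
      exact Finset.sum_congr rfl (fun m _ => by ring)
    rw [h2, div_le_iff₀ (hM0 j)]
    exact hbadm j

end Pool.Agent.H474R3.AA
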