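import Mathlib
import Pool.Agent.H474R3.AA.CoreFixB

set_option autoImplicit false

open Finset Filter

namespace Pool.Agent.H474R3.AA

open Pool.Agent.H410R2.AC Pool.Agent.H410R2.EN Pool.Agent.H474R2.GE

/-- AA6: the core theorem, for ε ≤ 1 and C doubled -/
theorem coreAA_of (hSecM : SecM) (hFourth : Pool.Agent.H474R2.GE.FourthW) (hCollapse : Collapse)
    (hMain : MainIneq) (hNT : NTq) (hTypes : Types) (hCross : Cross) (hErr : ErrE)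
    (hFinish : Finish) (hLevel : Level2) : CoreAA := by
  classical
  intro κ0 C' θ ε' hκ0 hC' hθ hθ1 hε'
  obtain ⟨C, hCdef⟩ : ∃ C : ℝ, C = 2 * C' := ⟨_, rfl⟩
  have hC : 1 ≤ C := by linarith
  have hCC : C' ≤ C := by linarith
  obtain ⟨ε, hεdef⟩ : ∃ ε : ℝ, ε = min ε' 1 := ⟨_, rfl⟩
  have hε : 0 < ε := by rw [hεdef]; exact lt_min hε' one_pos
  have hεone : ε ≤ 1 := by rw [hεdef]; exact min_le_right _ _
  have hεε' : ε ≤ ε' := by rw [hεdef]; exact min_le_left _ _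
  obtain ⟨C1, hC1, KN, hKN, hNT'⟩ := hNT κ0 C hκ0 hC
  obtain ⟨CB, hCB⟩ : ∃ CB : ℝ, CB = 2 * C * C1 := ⟨_, rfl⟩
  have hCB1 : 1 ≤ CB := by rw [hCB]; nlinarith
  obtain ⟨η', hη'⟩ : ∃ η' : ℝ, η' = ε / 8 := ⟨_, rfl⟩
  obtain ⟨ε1, hε1⟩ : ∃ ε1 : ℝ, ε1 = ε / 100 := ⟨_, rfl⟩
  have hη'0 : 0 < η' := by rw [hη']; positivity
  have hε10 : 0 < ε1 := by rw [hε1]; positivity
  obtain ⟨η, hη⟩ : ∃ η : ℝ, η = η' * θ / (40 * C1 * CB ^ 2) := ⟨_, rfl⟩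
  have hη0 : 0 < η := by rw [hη]; positivity
  obtain ⟨T0, hT0⟩ : ∃ T0 : ℝ, T0 = θ / 10 := ⟨_, rfl⟩
  have hT00 : 0 < T0 := by rw [hT0]; positivity
  obtain ⟨n, u, β, V₀, hV₀, huβ, hβs, hus, hS⟩ := hTypes (4 * C1) η T0 (by linarith) hη0 hT00
  have hn0 : 0 < n := by
    rcases Nat.eq_zero_or_pos n with h | h
    · subst h
      simp at hβs
    · exact h
  have hne : Nonempty (Fin n) := ⟨⟨0, hn0⟩⟩
  obtain ⟨βm, hβm0, hβm⟩ : ∃ βm : ℝ, 0 < βm ∧ ∀ τ, βm ≤ β τ := by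
    obtain ⟨τ0, -, h⟩ := Finset.exists_min_image (Finset.univ : Finset (Fin n)) β
      Finset.univ_nonempty
    exact ⟨β τ0, (huβ τ0).2, fun τ => h τ (Finset.mem_univ τ)⟩
  obtain ⟨C2, hC2⟩ : ∃ C2 : ℝ, C2 = CB + C1 + η / βm + 1 := ⟨_, rfl⟩
  have hηβ : 0 < η / βm := by positivity
  have hC2' : 1 ≤ C2 := by linarith
  obtain ⟨Ka, hKa, hSecA⟩ := hSecM n κ0 C2 hC2'
  obtain ⟨Kb, hKb, hSecB⟩ := hSecM (n + n) κ0 C2 hC2'
  obtain ⟨K4, hK4, hFou⟩ := hFourth n κ0 C2 hC2'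
  obtain ⟨K2, hK2⟩ : ∃ K2 : ℕ, K2 = Ka + Kb := ⟨_, rfl⟩
  obtain ⟨Km, hKm⟩ : ∃ Km : ℕ, Km = K2 + K4 := ⟨_, rfl⟩
  obtain ⟨Cst, hCst⟩ : ∃ Cst : ℝ, Cst = K2 * (1 + CB * (40 * C1 / θ) ^ 2) / ε1 := ⟨_, rfl⟩
  obtain ⟨b, hb1, hbK, hbV, hb4, hb10, hbE⟩ := exists_b Km K2 (by omega) θ V₀ Cst hθ hV₀
  obtain ⟨v0, hv0⟩ : ∃ v0 : ℝ, v0 = θ / (20 * Km * b) := ⟨_, rfl⟩
  rw [← hv0] at hbV hb4 hb10 hbE
  have hKm0 : (0 : ℝ) < Km := by exact_mod_cast (by omega : 0 < Km)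
  have hb0 : (0 : ℝ) < b := by exact_mod_cast (by omega : 0 < b)
  have hv00 : 0 < v0 := by rw [hv0]; positivity
  have hvb : v0 * (Km * b) = θ / 20 := by
    rw [hv0]
    field_simp
  obtain ⟨δ, hδ0, hδ1, hδE⟩ := exists_delta K2 (Cst * (2 / v0) ^ K2)
  obtain ⟨k0, hk0⟩ : ∃ k0 : ℕ, k0 = ⌈2 * C / v0⌉₊ := ⟨_, rfl⟩
  obtain ⟨F0, hF0⟩ : ∃ F0 : ℝ, F0 = (2 * K4 / v0) ^ K4 * 2 ^ (4 * n * k0) * 2 := ⟨_, rfl⟩
  have hK40 : (0 : ℝ) < K4 := by exact_mod_cast (by omega : 0 < K4)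
  have hF00 : 0 < F0 := by rw [hF0]; positivity
  obtain ⟨Ko, hKo⟩ : ∃ Ko : ℕ, Ko = Km + 8 * n + 8 + ⌈1 / δ⌉₊ + KN + 2 * κ0 := ⟨_, rfl⟩
  have hKoδ : 1 / (Ko : ℝ) ≤ δ := by
    have h1 : 1 / δ ≤ Ko := by
      refine (Nat.le_ceil _).trans ?_
      exact_mod_cast (by omega : ⌈1 / δ⌉₊ ≤ Ko)
    have h2 : (0 : ℝ) < Ko := lt_of_lt_of_le (by positivity) h1
    rw [div_le_iff₀ h2]
    rw [div_le_iff₀ hδ0] at h1
    linarith
  obtain ⟨R1, hR1⟩ : ∃ R1 : ℝ, R1 = K2 * (2 / v0) ^ K2 * (2 * C) ^ (4 * n + 2) / ε1 := ⟨_, rfl⟩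
  obtain ⟨R2, hR2⟩ : ∃ R2 : ℝ, R2 = (2 * C) * (40 * C1 / θ) ^ 2 * R1 := ⟨_, rfl⟩
  obtain ⟨Jn, hJn⟩ : ∃ Jn : ℕ, Jn = ⌈16 * F0 / ε⌉₊ + 1 := ⟨_, rfl⟩
  obtain ⟨X0, hX0⟩ := eventually_atTop.mp (ev_X v0 R1 R2 ((2 * C) ^ (4 * n)) C1 hv00)
  refine ⟨Jn, by omega, Ko, by omega, X0, ?_⟩
  intro X hX z0 z2 D0 hz0K hz0L hz2 hD0 P B Hs q κ e w M A err hPsub hMert hκb hBdis hBc hρ hDens
    hw hA hEq hdl hET hsize
  obtain ⟨hX1, hL8, hXJ, hXz, hXR1, hXR2, hXC, hXne⟩ := hX0 X hX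
  obtain ⟨J, hJ1, hJlow, hJup⟩ := exists_J (Real.log X) v0 hXJ
  have hz14 : 4 ≤ 2 ^ 2 ^ J := by
    have : 2 ≤ 2 ^ J := by
      calc 2 = 2 ^ 1 := rfl
        _ ≤ 2 ^ J := Nat.pow_le_pow_right (by norm_num) hJ1
    calc 4 = 2 ^ 2 := rfl
      _ ≤ 2 ^ 2 ^ J := Nat.pow_le_pow_right (by norm_num) this
  have hL0 : 0 < Real.log X := by linarith
  have hz1r : (4 : ℝ) ≤ ((2 ^ 2 ^ J : ℕ) : ℝ) := by exact_mod_cast hz14
  have hlz1 : 0 < Real.log ((2 ^ 2 ^ J : ℕ) : ℝ) := Real.log_pos (by linarith)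
  have hV : 0 < Real.log ((2 ^ 2 ^ J : ℕ) : ℝ) / Real.log X := div_pos hlz1 hL0
  have hVup : Real.log ((2 ^ 2 ^ J : ℕ) : ℝ) / Real.log X ≤ v0 := by
    rw [div_le_iff₀ hL0]
    linarith
  have hQ : QG q P := by
    intro p hp
    have h1 := PP_gt (hPsub hp)
    exact q_ge_two hκ0 (by omega) (hκb p hp)
  have hXpos : 0 < X := by linarith
  have hz1X : (((2 ^ 2 ^ J : ℕ)) : ℝ) ≤ X ^ v0 := by
    rw [← Real.log_le_log_iff (by linarith) (by positivity), Real.log_rpow hXpos]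
    exact hJup
  have hz1X2 : X ^ (v0 / 2) ≤ (((2 ^ 2 ^ J : ℕ)) : ℝ) := by
    rw [← Real.log_le_log_iff (by positivity) (by linarith), Real.log_rpow hXpos]
    linarith
  have hz01 : z0 ≤ 2 ^ 2 ^ J := by
    have : (z0 : ℝ) ≤ (((2 ^ 2 ^ J : ℕ)) : ℝ) := hz0L.trans (hXz.trans hz1X2)
    exact_mod_cast this
  have hz12 : 2 ^ 2 ^ J ≤ z2 := by
    rw [hz2]
    refine Nat.le_floor (hz1X.trans (Real.rpow_le_rpow_of_exponent_le hX1.le ?_))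
    linarith
  have hMert' : Mert q P z0 z2 C := fun a b ha hab hb => (hMert a b ha hab hb).trans hCC
  obtain ⟨hN1, hN2⟩ := hNT' z0 z2 P q (by omega) (hz01.trans hz12) hPsub hMert' hκb
  set P1 := P.filter (fun p => z0 < p ∧ p ≤ 2 ^ 2 ^ J) with hP1
  set P2 := P.filter (fun p => 2 ^ 2 ^ J < p ∧ p ≤ z2) with hP2
  have hP2' : P.filter (fun p => 2 ^ 2 ^ J < p) = P2 := by
    rw [hP2]
    refine Finset.filter_congr (fun p hp => ?_)
    have := PP_le (hPsub hp)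
    exact ⟨fun h => ⟨h, this⟩, fun h => h.1⟩
  have hQ2 : QG q P2 := hQ.mono (Finset.filter_subset _ _)
  have hP2p : ∀ p ∈ P2, p.Prime := fun p hp =>
    PP_prime (hPsub (Finset.filter_subset _ _ hp))
  have hmass : ∀ t : ℝ, Real.log ((2 ^ 2 ^ J : ℕ) : ℝ) / Real.log X ≤ t → t ≤ T0 →
      t / (4 * C1 * (Real.log ((2 ^ 2 ^ J : ℕ) : ℝ) / Real.log X)) ≤
      ∑ R ∈ (P2.powerset).filter
        (fun R : Finset ℕ => Real.log (∏ p ∈ R, (p : ℝ)) / Real.log X ≤ t), wt q R ∧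
      ∑ R ∈ (P2.powerset).filter
        (fun R : Finset ℕ => Real.log (∏ p ∈ R, (p : ℝ)) / Real.log X ≤ t), wt q R ≤
        4 * C1 * t / (Real.log ((2 ^ 2 ^ J : ℕ) : ℝ) / Real.log X) := by
    intro t ht ht'
    refine mass_bounds hC1 P2 q z2 X θ hX1 (2 ^ 2 ^ J) hz14 hz2 hP2p ?_ t ht
      (ht'.trans (by rw [hT0]; linarith))
    intro Y hY1 hY2
    have h := hN2 (2 ^ 2 ^ J) Y hz01 hY1 hY2
    rw [hP2'] at h
    exact h
  have hpow : ∀ R ∈ P2.powerset, QG q R := fun R hR =>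
    hQ2.mono (Finset.mem_powerset.mp hR)
  obtain ⟨S, hSsub, hSdis, hSmass⟩ := hS (Real.log ((2 ^ 2 ^ J : ℕ) : ℝ) / Real.log X)
    P2.powerset (wt q)
    (fun R => Real.log (∏ p ∈ R, (p : ℝ)) / Real.log X) hV (hVup.trans hbV)
    (fun R hR => ⟨wt_nonneg (hpow R hR), wt_le_one (hpow R hR)⟩) hmass
  have hBc2 : ∀ i j, ((B i ∪ B j).card : ℝ) * Real.log z0 ≤ C * Real.log X := by
    intro i j
    have h1 : ((B i ∪ B j).card : ℝ) ≤ (B i).card + (B j).card := by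
      exact_mod_cast Finset.card_union_le _ _
    have h2 := hBc i
    have h3 := hBc j
    have h4 : 0 ≤ Real.log (z0 : ℝ) := Real.log_natCast_nonneg _
    calc ((B i ∪ B j).card : ℝ) * Real.log z0 ≤ ((B i).card + (B j).card) * Real.log z0 :=
          mul_le_mul_of_nonneg_right h1 h4
      _ = (B i).card * Real.log z0 + (B j).card * Real.log z0 := by ring
      _ ≤ C * Real.log X := by rw [hCdef]; linarith
  have hsize' : ∀ m < M, w m ≠ 0 → ∀ j, ∀ a ∈ B j,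
        (∏ p ∈ P.filter (fun p => m % p ∈ Hs p a), (p : ℝ)) ≤ X ^ C ∨
          ∀ p ∈ P, m % p ∈ Hs p a := by
    intro m hm hwm j a ha
    rcases hsize m hm hwm j a ha with h | h
    · exact Or.inl (h.trans (Real.rpow_le_rpow_of_exponent_le hX1.le hCC))
    · exact Or.inr h
  rcases hA.eq_or_lt with hA0 | hApos
  · -- A = 0 : the total mass vanishes
    have hPp : ∀ p ∈ P, p.Prime := fun p hp => PP_prime (hPsub hp)
    have herr := err_nonneg hPp hEq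
    have hD01 : 1 ≤ D0 := by
      rw [hD0]
      exact Nat.le_floor (by exact_mod_cast Real.one_le_rpow hX1.le hθ.le)
    have h2 := hEq ∅ (Finset.empty_subset _) (by simpa using hD01) (fun _ => 0) (by simp)
    simp only [Finset.notMem_empty, false_implies, implies_true, Finset.filter_true,
      Finset.prod_empty, mul_one] at h2
    have h3 : err ∅ ≤ ET Ko P D0 err := by
      unfold ET
      have h4 : ∅ ∈ P.powerset.filter (fun T : Finset ℕ => ∏ p ∈ T, p ≤ D0) := by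
        rw [Finset.mem_filter]
        exact ⟨Finset.empty_mem_powerset _, by simpa using hD01⟩
      have h5 := Finset.single_le_sum (f := fun T : Finset ℕ => (Ko : ℝ) ^ T.card * err T)
        (fun T hT => by
          have h6 := Finset.mem_filter.1 hT
          exact mul_nonneg (by positivity) (herr T (Finset.mem_powerset.1 h6.1) h6.2)) h4
      simpa using h5
    have h4 := (abs_le.mp h2).2
    rw [← hA0, zero_div] at hET
    have h5 : ∑ m ∈ range M, w m ≤ 0 := by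
      rw [← hA0] at h4
      linarith
    rw [← hA0, mul_zero]
    refine le_trans ?_ h5
    exact Finset.sum_le_sum_of_subset_of_nonneg (Finset.filter_subset _ _) (fun m _ _ => hw m)
  · refine le_trans (core_fixedAA hCollapse hMain hCross hErr hFinish hLevel C C1 CB θ η η' ε ε1
      T0 v0 δ βm n K2 K4 Km b Ko k0 Jn u β Cst R1 R2 F0
      C2 hC hC1 hCB hθ hθ1 hε hεone hη' hε1 hη hT0 huβ hβs hus hβm0 hβm hC2 hKm (by omega)
      (by omega) hKoδ hbK hb4 hb10 hv00 hvb hδ0 hδ1 ?_ hbE hδE ?_ (le_of_eq hR2.symm) hk0 hF0 hF00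
      (by omega) ?_ X (Real.log X)
      (Real.log ((2 ^ 2 ^ J : ℕ) : ℝ) / Real.log X) J κ0 z0 (2 ^ 2 ^ J) z2 D0 hX1 rfl hL8 rfl
      hz14 rfl hJlow hJup hXz hXR1 hXR2 hXC hXne hz0K hz0L hz2 hD0 P P1 P2 q hPsub hQ hκb hP1 hP2
      hN1 S hSsub hSdis hSmass
      (hmass T0 (hVup.trans (by rw [hT0]; exact hb10)) le_rfl).1 B hBdis Hs κ e w M A err
      (hSecA K2 (by omega)).1 (hSecB K2 (by omega)).2 hFou
      hBc2 hρ hDens hw hApos hEq hdl hET hsize') ?_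
    · rw [hCst]
      refine le_of_eq ?_
      field_simp
    · rw [hR1]
      refine le_of_eq ?_
      field_simp
    · rw [hJn]
      push_cast
      have := Nat.le_ceil (16 * F0 / ε)
      linarith
    · exact mul_le_mul_of_nonneg_right hεε' hApos.le

end Pool.Agent.H474R3.AA
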