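import Mathlib
import Pool.Agent.H474R3.AA.Iface

/-!
AA2: the product of the weights of two disjoint sets of positions.
-/

set_option autoImplicit false

open Finset

namespace Pool.Agent.H474R3.AA

open Pool.Agent.H410R2.AC Pool.Agent.H410R2.EN Pool.Agent.H474R2.GE

namespace CrossAux

variable {n : ℕ}

open Classical in
theorem mem_cfg {m : ℕ} {B : Finset ℕ} {σ : Fin m → Option ℕ} :
    σ ∈ cfg m B ↔ (∀ τ a, σ τ = some a → a ∈ B) ∧ Inj σ := by
  unfold cfg
  rw [Finset.mem_filter, Fintype.mem_piFinset]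
  refine and_congr_left fun _ => ?_
  constructor
  · intro h τ a ha
    have := h τ
    rw [ha, Finset.some_mem_insertNone] at this
    exact this
  · intro h τ
    rcases hτ : σ τ with _ | a
    · exact Finset.none_mem_insertNone
    · rw [Finset.some_mem_insertNone]
      exact h τ a hτ

theorem inj_append {σ1 σ2 : Fin n → Option ℕ} {B1 B2 : Finset ℕ} (hd : Disjoint B1 B2)
    (h1 : σ1 ∈ cfg n B1) (h2 : σ2 ∈ cfg n B2) : Inj (Fin.append σ1 σ2) := by
  rw [mem_cfg] at h1 h2
  have hno : ∀ a, a ∈ B1 → a ∈ B2 → False := fun a ha hb => Finset.disjoint_left.1 hd ha hb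
  intro t t' a
  refine Fin.addCases (fun i => ?_) (fun i => ?_) t
  · refine Fin.addCases (fun j => ?_) (fun j => ?_) t'
    · rw [Fin.append_left, Fin.append_left]
      intro hi hj
      rw [h1.2 i j a hi hj]
    · rw [Fin.append_left, Fin.append_right]
      intro hi hj
      exact (hno a (h1.1 i a hi) (h2.1 j a hj)).elim
  · refine Fin.addCases (fun j => ?_) (fun j => ?_) t'
    · rw [Fin.append_left, Fin.append_right]
      intro hi hj
      exact (hno a (h1.1 j a hj) (h2.1 i a hi)).elim
    · rw [Fin.append_right, Fin.append_right]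
      intro hi hj
      rw [h2.2 i j a hi hj]

theorem term_append (x : Fin (n + n) → ℕ → ℝ) (σ1 σ2 : Fin n → Option ℕ) :
    term x (Fin.append σ1 σ2) =
      term (fun τ => x (Fin.castAdd n τ)) σ1 * term (fun τ => x (Fin.natAdd n τ)) σ2 := by
  unfold term
  rw [Fin.prod_univ_add]
  congr 1
  · refine Finset.prod_congr rfl fun τ _ => ?_
    rw [Fin.append_left]
  · refine Finset.prod_congr rfl fun τ _ => ?_
    rw [Fin.append_right]

end CrossAux

open CrossAux in
/-- AA2, file Cross.lean -/
theorem cross : Cross := by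
  classical
  intro n B1 B2 hd x
  have hR : WW B1 (fun _ => 1) (fun τ => x (Fin.castAdd n τ)) *
        WW B2 (fun _ => 1) (fun τ => x (Fin.natAdd n τ)) =
      ∑ q ∈ cfg n B1 ×ˢ cfg n B2, term x (Fin.append q.1 q.2) := by
    unfold WW
    rw [Finset.sum_mul_sum, ← Finset.sum_product']
    refine Finset.sum_congr rfl fun q _ => ?_
    rw [term_append, one_mul, one_mul]
  have hL : WW (B1 ∪ B2) (cc n B1 B2) x =
      ∑ σ ∈ (cfg (n + n) (B1 ∪ B2)).filter (fun σ =>
        (∀ τ : Fin n, ∀ a, σ (Fin.castAdd n τ) = some a → a ∈ B1) ∧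
        (∀ τ : Fin n, ∀ a, σ (Fin.natAdd n τ) = some a → a ∈ B2)), term x σ := by
    unfold WW
    rw [Finset.sum_filter]
    refine Finset.sum_congr rfl fun σ _ => ?_
    unfold cc
    split_ifs <;> simp
  rw [hL, hR]
  symm
  refine Finset.sum_nbij' (fun q => Fin.append q.1 q.2)
    (fun σ => (fun τ => σ (Fin.castAdd n τ), fun τ => σ (Fin.natAdd n τ))) ?_ ?_ ?_ ?_ ?_
  · rintro ⟨σ1, σ2⟩ hq
    rw [Finset.mem_product] at hq
    obtain ⟨h1, h2⟩ := hq
    simp only at h1 h2 ⊢
    rw [Finset.mem_filter]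
    refine ⟨mem_cfg.2 ⟨?_, inj_append hd h1 h2⟩, ?_, ?_⟩
    · intro t a
      refine Fin.addCases (fun i => ?_) (fun i => ?_) t
      · rw [Fin.append_left]
        intro h
        exact Finset.mem_union_left _ ((mem_cfg.1 h1).1 i a h)
      · rw [Fin.append_right]
        intro h
        exact Finset.mem_union_right _ ((mem_cfg.1 h2).1 i a h)
    · intro τ a h
      rw [Fin.append_left] at h
      exact (mem_cfg.1 h1).1 τ a h
    · intro τ a h
      rw [Fin.append_right] at h
      exact (mem_cfg.1 h2).1 τ a h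
  · intro σ hσ
    rw [Finset.mem_filter] at hσ
    obtain ⟨hσ, h1, h2⟩ := hσ
    have hinj := (mem_cfg.1 hσ).2
    rw [Finset.mem_product]
    refine ⟨mem_cfg.2 ⟨h1, ?_⟩, mem_cfg.2 ⟨h2, ?_⟩⟩
    · intro τ τ' a h h'
      have := hinj _ _ a h h'
      exact Fin.castAdd_injective n n this
    · intro τ τ' a h h'
      have := hinj _ _ a h h'
      exact Fin.natAdd_injective n n this
  · rintro ⟨σ1, σ2⟩ _
    simp only [Fin.append_left, Fin.append_right]
  · intro σ _
    funext t
    refine Fin.addCases (fun i => ?_) (fun i => ?_) t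
    · rw [Fin.append_left]
    · rw [Fin.append_right]
  · intro q _
    rfl

end Pool.Agent.H474R3.AA
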