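import Mathlib
import Pool.Agent.H474R3.AA.Iface

/-! AA3: the error terms are at most `ε1 A` (after lemma errs of helper410, ENCoreA). -/

set_option autoImplicit false

open Finset

namespace Pool.Agent.H474R3.AA

open Pool.Agent.H410R2.AC Pool.Agent.H410R2.EN Pool.Agent.H474R2.GE

theorem errE : ErrE := by
  intro n K2 Ko J b k A L C CB C1 θ v0 V δ E V1' G1 Cst R1 R2 ε1
    hε hC hCB1 hC1 hθ hA hKo hL1 hv00 hV hV1 hVlow hδ0 hE0 hEL hCst hR1 hR2 hXR1 hXR2 hb hd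
    hBL1 hJL hV10 hBV hG1pos hG1inv
  have hL0 : 0 < L := by linarith
  have hinv0 : 0 ≤ 1 / G1 := by positivity
  have hV2 : 1 / V ≤ 2 / v0 := by
    rw [div_le_div_iff₀ hV hv00]
    linarith
  have hVK : (K2 : ℝ) / V ^ K2 ≤ K2 * (2 / v0) ^ K2 := by
    rw [div_eq_mul_inv, ← inv_pow]
    have h1 : V⁻¹ ≤ 2 / v0 := by rw [← one_div]; exact hV2
    have h2 : 0 ≤ V⁻¹ := by positivity
    gcongr
  have hR10 : 0 ≤ R1 := by
    have h1 : 0 ≤ ε1 * R1 := le_trans (by positivity) hR1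
    exact nonneg_of_mul_nonneg_right h1 hε
  have hR20 : 0 ≤ R2 := le_trans (by positivity) hR2
  have hCst0 : 0 ≤ Cst := by
    have h1 : 0 ≤ ε1 * Cst := le_trans (by positivity) hCst
    exact nonneg_of_mul_nonneg_right h1 hε
  set tt : ℝ := Real.exp (K2 * δ) - 1 + (1 / 2 : ℝ) ^ b with htt
  have htt0 : 0 ≤ tt := by
    have h1 : (0 : ℝ) ≤ K2 * δ := by positivity
    have := Real.one_le_exp h1
    have h2 : (0 : ℝ) ≤ (1 / 2 : ℝ) ^ b := by positivity
    rw [htt]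
    linarith
  have hCtt : Cst * (2 / v0) ^ K2 * tt ≤ 1 / 16 := by
    rw [htt]
    have h1 : Cst * (2 / v0) ^ K2 * (Real.exp (K2 * δ) - 1 + (1 / 2 : ℝ) ^ b) =
        Cst * (2 / v0) ^ K2 * (Real.exp (K2 * δ) - 1) +
        Cst * (2 / v0) ^ K2 * (1 / 2 : ℝ) ^ b := by ring
    rw [h1]
    linarith
  have hCtt' : (ε1 * Cst) * (2 / v0) ^ K2 * tt ≤ ε1 / 16 := by
    calc (ε1 * Cst) * (2 / v0) ^ K2 * tt = ε1 * (Cst * (2 / v0) ^ K2 * tt) := by ring
      _ ≤ ε1 * (1 / 16) := by gcongr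
      _ = ε1 / 16 := by ring
  set e2 : ℝ := K2 / V ^ K2 * (k + 1 : ℝ) ^ (2 * n + 2) * (((J : ℝ) + 2) * E) with he2
  have he20 : 0 ≤ e2 := by positivity
  have hLKo : 0 < L ^ Ko := by positivity
  have hALK : 0 ≤ A / L ^ Ko := by positivity
  have he2le : e2 ≤ (ε1 * R1) * L ^ (2 * n + 3) * (A / L ^ Ko) := by
    rw [he2]
    calc K2 / V ^ K2 * (k + 1 : ℝ) ^ (2 * n + 2) * (((J : ℝ) + 2) * E) ≤
          (K2 * (2 / v0) ^ K2) * (2 * C * L) ^ (2 * n + 2) * (L * (A / L ^ Ko)) := by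
          gcongr
      _ = (K2 * (2 / v0) ^ K2 * (2 * C) ^ (2 * n + 2)) * L ^ (2 * n + 3) * (A / L ^ Ko) := by
          rw [mul_pow (2 * C) L]
          ring
      _ ≤ (ε1 * R1) * L ^ (2 * n + 3) * (A / L ^ Ko) := by gcongr
  have hLpow : ∀ j : ℕ, j + 1 ≤ Ko → L ^ j * (A / L ^ Ko) ≤ A / L := by
    intro j hj
    rw [mul_div_assoc', div_le_div_iff₀ hLKo hL0]
    calc L ^ j * A * L = A * L ^ (j + 1) := by ring
      _ ≤ A * L ^ Ko := by
        have := pow_le_pow_right₀ hL1 hj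
        gcongr
  have he2A : e2 ≤ ε1 * A / 16 := by
    refine he2le.trans ?_
    have h1 := hLpow (2 * n + 3) (by omega)
    calc (ε1 * R1) * L ^ (2 * n + 3) * (A / L ^ Ko) =
          ε1 * (R1 * (L ^ (2 * n + 3) * (A / L ^ Ko))) := by ring
      _ ≤ ε1 * (R1 * (A / L)) := by gcongr
      _ = ε1 * ((R1 / L) * A) := by ring
      _ ≤ ε1 * ((1 / 16) * A) := by
        have : R1 / L ≤ 1 / 16 := by rw [div_le_iff₀ hL0]; linarith
        gcongr
      _ = ε1 * A / 16 := by ring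
  have hεA : 0 ≤ ε1 * A := by positivity
  constructor
  · have h1 : EF n K2 b J k A V δ E = A * (K2 / V ^ K2 * tt) + e2 := by
      rw [he2, htt]
      rfl
    rw [h1]
    have h2 : K2 / V ^ K2 * tt ≤ ε1 / 16 := by
      calc K2 / V ^ K2 * tt ≤ (K2 * (2 / v0) ^ K2) * tt := by gcongr
        _ ≤ ((ε1 * Cst) * (2 / v0) ^ K2) * tt := by
            have h3 : (K2 : ℝ) ≤ ε1 * Cst := by
              refine le_trans ?_ hCst
              have : 0 ≤ CB * (40 * C1 / θ) ^ 2 := by positivity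
              have h4 : (0 : ℝ) ≤ K2 := by positivity
              nlinarith
            gcongr
        _ ≤ ε1 / 16 := hCtt'
    have h5 : A * (K2 / V ^ K2 * tt) ≤ A * (ε1 / 16) := by gcongr
    have h6 : A * (ε1 / 16) = ε1 * A / 16 := by ring
    linarith
  · have h1 : EF n K2 b J k (A * V1') V δ E = A * V1' * (K2 / V ^ K2 * tt) + e2 := by
      rw [he2, htt]
      rfl
    have h2 : (k : ℝ) * ((1 / G1) ^ 2 * EF n K2 b J k (A * V1') V δ E) =
        A * ((k * V1') * (1 / G1) ^ 2 * (K2 / V ^ K2 * tt)) +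
        k * (1 / G1) ^ 2 * e2 := by
      rw [h1]; ring
    rw [h2]
    have h4 : (k * V1') * (1 / G1) ^ 2 * (K2 / V ^ K2 * tt) ≤ ε1 / 16 := by
      have h30 : (k * V1') * (1 / G1) ^ 2 ≤ (CB / V) * (40 * C1 / θ * V) ^ 2 := by gcongr
      have h31 : (CB / V) * (40 * C1 / θ * V) ^ 2 = CB * (40 * C1 / θ) ^ 2 * V := by field_simp
      have h32 : CB * (40 * C1 / θ) ^ 2 * V ≤ CB * (40 * C1 / θ) ^ 2 * 1 := by gcongr
      have h3 : (k * V1') * (1 / G1) ^ 2 ≤ CB * (40 * C1 / θ) ^ 2 := by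
        rw [h31] at h30
        linarith
      calc (k * V1') * (1 / G1) ^ 2 * (K2 / V ^ K2 * tt) ≤
            (CB * (40 * C1 / θ) ^ 2) * ((K2 * (2 / v0) ^ K2) * tt) := by
            gcongr
        _ = (K2 * (CB * (40 * C1 / θ) ^ 2)) * (2 / v0) ^ K2 * tt := by ring
        _ ≤ (ε1 * Cst) * (2 / v0) ^ K2 * tt := by
            have h5 : K2 * (CB * (40 * C1 / θ) ^ 2) ≤ ε1 * Cst := by
              refine le_trans ?_ hCst
              have h4 : (0 : ℝ) ≤ K2 := by positivity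
              nlinarith
            gcongr
        _ ≤ ε1 / 16 := hCtt'
    have h6 : k * (1 / G1) ^ 2 * e2 ≤ ε1 * A / 16 := by
      have h7 : (1 / G1) ^ 2 ≤ (40 * C1 / θ) ^ 2 := by
        have : 1 / G1 ≤ 40 * C1 / θ := by
          refine hG1inv.trans ?_
          have h8 : 0 ≤ 40 * C1 / θ := by positivity
          nlinarith
        gcongr
      calc k * (1 / G1) ^ 2 * e2 ≤
            (2 * C * L) * (40 * C1 / θ) ^ 2 * ((ε1 * R1) * L ^ (2 * n + 3) * (A / L ^ Ko)) := by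
            have h9 : (k : ℝ) ≤ 2 * C * L := by linarith
            gcongr
        _ = ε1 * (((2 * C) * (40 * C1 / θ) ^ 2 * R1) * (L ^ (2 * n + 4) * (A / L ^ Ko))) := by ring
        _ ≤ ε1 * (R2 * (A / L)) := by
            have := hLpow (2 * n + 4) (by omega)
            gcongr
        _ = ε1 * ((R2 / L) * A) := by ring
        _ ≤ ε1 * ((1 / 16) * A) := by
            have : R2 / L ≤ 1 / 16 := by rw [div_le_iff₀ hL0]; linarith
            gcongr
        _ = ε1 * A / 16 := by ring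
    have h10 : A * ((k * V1') * (1 / G1) ^ 2 * (K2 / V ^ K2 * tt)) ≤ A * (ε1 / 16) := by gcongr
    have h11 : A * (ε1 / 16) = ε1 * A / 16 := by ring
    linarith

end Pool.Agent.H474R3.AA
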