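import Mathlib
import Pool.Agent.H474R3.AA.Iface

/-! AA4: Chebyshev and Markov. -/

set_option autoImplicit false

open Finset

namespace Pool.Agent.H474R3.AA

namespace Fsh

theorem second {Jn M : ℕ} {w : ℕ → ℝ} {u : Fin Jn → ℕ → ℝ} {A F0 ε1 : ℝ}
    (hA : 0 ≤ A) (h0 : 0 ≤ ε1)
    (hc : ∀ i j, i ≠ j → ∑ m ∈ range M, w m * (u i m * u j m) ≤ (1 + ε1) * A)
    (hF : ∀ j, ∑ m ∈ range M, w m * u j m ^ 2 ≤ F0 * A) :
    ∑ m ∈ range M, w m * (∑ j, u j m) ^ 2 ≤ Jn * (F0 * A) + (Jn : ℝ) ^ 2 * ((1 + ε1) * A) := by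
  have e1 : ∑ m ∈ range M, w m * (∑ j, u j m) ^ 2 =
      ∑ i : Fin Jn, ∑ j : Fin Jn, ∑ m ∈ range M, w m * (u i m * u j m) := by
    have e2 : ∀ m ∈ range M, w m * (∑ j, u j m) ^ 2 =
        ∑ i : Fin Jn, ∑ j : Fin Jn, w m * (u i m * u j m) := by
      intro m _
      rw [sq, Finset.sum_mul_sum, Finset.mul_sum]
      refine Finset.sum_congr rfl fun i _ => ?_
      rw [Finset.mul_sum]
    rw [Finset.sum_congr rfl e2, Finset.sum_comm]
    refine Finset.sum_congr rfl fun i _ => ?_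
    rw [Finset.sum_comm]
  rw [e1]
  have h1 : 0 ≤ (1 + ε1) * A := by positivity
  calc ∑ i : Fin Jn, ∑ j : Fin Jn, ∑ m ∈ range M, w m * (u i m * u j m)
      ≤ ∑ i : Fin Jn, ∑ j : Fin Jn, ((if i = j then F0 * A else 0) + (1 + ε1) * A) := by
        refine Finset.sum_le_sum fun i _ => Finset.sum_le_sum fun j _ => ?_
        by_cases hij : i = j
        · rw [if_pos hij, hij]
          have h2 := hF j
          have h3 : ∑ m ∈ range M, w m * (u j m * u j m) = ∑ m ∈ range M, w m * u j m ^ 2 :=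
            Finset.sum_congr rfl fun m _ => by rw [sq]
          rw [h3]
          linarith
        · rw [if_neg hij, zero_add]
          exact hc i j hij
    _ = Jn * (F0 * A) + (Jn : ℝ) ^ 2 * ((1 + ε1) * A) := by
        simp only [Finset.sum_add_distrib, Finset.sum_ite_eq, Finset.mem_univ, if_true,
          Finset.sum_const, Finset.card_univ, Fintype.card_fin, nsmul_eq_mul]
        ring

theorem variance {Jn M : ℕ} {w : ℕ → ℝ} {u : Fin Jn → ℕ → ℝ} {A F0 ε1 : ℝ}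
    (hA : 0 ≤ A) (h0 : 0 ≤ ε1)
    (hsw : ∑ m ∈ range M, w m ≤ (1 + ε1) * A)
    (hm : ∀ j, (1 - ε1) * A ≤ ∑ m ∈ range M, w m * u j m)
    (hc : ∀ i j, i ≠ j → ∑ m ∈ range M, w m * (u i m * u j m) ≤ (1 + ε1) * A)
    (hF : ∀ j, ∑ m ∈ range M, w m * u j m ^ 2 ≤ F0 * A) :
    ∑ m ∈ range M, w m * (∑ j, u j m - Jn) ^ 2 ≤ A * (Jn * F0 + 4 * ε1 * (Jn : ℝ) ^ 2) := by
  have h2 := second hA h0 hc hF
  have h1 : (Jn : ℝ) * ((1 - ε1) * A) ≤ ∑ m ∈ range M, w m * ∑ j, u j m := by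
    have e1 : ∑ m ∈ range M, w m * ∑ j, u j m = ∑ j : Fin Jn, ∑ m ∈ range M, w m * u j m := by
      rw [Finset.sum_comm]
      refine Finset.sum_congr rfl fun m _ => ?_
      rw [Finset.mul_sum]
    rw [e1]
    calc (Jn : ℝ) * ((1 - ε1) * A) = ∑ _j : Fin Jn, (1 - ε1) * A := by
          rw [Finset.sum_const, Finset.card_univ, Fintype.card_fin, nsmul_eq_mul]
      _ ≤ _ := Finset.sum_le_sum fun j _ => hm j
  have e2 : ∑ m ∈ range M, w m * (∑ j, u j m - Jn) ^ 2 =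
      ∑ m ∈ range M, w m * (∑ j, u j m) ^ 2 - 2 * Jn * ∑ m ∈ range M, w m * ∑ j, u j m +
        (Jn : ℝ) ^ 2 * ∑ m ∈ range M, w m := by
    rw [Finset.mul_sum, Finset.mul_sum, ← Finset.sum_sub_distrib, ← Finset.sum_add_distrib]
    refine Finset.sum_congr rfl fun m _ => ?_
    ring
  rw [e2]
  have hJ : (0 : ℝ) ≤ Jn := Nat.cast_nonneg _
  have h3 : 2 * (Jn : ℝ) * (Jn * ((1 - ε1) * A)) ≤
      2 * Jn * ∑ m ∈ range M, w m * ∑ j, u j m :=
    mul_le_mul_of_nonneg_left h1 (by positivity)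
  have h4 : (Jn : ℝ) ^ 2 * ∑ m ∈ range M, w m ≤ (Jn : ℝ) ^ 2 * ((1 + ε1) * A) :=
    mul_le_mul_of_nonneg_left hsw (by positivity)
  have e3 : A * (Jn * F0 + 4 * ε1 * (Jn : ℝ) ^ 2) =
      (Jn * (F0 * A) + (Jn : ℝ) ^ 2 * ((1 + ε1) * A)) - 2 * (Jn : ℝ) * (Jn * ((1 - ε1) * A)) +
        (Jn : ℝ) ^ 2 * ((1 + ε1) * A) := by ring
  rw [e3]
  linarith

end Fsh

open Fsh in
theorem finish : Finish := by
  intro Jn M w u bad _ A F0 ε1 η1 hJ hA h0 _ hw hu hsw hm hc hF hb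
  have hJ' : (0 : ℝ) < Jn := by exact_mod_cast hJ
  have hvar := variance hA h0 hsw hm hc hF
  -- pointwise bound
  have hpt : ∀ m ∈ (range M).filter (fun m => ∀ j, bad j m), w m ≤
      2 / Jn * ∑ j, (if bad j m then w m * u j m else 0) +
        4 / (Jn : ℝ) ^ 2 * (w m * (∑ j, u j m - Jn) ^ 2) := by
    intro m hm'
    have hbad := (Finset.mem_filter.mp hm').2
    have e1 : ∑ j, (if bad j m then w m * u j m else 0) = w m * ∑ j, u j m := by
      rw [Finset.mul_sum]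
      exact Finset.sum_congr rfl fun j _ => if_pos (hbad j)
    rw [e1]
    have hT0 : 0 ≤ ∑ j, u j m := Finset.sum_nonneg fun j _ => hu j m
    have hw0 := hw m
    generalize (∑ j, u j m) = T at hT0 ⊢
    by_cases hT : (Jn : ℝ) / 2 ≤ T
    · have h1 : w m ≤ 2 / Jn * (w m * T) := by
        have h2 : w m * (Jn / 2) ≤ w m * T := mul_le_mul_of_nonneg_left hT hw0
        have h3 : 2 / (Jn : ℝ) * (w m * (Jn / 2)) = w m := by
          field_simp
        calc w m = 2 / (Jn : ℝ) * (w m * (Jn / 2)) := h3.symm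
          _ ≤ _ := mul_le_mul_of_nonneg_left h2 (by positivity)
      have h4 : 0 ≤ 4 / (Jn : ℝ) ^ 2 * (w m * (T - Jn) ^ 2) := by positivity
      linarith
    · push Not at hT
      have h1 : w m ≤ 4 / (Jn : ℝ) ^ 2 * (w m * (T - Jn) ^ 2) := by
        have h2 : ((Jn : ℝ) / 2) ^ 2 ≤ (T - Jn) ^ 2 := by
          have h5 : (Jn : ℝ) / 2 ≤ Jn - T := by linarith
          calc ((Jn : ℝ) / 2) ^ 2 ≤ (Jn - T) ^ 2 := pow_le_pow_left₀ (by positivity) h5 2
            _ = (T - Jn) ^ 2 := by ring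
        have h3 : 4 / (Jn : ℝ) ^ 2 * (w m * ((Jn : ℝ) / 2) ^ 2) = w m := by
          field_simp
          ring
        calc w m = 4 / (Jn : ℝ) ^ 2 * (w m * ((Jn : ℝ) / 2) ^ 2) := h3.symm
          _ ≤ _ := mul_le_mul_of_nonneg_left (mul_le_mul_of_nonneg_left h2 hw0) (by positivity)
      have h4 : 0 ≤ 2 / (Jn : ℝ) * (w m * T) := by positivity
      linarith
  calc ∑ m ∈ (range M).filter (fun m => ∀ j, bad j m), w m
      ≤ ∑ m ∈ (range M).filter (fun m => ∀ j, bad j m),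
          (2 / Jn * ∑ j, (if bad j m then w m * u j m else 0) +
            4 / (Jn : ℝ) ^ 2 * (w m * (∑ j, u j m - Jn) ^ 2)) := Finset.sum_le_sum hpt
    _ ≤ ∑ m ∈ range M,
          (2 / Jn * ∑ j, (if bad j m then w m * u j m else 0) +
            4 / (Jn : ℝ) ^ 2 * (w m * (∑ j, u j m - Jn) ^ 2)) := by
        refine Finset.sum_le_sum_of_subset_of_nonneg (Finset.filter_subset _ _) fun m _ _ => ?_
        have hw0 := hw m
        have h1 : 0 ≤ ∑ j, (if bad j m then w m * u j m else 0) := by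
          refine Finset.sum_nonneg fun j _ => ?_
          split_ifs
          · exact mul_nonneg hw0 (hu j m)
          · exact le_rfl
        positivity
    _ = 2 / Jn * ∑ j, ∑ m ∈ (range M).filter (bad j), w m * u j m +
          4 / (Jn : ℝ) ^ 2 * ∑ m ∈ range M, w m * (∑ j, u j m - Jn) ^ 2 := by
        rw [Finset.sum_add_distrib, ← Finset.mul_sum, ← Finset.mul_sum, Finset.sum_comm]
        congr 2
        refine Finset.sum_congr rfl fun j _ => ?_
        rw [Finset.sum_filter]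
    _ ≤ 2 / Jn * ∑ _j : Fin Jn, η1 * A + 4 / (Jn : ℝ) ^ 2 *
          (A * (Jn * F0 + 4 * ε1 * (Jn : ℝ) ^ 2)) := by
        refine add_le_add (mul_le_mul_of_nonneg_left (Finset.sum_le_sum fun j _ => hb j)
          (by positivity)) (mul_le_mul_of_nonneg_left hvar (by positivity))
    _ = (2 * η1 + 16 * ε1 + 4 * F0 / Jn) * A := by
        rw [Finset.sum_const, Finset.card_univ, Fintype.card_fin, nsmul_eq_mul]
        field_simp
        ring

end Pool.Agent.H474R3.AA
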