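import Mathlib
import Pool.Agent.H474R3.AA.Iface

/-! Task AA5 (helper676): the level condition for pairs of windows. -/

set_option autoImplicit false

open Finset

namespace Pool.Agent.H474R3.AA

open Pool.Agent.H410R2.AC Pool.Agent.H410R2.EN Pool.Agent.H474R2.GE

theorem level2 : Level2 := by
  intro X θ v0 T0 n J b K Km u hX1 hθ hv00 hK hz1X hvb hT0 hus
  have hXpos : 0 < X := by linarith
  have hl : (((2 ^ 2 ^ J) ^ (K * b) : ℕ) : ℝ) ≤ X ^ (θ / 20) := by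
    rw [Nat.cast_pow]
    calc ((((2 ^ 2 ^ J : ℕ)) : ℝ)) ^ (K * b) ≤ (X ^ v0) ^ (K * b) :=
          pow_le_pow_left₀ (by positivity) hz1X _
      _ = X ^ (v0 * ((K * b : ℕ) : ℝ)) := by
        rw [← Real.rpow_natCast, ← Real.rpow_mul hXpos.le]
      _ ≤ X ^ (θ / 20) := by
        refine Real.rpow_le_rpow_of_exponent_le hX1.le ?_
        rw [← hvb]
        push_cast
        have : (K : ℝ) ≤ Km := by exact_mod_cast hK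
        gcongr
  refine Nat.le_floor ?_
  have hYprod : ((∏ τ, ⌊X ^ (u τ)⌋₊ : ℕ) : ℝ) ≤ X ^ T0 := by
    push_cast
    calc ∏ τ, ((⌊X ^ (u τ)⌋₊ : ℕ) : ℝ) ≤ ∏ τ, X ^ (u τ) :=
          Finset.prod_le_prod (fun _ _ => by positivity)
            (fun τ _ => Nat.floor_le (by positivity))
      _ = X ^ (∑ τ, u τ) := by rw [Real.rpow_sum_of_pos hXpos]
      _ ≤ X ^ T0 := Real.rpow_le_rpow_of_exponent_le hX1.le hus
  have h1 : (∏ τ : Fin (n + n),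
      Fin.append (fun τ => ⌊X ^ (u τ)⌋₊) (fun τ => ⌊X ^ (u τ)⌋₊) τ) =
      (∏ τ, ⌊X ^ (u τ)⌋₊) * ∏ τ, ⌊X ^ (u τ)⌋₊ := by
    rw [Fin.prod_univ_add]
    simp only [Fin.append_left, Fin.append_right]
  rw [h1]
  have h3 : (((2 ^ 2 ^ J) ^ (K * b) * ((∏ τ, ⌊X ^ (u τ)⌋₊) * ∏ τ, ⌊X ^ (u τ)⌋₊) ^ 2 : ℕ) : ℝ) =
      (((2 ^ 2 ^ J) ^ (K * b) : ℕ) : ℝ) *
        (((∏ τ, ⌊X ^ (u τ)⌋₊ : ℕ) : ℝ) * ((∏ τ, ⌊X ^ (u τ)⌋₊ : ℕ) : ℝ)) ^ 2 := by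
    push_cast
    ring
  rw [h3]
  have h4 : (((∏ τ, ⌊X ^ (u τ)⌋₊ : ℕ) : ℝ) * ((∏ τ, ⌊X ^ (u τ)⌋₊ : ℕ) : ℝ)) ^ 2 ≤
      (X ^ T0 * X ^ T0) ^ 2 :=
    pow_le_pow_left₀ (by positivity) (mul_le_mul hYprod hYprod (by positivity) (by positivity)) 2
  calc (((2 ^ 2 ^ J) ^ (K * b) : ℕ) : ℝ) *
        (((∏ τ, ⌊X ^ (u τ)⌋₊ : ℕ) : ℝ) * ((∏ τ, ⌊X ^ (u τ)⌋₊ : ℕ) : ℝ)) ^ 2 ≤
        X ^ (θ / 20) * (X ^ T0 * X ^ T0) ^ 2 :=
          mul_le_mul hl h4 (by positivity) (by positivity)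
    _ = X ^ (θ / 20 + (T0 + T0) * 2) := by
        rw [← Real.rpow_add hXpos, ← Real.rpow_natCast (X ^ (T0 + T0)) 2,
          ← Real.rpow_mul hXpos.le, ← Real.rpow_add hXpos]
        norm_num
    _ ≤ X ^ θ := by
        refine Real.rpow_le_rpow_of_exponent_le hX1.le ?_
        rw [hT0]
        linarith

end Pool.Agent.H474R3.AA
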