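import Mathlib
import Pool.Agent.H474R2.GE.Main
import Pool.Agent.H474R3.AA.CoreAA
import Pool.Agent.H474R3.AA.SecM
import Pool.Agent.H474R3.AA.Cross
import Pool.Agent.H474R3.AA.ErrE
import Pool.Agent.H474R3.AA.Finish
import Pool.Agent.H474R3.AA.Level2

set_option autoImplicit false

namespace Pool.Agent.H474R3.AA

open Pool.Agent.H474R2.GE

/-- the core theorem of the almost-all engine -/
theorem coreAA : CoreAA :=
  coreAA_of
    (secM_of Pool.Agent.H212R2.AC4b.countMaps
      (momW_of (expandW_of Pool.Agent.H20R2.fLem) sumW localSum))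
    (fourthW_of Pool.Agent.H212R2.AC4b.countMaps (expandW_of Pool.Agent.H20R2.fLem))
    Pool.Agent.H898R2.AC5.collapse Pool.Agent.H898R2.AC5.mainIneq nTq Pool.Agent.H708R2.types
    cross errE finish level2

end Pool.Agent.H474R3.AA
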