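import Mathlib
import Pool.Agent.H474R3.AA.Iface
import Pool.Agent.Helper923.HMertens

/-!
Mertens for the primes in `(z0, z2]` without one prime `ps`.
-/

set_option autoImplicit false

open Finset

namespace Pool.Agent.H474R3.AA

open Pool.Agent.H410R2.AC Pool.Agent.H410R2.EN Pool.Agent.H474R2.GE

namespace MertP

theorem filter_eq (z0 z2 ps a b : ℕ) (ha : z0 ≤ a) (hb : b ≤ z2) :
    ((PP z0 z2).erase ps).filter (fun p => a < p ∧ p ≤ b) =
      ((Finset.Ioc a b).filter Nat.Prime).erase ps := by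
  ext p
  unfold PP
  simp only [Finset.mem_filter, Finset.mem_erase, Finset.mem_range, Finset.mem_Ioc]
  constructor
  · rintro ⟨⟨h1, -, h2, -⟩, h3, h4⟩
    exact ⟨h1, ⟨h3, h4⟩, h2⟩
  · rintro ⟨h1, ⟨h3, h4⟩, h2⟩
    exact ⟨⟨h1, by omega, h2, by omega⟩, h3, h4⟩

theorem erase_le (S : Finset ℕ) (ps : ℕ) (hS : ∀ p ∈ S, p.Prime) :
    |∑ p ∈ S.erase ps, (1 : ℝ) / p - ∑ p ∈ S, (1 : ℝ) / p| ≤ 1 := by
  by_cases h : ps ∈ S
  · rw [← Finset.add_sum_erase S (fun p : ℕ => (1 : ℝ) / p) h]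
    have h1 : (1 : ℝ) ≤ ps := by exact_mod_cast (hS ps h).one_le
    have h2 : (1 : ℝ) / ps ≤ 1 := by
      rw [div_le_one (by linarith)]
      exact h1
    have h3 : (0 : ℝ) ≤ 1 / ps := by positivity
    rw [abs_le]
    constructor <;> linarith
  · rw [Finset.erase_eq_of_notMem h, sub_self, abs_zero]
    exact zero_le_one

end MertP

theorem mertP : ∃ C : ℝ, 1 ≤ C ∧ ∀ z0 z2 ps : ℕ, 2 ≤ z0 →
    Mert (fun p => (p : ℝ)) ((PP z0 z2).erase ps) z0 z2 C := by
  obtain ⟨C, hC0, hC⟩ := Pool.Agent.Helper923.HMertens.mertens_ratio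
  have hl2 : (0 : ℝ) < Real.log 2 := Real.log_pos (by norm_num)
  refine ⟨C / Real.log 2 + 1, ?_, ?_⟩
  · have : 0 ≤ C / Real.log 2 := by positivity
    linarith
  · intro z0 z2 ps hz0 a b ha hab hb
    have ha2 : 2 ≤ a := hz0.trans ha
    have haR : (2 : ℝ) ≤ a := by exact_mod_cast ha2
    have habR : (a : ℝ) ≤ b := by exact_mod_cast hab
    have hla : Real.log 2 ≤ Real.log a := Real.log_le_log (by norm_num) haR
    have hlb : Real.log a ≤ Real.log b := Real.log_le_log (by linarith) habR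
    have h1 := hC a b ha2 hab
    rw [Real.log_div (by linarith) (by linarith)] at h1
    have h2 : C / Real.log a ≤ C / Real.log 2 := by gcongr
    have h3 := MertP.erase_le ((Finset.Ioc a b).filter Nat.Prime) ps
      (fun p hp => (Finset.mem_filter.1 hp).2)
    rw [MertP.filter_eq z0 z2 ps a b ha hb]
    have h4 := abs_le.1 h1
    have h5 := abs_le.1 h3
    rw [abs_le]
    constructor <;> linarith [h4.1, h4.2, h5.1, h5.2]

end Pool.Agent.H474R3.AA
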