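import Mathlib
import Pool.Agent.H474R3.AA.Iface

/-!
AA9: for all but a proportion ε of the (smoothly weighted) primes m there is a window A_j such that
no |m - a|, a in A_j, is a prime > X^(1/100).
-/

set_option autoImplicit false

open Finset Filter Topology

namespace Pool.Agent.H474R3.AA

open Pool.Agent.H410R2.AC Pool.Agent.H410R2.EN Pool.Agent.H474R2.GE

namespace PMass

open Pool.Agent.H880R2.EN7 Pool.Agent.H378R2 Pool.Agent.H647R2.ACNT

lemma dl_eq (P U : Finset ℕ) :
    Pool.Agent.H474R2.GE.dl (fun _ => 0) (fun p k => {rh p k}) P U =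
      Pool.Agent.H410R2.EN.dl (fun _ => 0) rh P U := by
  unfold Pool.Agent.H474R2.GE.dl Pool.Agent.H410R2.EN.dl
  congr 2
  apply Finset.filter_congr
  intro p _
  simp only [Finset.disjoint_singleton, Finset.mem_singleton, not_not]
  constructor
  · rintro (h | ⟨a, ha, h⟩)
    · exact Or.inl h
    · exact Or.inr ⟨a, ha, h.symm⟩
  · rintro (h | ⟨a, ha, h⟩)
    · exact Or.inl h
    · exact Or.inr ⟨a, ha, h.symm⟩

lemma hit (P B : Finset ℕ) (hP : ∀ p ∈ P, 0 < p) :
    Hit 1 (fun p k => {rh p k}) (fun p => (p : ℝ)) P B := by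
  intro p hp a _
  refine ⟨?_, ?_, ?_, ?_⟩
  · intro x hx
    rw [Finset.mem_singleton] at hx
    rw [Finset.mem_range, hx]
    exact rh_lt (hP p hp) a
  · simp
  · simp
  · simp

/-- the error for the empty set of primes -/
lemma err_le {κ : ℕ → ℕ → ℝ} {w : ℕ → ℝ} {M : ℕ} {A : ℝ} {P : Finset ℕ} {D0 : ℕ}
    {err : Finset ℕ → ℝ} (K : ℕ) (hP : ∀ p ∈ P, 0 < p) (hD : 1 ≤ D0)
    (h : Equid κ w M A P D0 err) :
    |∑ m ∈ range M, w m - A| ≤ err ∅ ∧ err ∅ ≤ ET K P D0 err := by
  constructor
  · have := h ∅ (Finset.empty_subset _) (by simpa using hD) (fun _ => 0) (by simp)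
    simpa using this
  · unfold ET
    have h1 := Finset.single_le_sum
      (s := P.powerset.filter (fun T : Finset ℕ => ∏ p ∈ T, p ≤ D0))
      (f := fun T => (K : ℝ) ^ T.card * err T) (fun T hT => by
        rw [Finset.mem_filter, Finset.mem_powerset] at hT
        have h2 := h T hT.1 hT.2 (fun _ => 0) (fun p hp => hP p (hT.1 hp))
        have h3 : 0 ≤ err T := (abs_nonneg _).trans h2
        positivity) (a := ∅) (by
        rw [Finset.mem_filter]
        exact ⟨Finset.empty_mem_powerset _, by simpa using hD⟩)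
    simpa using h1

/-- splitting a sum over residue classes -/
lemma split_sum (M Q : ℕ) (R G : Finset ℕ) (hG : G ⊆ R) (v : ℕ → ℝ) (hv : ∀ m, 0 ≤ v m)
    (bad : ℕ → Prop) [DecidablePred bad] :
    ∑ m ∈ (range M).filter bad, v m ≤
      ∑ b ∈ G, ∑ m ∈ (range M).filter bad, (if m % Q = b then v m else 0) +
      ∑ b ∈ R \ G, ∑ m ∈ range M, (if m % Q = b then v m else 0) +
      (∑ m ∈ range M, v m - ∑ b ∈ R, ∑ m ∈ range M, (if m % Q = b then v m else 0)) := by
  classical
  have e1 : ∑ b ∈ G, ∑ m ∈ (range M).filter bad, (if m % Q = b then v m else 0) =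
      ∑ m ∈ range M, (if bad m ∧ m % Q ∈ G then v m else 0) := by
    rw [Finset.sum_comm, Finset.sum_filter]
    apply Finset.sum_congr rfl
    intro m _
    rw [Finset.sum_ite_eq]
    by_cases h1 : bad m <;> by_cases h2 : m % Q ∈ G <;> simp [h1, h2]
  have e2 : ∀ G' : Finset ℕ, ∑ b ∈ G', ∑ m ∈ range M, (if m % Q = b then v m else 0) =
      ∑ m ∈ range M, (if m % Q ∈ G' then v m else 0) := by
    intro G'
    rw [Finset.sum_comm]
    apply Finset.sum_congr rfl
    intro m _
    rw [Finset.sum_ite_eq]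
  rw [e1, e2, e2, Finset.sum_filter, ← Finset.sum_sub_distrib, ← Finset.sum_add_distrib,
    ← Finset.sum_add_distrib]
  apply Finset.sum_le_sum
  intro m _
  have := hv m
  by_cases h1 : bad m <;> by_cases h2 : m % Q ∈ G <;> by_cases h3 : m % Q ∈ R
  all_goals first
    | exact absurd (hG h2) h3
    | (simp [h1, h2, h3]; try linarith)

lemma tendsto_yyX : Tendsto (fun X : ℝ => yy X) atTop atTop := by
  unfold yy
  exact tendsto_nat_floor_atTop.comp
    (Real.tendsto_log_atTop.atTop_div_const (by norm_num))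

lemma ev_dl (K : ℕ) (hK : 1 ≤ K) (D : ℝ) : ∀ᶠ z : ℕ in atTop,
    2 / (z : ℝ) + ((K : ℝ) ^ 2 + K) * (D / Real.log z) ≤ 1 / K := by
  have hK0 : (0 : ℝ) < K := by exact_mod_cast hK
  have h1 : Tendsto (fun z : ℕ => 2 / (z : ℝ) + ((K : ℝ) ^ 2 + K) * (D / Real.log z)) atTop
      (𝓝 (0 + ((K : ℝ) ^ 2 + K) * 0)) := by
    apply Tendsto.add
    · exact tendsto_const_div_atTop_nhds_zero_nat 2
    · apply Tendsto.const_mul
      exact tendsto_const_nhds.div_atTop (Real.tendsto_log_atTop.comp tendsto_natCast_atTop_atTop)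
  rw [mul_zero, add_zero] at h1
  exact h1.eventually_le_const (by positivity)

/-- Chebyshev's bound for the total weight -/
lemma PsiT_le {X : ℝ} (hX : 0 ≤ X) : PsiT X ≤ 18 * X := by
  have h1 : PsiT X ≤ Chebyshev.psi (3 * X) := by
    rw [Chebyshev.psi_eq_sum_Icc]
    unfold PsiT
    have h2 : range (⌊3 * X⌋₊ + 1) = Finset.Icc 0 ⌊3 * X⌋₊ := by
      ext m
      simp
    rw [h2]
    exact Finset.sum_le_sum fun m _ => vv_le X m
  have h2 := Chebyshev.psi_le_const_mul_self (x := 3 * X) (by linarith)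
  have h3 : Real.log 4 ≤ 2 := by
    have h4 : Real.log 4 = 2 * Real.log 2 := by
      rw [show (4 : ℝ) = 2 ^ 2 by norm_num, Real.log_pow]; norm_num
    have := Real.log_two_lt_d9
    linarith
  have h5 : (Real.log 4 + 4) * (3 * X) ≤ 6 * (3 * X) :=
    mul_le_mul_of_nonneg_right (by linarith) (by linarith)
  linarith

end PMass

open Classical in
open Pool.Agent.H880R2.EN7 Pool.Agent.H378R2 Pool.Agent.H647R2.ACNT PMass in
/-- AA9, file PMassAA.lean -/
theorem pMassAA_of (hcore : CoreAA) (hCM : ClassMarkov) (hpe : PrimeEq) (havg : AvgB)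
    (hmert : ∃ C : ℝ, 1 ≤ C ∧ ∀ z0 z2 ps : ℕ, 2 ≤ z0 →
      Mert (fun p => (p : ℝ)) ((PP z0 z2).erase ps) z0 z2 C) : PMassAA := by
  intro C ε hC1 hε
  obtain ⟨C', Xa, hC', havg⟩ := havg
  obtain ⟨c1, hc1, hpe⟩ := hpe
  obtain ⟨Cm, hCm1, hmert⟩ := hmert
  set ε1 : ℝ := ε / 108 with hε1
  have hε10 : 0 < ε1 := by positivity
  set Cc : ℝ := 2 * (C' * C) / ε1 + (C + 1) + Cm with hCc
  have hC0 : 0 < C := by linarith
  have hC'0 : 0 < C' := by linarith
  have hfrac : 0 < 2 * (C' * C) / ε1 := by positivity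
  obtain ⟨J0, hJ0, K, hK, Xc, hcore⟩ := hcore 1 Cc (1 / 100) ε1 le_rfl (by rw [hCc]; linarith)
    (by norm_num) (by norm_num) hε10
  obtain ⟨Xp, hpe⟩ := hpe K
  have ev : ∀ᶠ X : ℝ in atTop, (max (max Xa Xp) (max Xc 10) ≤ X ∧
      yy X ≤ ⌊X ^ (1 / 100 : ℝ)⌋₊ ∧ max K 2 ≤ yy X) ∧
      (2 / (yy X : ℝ) + ((K : ℝ) ^ 2 + K) * ((2000 * (C + 1)) / Real.log (yy X)) ≤ 1 / K ∧
      36 / ε ≤ Real.log X) := by
    refine ((eventually_ge_atTop _).and ?_).and ?_
    · refine Eventually.and ?_ (tendsto_yyX.eventually_ge_atTop _)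
      have h1 : ∀ᶠ x : ℝ in atTop, Real.log x ≤ 1 * x ^ (1 / 100 : ℝ) := by
        have := (isLittleO_log_rpow_atTop (r := (1 / 100 : ℝ)) (by norm_num)).bound one_pos
        filter_upwards [this, eventually_ge_atTop (1 : ℝ)] with x hx hx1
        simp only [Real.norm_eq_abs] at hx
        rw [abs_of_nonneg (by positivity : (0 : ℝ) ≤ x ^ (1 / 100 : ℝ))] at hx
        exact (le_abs_self _).trans hx
      filter_upwards [h1, eventually_ge_atTop (1 : ℝ)] with X h1 h2
      unfold yy
      apply Nat.floor_le_floor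
      have h3 := Real.log_nonneg h2
      linarith
    · exact (tendsto_yyX.eventually (ev_dl K hK _)).and
        (Real.tendsto_log_atTop.eventually_ge_atTop _)
  obtain ⟨X0, hX0⟩ := eventually_atTop.1 ev
  refine ⟨2 * J0, by omega, X0, fun X hXX A hdisj hA hsum => ?_⟩
  obtain ⟨⟨hX, hyz, hKy⟩, hdl, hlogbig⟩ := hX0 X hXX
  have hXa : Xa ≤ X := ((le_max_left _ _).trans (le_max_left _ _)).trans hX
  have hXp : Xp ≤ X := ((le_max_right _ _).trans (le_max_left _ _)).trans hX
  have hXc : Xc ≤ X := ((le_max_left _ _).trans (le_max_right _ _)).trans hX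
  have hX10 : 10 ≤ X := ((le_max_right _ _).trans (le_max_right _ _)).trans hX
  have hX0 : 0 < X := by linarith
  have hX1 : 1 ≤ X := by linarith
  have hKy1 : K ≤ yy X := (le_max_left _ _).trans hKy
  have hKy2 : 2 ≤ yy X := (le_max_right _ _).trans hKy
  set z0 := yy X with hz0
  set z2 := ⌊X ^ (1 / 100 : ℝ)⌋₊ with hz2
  set M : ℕ := ⌊3 * X⌋₊ + 1 with hM
  have hlX : 0 < Real.log X := Real.log_pos (by linarith)
  have hz0log : (z0 : ℝ) ≤ Real.log X := by
    have : (z0 : ℝ) ≤ Real.log X / 1000 := Nat.floor_le (by positivity)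
    linarith
  have hz0pos : (0 : ℝ) < z0 := by exact_mod_cast (by omega : 0 < z0)
  have hlz0 : 0 < Real.log z0 := Real.log_pos (by exact_mod_cast (by omega : 1 < z0))
  -- the size of all numbers
  set N : ℕ := ⌊3 * X⌋₊ + ⌊X ^ C⌋₊ with hN
  have hXC : X ≤ X ^ C := by
    calc X = X ^ (1 : ℝ) := (Real.rpow_one X).symm
      _ ≤ X ^ C := Real.rpow_le_rpow_of_exponent_le hX1 hC1
  have hNX : ((2 * N : ℕ) : ℝ) ≤ X ^ (C + 1) := by
    have h1 : (⌊3 * X⌋₊ : ℝ) ≤ 3 * X := Nat.floor_le (by positivity)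
    have h2 : (⌊X ^ C⌋₊ : ℝ) ≤ X ^ C := Nat.floor_le (by positivity)
    have h3 : X ^ (C + 1) = X ^ C * X := by rw [Real.rpow_add hX0, Real.rpow_one]
    rw [h3, hN]
    push_cast
    have h4 : X ^ C * 10 ≤ X ^ C * X := mul_le_mul_of_nonneg_left hX10 (by positivity)
    linarith
  have hN1 : 1 ≤ N := by
    have : 1 ≤ ⌊3 * X⌋₊ := Nat.le_floor (by push_cast; linarith)
    omega
  have hlog2N : Real.log ((2 * N : ℕ) : ℝ) ≤ (C + 1) * Real.log X := by
    have h1 : (0 : ℝ) < ((2 * N : ℕ) : ℝ) := by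
      have : 0 < 2 * N := by omega
      exact_mod_cast this
    calc Real.log ((2 * N : ℕ) : ℝ) ≤ Real.log (X ^ (C + 1)) := Real.log_le_log h1 hNX
      _ = (C + 1) * Real.log X := Real.log_rpow hX0 _
  -- the weights
  obtain ⟨hPsi, ps, S, hps, hS, err, hEq, hET⟩ := hpe X hXp
  set Q := Pool.Agent.H378R2.WW X S ps with hQ
  have hQ0 : 0 < Q := WW_pos _ _ _
  have hphi : (0 : ℝ) < Q.totient := by exact_mod_cast Nat.totient_pos.2 hQ0
  have hPsi0 : 0 ≤ PsiT X := by nlinarith
  set AA : ℝ := PsiT X / Q.totient with hAA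
  have hAA0 : 0 ≤ AA := div_nonneg hPsi0 hphi.le
  set P := (PP z0 z2).erase ps with hP
  have hPpos : ∀ p ∈ P, 0 < p := fun p hp => (prime_of_PP (Finset.mem_of_mem_erase hp)).1.pos
  -- the classes
  set R := (range Q).filter (fun b => b.Coprime Q) with hR
  have hRcard : R.card = Q.totient := by
    rw [Nat.totient_eq_card_coprime, hR]
    congr 1
    apply Finset.filter_congr
    intro b _
    exact Nat.coprime_comm
  have hRmem : ∀ b ∈ R, b < Q ∧ b.Coprime Q := by
    intro b hb
    rw [hR, Finset.mem_filter, Finset.mem_range] at hb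
    exact hb
  have hclass : ∀ b ∈ R, ∀ m ∈ range M, wP X Q b m = if m % Q = b then vv X m else 0 := by
    intro b hb m hm
    have hmN : m ≤ ⌊3 * X⌋₊ := by
      have := Finset.mem_range.1 hm
      omega
    unfold wP vv
    rw [Nat.mod_eq_of_lt (hRmem b hb).1]
    simp only [hmN, true_and]
  -- the average
  set Pr : ℕ → ℤ → Prop := fun b a => ∀ p ∈ PW X S ps, ¬ (p : ℤ) ∣ (b : ℤ) - a with hPr
  set f : Fin (2 * J0) → ℕ → ℝ := fun j b =>
    (((A j).filter (fun a => Pr b a)).card : ℝ) * Real.log z0 with hf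
  have hsumA : ∀ j, ∑ b ∈ R, f j b ≤ (C' * C * Real.log X) * R.card := by
    intro j
    have h1 := avg_sum (A := A j) (R := R) Pr (Real.log z0) (C' * Q.totient)
      (fun a => (a.natAbs : ℝ) / (a.natAbs.totient : ℝ)) (by
        intro a ha
        have h2 := havg X hXa ps S hps hS a (hA j a ha).1
        rw [hR, Finset.filter_filter]
        exact h2)
    refine h1.trans ?_
    rw [hRcard]
    calc C' * (Q.totient : ℝ) * ∑ a ∈ A j, ((a.natAbs : ℝ) / (Nat.totient a.natAbs : ℝ))
        ≤ C' * (Q.totient : ℝ) * (C * Real.log X) := mul_le_mul_of_nonneg_left (hsum j) (by positivity)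
      _ = _ := by ring
  have hT : 0 < C' * C * Real.log X := by positivity
  obtain ⟨G, hGR, hGcard, hGgood⟩ := hCM R J0 f (C' * C * Real.log X) ε1 (by omega) hT hε10
    (fun j b _ => mul_nonneg (Nat.cast_nonneg _) hlz0.le) hsumA
  -- bad integers
  set bad : ℕ → Prop := fun m => ∀ j, ∃ a ∈ A j, ((m : ℤ) - a).natAbs.Prime ∧
    z2 < ((m : ℤ) - a).natAbs with hbad
  have hrough : ∀ (m : ℕ) (a : ℤ), ((m : ℤ) - a).natAbs.Prime → z2 < ((m : ℤ) - a).natAbs →
      ∀ p : ℕ, p.Prime → p ≤ z2 → ¬ (p : ℤ) ∣ (m : ℤ) - a := by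
    intro m a h1 h2 p hp hpz hd
    have h3 : p ∣ ((m : ℤ) - a).natAbs := Int.natCast_dvd.1 hd
    rw [Nat.prime_dvd_prime_iff_eq hp h1] at h3
    omega
  -- the core theorem in each good class
  have hmass : ∀ b ∈ G, ∑ m ∈ (range M).filter bad, (if m % Q = b then vv X m else 0) ≤
      ε1 * AA := by
    intro b hb
    obtain ⟨hbQ, hbc⟩ := hRmem b (hGR hb)
    obtain ⟨φ, hφ, hfφ⟩ := hGgood b hb
    -- the positions
    set B : Fin J0 → Finset ℕ := fun i =>
      ((A (φ i)).filter (fun a => Pr b a)).map E.toEmbedding with hB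
    have hBmem : ∀ i k, k ∈ B i ↔ E.symm k ∈ A (φ i) ∧ Pr b (E.symm k) := by
      intro i k
      rw [hB]
      simp only [Finset.mem_map_equiv, Finset.mem_filter]
    have hBA : ∀ i, ∀ k ∈ B i, E.symm k ≠ 0 ∧ (E.symm k).natAbs ≤ N := by
      intro i k hk
      obtain ⟨h1, h2⟩ := hA _ _ ((hBmem i k).1 hk).1
      refine ⟨h1, ?_⟩
      have h3 : ((E.symm k).natAbs : ℝ) ≤ X ^ C := by
        rw [Nat.cast_natAbs, Int.cast_abs]
        exact h2
      have h4 : (E.symm k).natAbs ≤ ⌊X ^ C⌋₊ := Nat.le_floor h3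
      omega
    have h1 := hcore X hXc z0 z2 z2 hKy1 hz0log rfl rfl P B (fun p k => {rh p k})
      (fun p => (p : ℝ)) kP (fun _ => 0) (wP X Q b) M AA err (Finset.erase_subset _ _) ?_ ?_ ?_ ?_
      (fun j => hit P (B j) hPpos) (dens_kP _ _ _) ?_ hAA0 (hEq b hbc) ?_ hET ?_
    · refine le_trans ?_ h1
      rw [Finset.sum_filter, Finset.sum_filter]
      apply Finset.sum_le_sum
      intro m hm
      by_cases hbm : bad m
      · rw [if_pos hbm]
        by_cases hmb : m % Q = b
        · rw [if_pos hmb, if_pos, hclass b (hGR hb) m hm, if_pos hmb]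
          intro i
          obtain ⟨a, ha, hap, haz⟩ := hbm (φ i)
          refine ⟨E a, ?_, ?_⟩
          · rw [hBmem, Equiv.symm_apply_apply]
            refine ⟨ha, ?_⟩
            intro p hp hpd
            apply hrough m a hap haz p (PW_prop hp).1 ((PW_prop hp).2.trans hyz)
            have h1 : (p : ℤ) ∣ (m : ℤ) - b := by
              have h2 : (p : ℤ) ∣ (Q : ℤ) := by
                exact_mod_cast Finset.dvd_prod_of_mem _ hp
              refine h2.trans ?_
              rw [← hmb, Int.natCast_mod]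
              exact Int.dvd_self_sub_emod
            have h3 := dvd_add h1 hpd
            rwa [sub_add_sub_cancel] at h3
          · intro p hp hmp
            rw [Finset.mem_singleton] at hmp
            have hpp := prime_of_PP (Finset.mem_of_mem_erase hp)
            rw [rh_iff hpp.1.pos, Equiv.symm_apply_apply] at hmp
            exact hrough m a hap haz p hpp.1 hpp.2.2 hmp
        · rw [if_neg hmb]
          split_ifs
          · rw [hclass b (hGR hb) m hm, if_neg hmb]
          · exact le_refl _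
      · rw [if_neg hbm]
        split_ifs
        · rw [hclass b (hGR hb) m hm]
          split_ifs
          · exact vv_nonneg X m
          · exact le_refl _
        · exact le_refl _
    · intro a b ha hab hb
      exact (hmert z0 z2 ps hKy2 a b ha hab hb).trans (by rw [hCc]; linarith)
    · intro p hp
      have : (0 : ℝ) < p := by exact_mod_cast hPpos p hp
      simp
    · intro i j hij
      rw [Finset.disjoint_left]
      intro k hki hkj
      have h2 := hdisj (φ i) (φ j) (fun h => hij (hφ h))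
      rw [Finset.disjoint_left] at h2
      exact h2 ((hBmem i k).1 hki).1 ((hBmem j k).1 hkj).1
    · intro i
      rw [hB]
      simp only [Finset.card_map]
      have h2 := hfφ i
      rw [hf] at h2
      refine h2.trans ?_
      have h3 : 2 * (C' * C * Real.log X) / ε1 = (2 * (C' * C) / ε1) * Real.log X := by ring
      rw [h3]
      apply mul_le_mul_of_nonneg_right _ hlX.le
      rw [hCc]
      linarith
    · intro m
      unfold wP
      split_ifs
      · exact vv_nonneg X m
      · exact le_refl _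
    · intro U hU hUK
      rw [dl_eq]
      refine (dl_le hKy2 hN1 hUK (fun k hk => ?_)).trans ?_
      · have h2 := hU hk
        rw [Finset.mem_biUnion] at h2
        obtain ⟨i, _, hi⟩ := h2
        exact hBA i k hi
      refine le_trans ?_ hdl
      apply add_le_add (le_refl _)
      apply mul_le_mul_of_nonneg_left _ (by positivity)
      rw [div_le_div_iff₀ (by positivity) hlz0]
      have h5 : Real.log X ≤ 2000 * z0 := by
        have h6 : Real.log X / 1000 < (z0 : ℝ) + 1 := by
          rw [hz0]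
          unfold yy
          exact Nat.lt_floor_add_one _
        have h7 : (1 : ℝ) ≤ z0 := by exact_mod_cast (by omega : 1 ≤ z0)
        linarith
      have h8 : Real.log ((2 * N : ℕ) : ℝ) ≤ 2000 * (C + 1) * z0 := by
        refine hlog2N.trans ?_
        have := mul_le_mul_of_nonneg_left h5 (by linarith : (0 : ℝ) ≤ C + 1)
        linarith
      calc Real.log ((2 * N : ℕ) : ℝ) * Real.log z0 ≤ (2000 * (C + 1) * z0) * Real.log z0 :=
            mul_le_mul_of_nonneg_right h8 hlz0.le
        _ = _ := by ring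
    · intro m hm _ i k hk
      have hmN : m ≤ N := by omega
      rcases hsize (z0 := z0) (z2 := z2) (ps := ps) hmN (hBA i k hk).2 with h2 | h2
      · left
        simp only [Finset.mem_singleton]
        refine h2.trans (hNX.trans ?_)
        exact Real.rpow_le_rpow_of_exponent_le hX1 (by rw [hCc]; linarith)
      · right
        intro p hp
        rw [Finset.mem_singleton]
        exact h2 p hp
  -- total mass of the classes
  have hz2pos : 1 ≤ z2 := by omega
  have hbR : ∀ b ∈ R, |∑ m ∈ range M, (if m % Q = b then vv X m else 0) - AA| ≤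
      AA / Real.log X := by
    intro b hb
    have h1 := err_le K hPpos hz2pos (hEq b (hRmem b hb).2)
    rw [← Finset.sum_congr rfl (hclass b hb)]
    refine h1.1.trans (h1.2.trans (hET.trans ?_))
    apply div_le_div_of_nonneg_left hAA0 hlX
    have h2 : 1 ≤ Real.log X := by
      have h3 : (2 : ℝ) ≤ z0 := by exact_mod_cast hKy2
      linarith
    exact le_self_pow₀ h2 (by omega)
  have hlog1 : 1 ≤ Real.log X := by
    have h3 : (2 : ℝ) ≤ z0 := by exact_mod_cast hKy2
    linarith
  have hAAl : AA / Real.log X ≤ AA := div_le_self hAA0 hlog1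
  have hsp := split_sum M Q R G hGR (vv X) (vv_nonneg X) bad
  refine hsp.trans ?_
  -- first part
  have hp1 : ∑ b ∈ G, ∑ m ∈ (range M).filter bad, (if m % Q = b then vv X m else 0) ≤
      ε1 * PsiT X := by
    refine (Finset.sum_le_sum hmass).trans ?_
    rw [Finset.sum_const, nsmul_eq_mul]
    have h1 : (G.card : ℝ) ≤ Q.totient := by
      rw [← hRcard]
      exact_mod_cast Finset.card_le_card hGR
    calc (G.card : ℝ) * (ε1 * AA) ≤ Q.totient * (ε1 * AA) :=
          mul_le_mul_of_nonneg_right h1 (by positivity)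
      _ = ε1 * PsiT X := by rw [hAA]; field_simp
  have hp2 : ∑ b ∈ R \ G, ∑ m ∈ range M, (if m % Q = b then vv X m else 0) ≤
      2 * ε1 * PsiT X := by
    have h1 : ∀ b ∈ R \ G, ∑ m ∈ range M, (if m % Q = b then vv X m else 0) ≤ 2 * AA := by
      intro b hb
      have h2 := (abs_le.1 (hbR b (Finset.mem_sdiff.1 hb).1)).2
      linarith
    refine (Finset.sum_le_sum h1).trans ?_
    rw [Finset.sum_const, nsmul_eq_mul]
    rw [hRcard] at hGcard
    calc ((R \ G).card : ℝ) * (2 * AA) ≤ (ε1 * Q.totient) * (2 * AA) :=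
          mul_le_mul_of_nonneg_right hGcard (by positivity)
      _ = 2 * ε1 * PsiT X := by rw [hAA]; field_simp
  have hp3 : ∑ m ∈ range M, vv X m - ∑ b ∈ R, ∑ m ∈ range M, (if m % Q = b then vv X m else 0) ≤
      PsiT X / Real.log X := by
    have h1 : ∑ m ∈ range M, vv X m = PsiT X := rfl
    have h2 : ∑ b ∈ R, (AA - AA / Real.log X) ≤
        ∑ b ∈ R, ∑ m ∈ range M, (if m % Q = b then vv X m else 0) := by
      apply Finset.sum_le_sum
      intro b hb
      have h2 := (abs_le.1 (hbR b hb)).1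
      linarith
    rw [Finset.sum_const, nsmul_eq_mul, hRcard] at h2
    have h3 : (Q.totient : ℝ) * (AA - AA / Real.log X) = PsiT X - PsiT X / Real.log X := by
      rw [hAA]
      field_simp
    rw [h3] at h2
    rw [h1]
    linarith
  have h18 := PsiT_le hX0.le
  have hlast : PsiT X / Real.log X ≤ (ε / 2) * X := by
    rw [div_le_iff₀ hlX]
    have h1 : 36 ≤ Real.log X * ε := by
      rwa [div_le_iff₀ hε] at hlogbig
    have h2 : X * 36 ≤ X * (Real.log X * ε) := mul_le_mul_of_nonneg_left h1 hX0.le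
    nlinarith
  have h4 : (3 * ε1) * PsiT X ≤ (3 * ε1) * (18 * X) := mul_le_mul_of_nonneg_left h18 (by positivity)
  have h5 : (3 * ε1) * (18 * X) = (ε / 2) * X := by rw [hε1]; ring
  linarith

end Pool.Agent.H474R3.AA
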