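import Mathlib
import Pool.Agent.H474R3.AA.Iface
import Pool.Agent.H474R2.GE.Final

set_option autoImplicit false

/-! # AA8: almost all n, polynomial values (adaptation of Pool.Agent.H474R2.GE.Final) -/

namespace Pool.Agent.H474R3.AA

open Polynomial Finset Filter
open Pool.Agent.H410R2.AC Pool.Agent.H410R2.EN Pool.Agent.H474R2.GE Pool.Agent.H474R2.PG
open Pool.Agent.H747R2.EN6 (asymp)

namespace TaskAA8

open Classical in
/-- the average over the classes (from the proof of `good_classes`) -/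
lemma avg_classes (f : ℤ[X]) (H : ℕ) (A : Finset ℤ) (C3 Y : ℝ) (hC3 : 0 < C3) (hY : 0 < Y)
    (hV : (∏ p ∈ SS H, (1 - (rho f p : ℝ) / p)) * Real.log H ≤ C3)
    (hA : (A.card : ℝ) ≤ Y) :
    ∑ b ∈ range (primorial H),
      ((A.filter (fun a : ℤ => ∀ p ∈ SS H, ¬ (p : ℤ) ∣ f.eval ((b : ℤ) + a))).card : ℝ) *
        Real.log H ≤ C3 * Y * (primorial H : ℝ) := by
  set Q := primorial H with hQ
  have hQ0 : 0 < Q := primorial_pos H
  have hQ0' : (0 : ℝ) < Q := by exact_mod_cast hQ0
  have hlog : 0 ≤ Real.log H := Real.log_natCast_nonneg H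
  have h1 : ∑ b ∈ range Q,
      ((A.filter (fun a : ℤ => ∀ p ∈ SS H, ¬ (p : ℤ) ∣ f.eval ((b : ℤ) + a))).card : ℝ) =
      A.card * (Q * ∏ p ∈ SS H, (1 - (rho f p : ℝ) / p)) := by
    have e1 : ∀ b : ℕ, ((A.filter (fun a : ℤ => ∀ p ∈ SS H,
        ¬ (p : ℤ) ∣ f.eval ((b : ℤ) + a))).card : ℝ) =
        ∑ a ∈ A, if (∀ p ∈ SS H, ¬ (p : ℤ) ∣ f.eval ((b : ℤ) + a)) then (1 : ℝ) else 0 := by
      intro b
      rw [Finset.card_filter]; push_cast; rfl
    rw [Finset.sum_congr rfl (fun b _ => e1 b), Finset.sum_comm]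
    have e2 : ∀ a ∈ A, (∑ b ∈ range Q, if (∀ p ∈ SS H, ¬ (p : ℤ) ∣ f.eval ((b : ℤ) + a))
        then (1 : ℝ) else 0) = Q * ∏ p ∈ SS H, (1 - (rho f p : ℝ) / p) := by
      intro a _
      rw [← count_rough f H a, Finset.card_filter]; push_cast; rfl
    rw [Finset.sum_congr rfl e2, Finset.sum_const, nsmul_eq_mul]
  rw [← Finset.sum_mul, h1]
  calc (A.card : ℝ) * (Q * ∏ p ∈ SS H, (1 - (rho f p : ℝ) / p)) * Real.log H
      = A.card * (((∏ p ∈ SS H, (1 - (rho f p : ℝ) / p)) * Real.log H) * Q) := by ring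
    _ ≤ A.card * (C3 * Q) := by gcongr
    _ ≤ Y * (C3 * Q) := by gcongr
    _ = C3 * Y * Q := by ring

/-- number of elements of a class -/
lemma card_class (N Q b : ℕ) (hQ : 0 < Q) :
    (((range N).filter (fun n => n % Q = b)).card : ℝ) ≤ (N : ℝ) / Q + 1 := by
  have h1 : ((range N).filter (fun n => n % Q = b)).card ≤ N / Q + 1 := by
    have h2 : ((range N).filter (fun n => n % Q = b)).card ≤ (range (N / Q + 1)).card := by
      apply Finset.card_le_card_of_injOn (fun n => n / Q)
      · intro n hn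
        rw [Finset.mem_coe, Finset.mem_filter, Finset.mem_range] at hn
        rw [Finset.mem_coe, Finset.mem_range]
        have := Nat.div_le_div_right (c := Q) hn.1.le
        show n / Q < N / Q + 1
        omega
      · intro n hn m hm h
        rw [Finset.mem_coe, Finset.mem_filter] at hn hm
        have h' : n / Q = m / Q := h
        rw [← Nat.div_add_mod n Q, ← Nat.div_add_mod m Q, h', hn.2, hm.2]
    rwa [Finset.card_range] at h2
  have h3 : ((N / Q : ℕ) : ℝ) ≤ (N : ℝ) / Q := Nat.cast_div_le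
  calc (((range N).filter (fun n => n % Q = b)).card : ℝ) ≤ ((N / Q + 1 : ℕ) : ℝ) := by
        exact_mod_cast h1
    _ = ((N / Q : ℕ) : ℝ) + 1 := by push_cast; ring
    _ ≤ _ := by linarith

end TaskAA8

open TaskAA8

open Classical in
/-- AA8, file PolyAA.lean -/
theorem polyAA_of (hcore : CoreAA) (hCM : ClassMarkov) : PolyAA := by
  intro f hf hd C' δ ε hδ hδ1 hε
  set C : ℝ := max C' 1 with hCdef
  have hC1 : 1 ≤ C := le_max_right _ _
  obtain ⟨CM, hCM0, hCMb⟩ := mertens_rho f hf hd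
  obtain ⟨B0, hB0⟩ := rho_le f hf.ne_zero
  obtain ⟨R, hR1, hR2⟩ := resultant_poly f hf hd
  obtain ⟨KR, hKR1, hKR⟩ := eval_bound R
  obtain ⟨Kf, hKf1, hKf⟩ := eval_bound f
  set d := f.natDegree with hdd
  set C3 : ℝ := Real.exp CM with hC3
  have hC30 : 0 < C3 := Real.exp_pos _
  set C4 : ℝ := C * d + 1 with hC4
  set C5 : ℝ := Real.log KR + R.natDegree * (1 + C) with hC5
  have hC50 : 0 ≤ C5 := by
    have := Real.log_nonneg hKR1
    positivity
  set ε' : ℝ := min ε 1 / 8 with hε'
  have hε'0 : 0 < ε' := by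
    have := lt_min hε one_pos
    positivity
  have hε'ε : 8 * ε' ≤ ε := by
    have := min_le_left ε 1
    rw [hε']; linarith
  set C6 : ℝ := 1 + 2 / ε' * C3 * C + 2 * CM + C4 with hC6
  have hC40 : 0 ≤ C4 := by positivity
  have hC36 : 0 ≤ 2 / ε' * C3 * C := by positivity
  have hC6' : 1 ≤ C6 := by linarith
  obtain ⟨J0, hJ0, K, hK, X0, hX0⟩ := hcore d C6 δ ε' hd hC6' hδ (by linarith) hε'0
  refine ⟨2 * J0, by omega, ?_⟩
  have hdr : (1 : ℝ) ≤ d := by exact_mod_cast hd
  have hCd : 1 ≤ C * d := one_le_mul_of_one_le_of_one_le hC1 hdr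
  have hJ0r : (1 : ℝ) ≤ ((2 * J0 : ℕ) : ℝ) := by exact_mod_cast (by omega : 1 ≤ 2 * J0)
  have hCdJ : 1 ≤ C * d * ((2 * J0 : ℕ) : ℝ) := one_le_mul_of_one_le_of_one_le hCd hJ0r
  obtain ⟨N₁, hN₁⟩ := eventually_atTop.1 (asymp (C * d * ((2 * J0 : ℕ) : ℝ)) (4 * ε') hCdJ
    (by positivity) K X0)
  obtain ⟨N₂, hN₂⟩ := eventually_atTop.1 (asympF C C5 Kf hC1 hC50 K B0 d)
  obtain ⟨N₃, hN₃⟩ := eventually_atTop.1 (HH_le_zd δ hδ)
  refine ⟨N₁ + N₂ + N₃, fun N hN A hAd hA' hAC' => ?_⟩
  obtain ⟨b1, b2, b3, b4, b5, b6, b7, b8, b9⟩ := hN₁ N (by omega)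
  have hN2' := hN₂ N (by omega)
  have hK0 : ¬ K = 0 := by omega
  rcases hN2' with ⟨e1, e2, e3, e4⟩ | hbad
  swap
  · exact absurd hbad hK0
  have hN1 : (1 : ℝ) ≤ N := by exact_mod_cast (by omega : 1 ≤ N)
  have hzz : zd δ N ≤ zz N := zd_le hδ1 hN1
  have hzzr : ((zd δ N : ℕ) : ℝ) ≤ zz N := by exact_mod_cast hzz
  have b5' : HH N ≤ zd δ N := hN₃ N (by omega)
  have hN0 : (0 : ℝ) < N := by linarith
  have hlog : 0 < Real.log N := by linarith
  have hA : ∀ j, ∀ a ∈ A j, |(a : ℝ)| ≤ (N : ℝ) ^ C := fun j a ha =>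
    (hA' j a ha).trans (Real.rpow_le_rpow_of_exponent_le hN1 (le_max_left _ _))
  have hAC : ∀ j, ((A j).card : ℝ) ≤ C * Real.log N := fun j =>
    (hAC' j).trans (mul_le_mul_of_nonneg_right (le_max_left _ _) hlog.le)
  have hNC1 : 1 ≤ (N : ℝ) ^ C := Real.one_le_rpow hN1 (by linarith)
  set Q := primorial (HH N) with hQ
  have hQ0 : 0 < Q := primorial_pos _
  have hQ0' : (0 : ℝ) < Q := by exact_mod_cast hQ0
  have hQN : (Q : ℝ) ≤ N := by
    have h1 := Pool.Agent.H143R2.ACF.primorial_bound (N := N) (H := HH N) (by omega) (HH_le N)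
    refine h1.trans ?_
    calc (N : ℝ) ^ (1 / 50 : ℝ) ≤ (N : ℝ) ^ (1 : ℝ) :=
          Real.rpow_le_rpow_of_exponent_le hN1 (by norm_num)
      _ = N := Real.rpow_one _
  -- the survivors
  set sv : Fin (2 * J0) → ℕ → Finset ℤ := fun j b =>
    (A j).filter (fun a : ℤ => ∀ p ∈ SS (HH N), ¬ (p : ℤ) ∣ f.eval ((b : ℤ) + a)) with hsv
  obtain ⟨G, hGR, hGc, hG⟩ := hCM (range Q) J0
    (fun j b => ((sv j b).card : ℝ) * Real.log (HH N)) (C3 * (C * Real.log N)) ε'
    (by omega) (by positivity) hε'0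
    (fun j b _ => mul_nonneg (Nat.cast_nonneg _) (Real.log_natCast_nonneg _))
    (by
      intro j
      rw [Finset.card_range]
      exact avg_classes f (HH N) (A j) C3 (C * Real.log N) hC30 (by positivity)
        (prod_le f CM hCMb (HH N) e1) (hAC j))
  rw [Finset.card_range] at hGc
  set Bd : Finset ℕ := (range N).filter (fun n : ℕ => ∀ j, ∃ a ∈ A j, ∀ p : ℕ, p.Prime →
    p ≤ zd δ N → ¬ (p : ℤ) ∣ f.eval ((n : ℤ) + a)) with hBd
  have hPQ : ∀ p ∈ PP (HH N) (zd δ N), ¬ p ∣ Q := by
    intro p hp hpQ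
    have := Pool.Agent.H143R2.ACF.prime_dvd_primorial (PP_prime hp) hpQ
    have := PP_gt hp
    omega
  -- the good classes
  have hclass : ∀ b ∈ G, ((Bd.filter (fun n => n % Q = b)).card : ℝ) ≤ ε' * ((N : ℝ) / Q) := by
    intro b hb
    have hbQ : b < Q := Finset.mem_range.1 (hGR hb)
    obtain ⟨φ, hφ, hφT⟩ := hG b hb
    set B : Fin J0 → Finset ℕ := fun i => (sv (φ i) b).map Equiv.intEquivNat.toEmbedding with hB
    have hBmem : ∀ i, ∀ x ∈ B i, Equiv.intEquivNat.symm x ∈ sv (φ i) b := by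
      intro i x hx
      simp only [hB, Finset.mem_map] at hx
      obtain ⟨a, ha, rfl⟩ := hx
      simpa using ha
    have hBN : ∀ i, ∀ x ∈ B i, |((Equiv.intEquivNat.symm x : ℤ) : ℝ)| ≤ (N : ℝ) ^ C := by
      intro i x hx
      exact hA _ _ (Finset.mem_filter.1 (hBmem i x hx)).1
    have hBN' : ∀ x ∈ Finset.univ.biUnion B,
        |((Equiv.intEquivNat.symm x : ℤ) : ℝ)| ≤ (N : ℝ) ^ C := by
      intro x hx
      rw [Finset.mem_biUnion] at hx
      obtain ⟨i, _, hi⟩ := hx
      exact hBN i x hi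
    have hlogR : ∀ x ∈ Finset.univ.biUnion B, ∀ y ∈ Finset.univ.biUnion B, Real.log
        ((R.eval (Equiv.intEquivNat.symm x - Equiv.intEquivNat.symm y)).natAbs : ℝ) ≤
        C5 * Real.log N := by
      intro x hx y hy
      set t := Equiv.intEquivNat.symm x - Equiv.intEquivNat.symm y with ht
      have h1 : |(t : ℝ)| ≤ 2 * (N : ℝ) ^ C := by
        rw [ht]; push_cast
        refine (abs_sub _ _).trans ?_
        linarith [hBN' x hx, hBN' y hy]
      have h2 := hKR t (2 * (N : ℝ) ^ C) (by linarith) h1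
      have h3 : ((R.eval t).natAbs : ℝ) = |((R.eval t : ℤ) : ℝ)| := by
        rw [Nat.cast_natAbs, Int.cast_abs]
      rw [h3]
      rcases eq_or_ne (R.eval t) 0 with h0 | h0
      · rw [h0]
        simp only [Int.cast_zero, abs_zero, Real.log_zero]
        positivity
      · have h4 : 0 < |((R.eval t : ℤ) : ℝ)| := abs_pos.2 (by exact_mod_cast h0)
        refine (Real.log_le_log h4 h2).trans ?_
        have hl2 : Real.log 2 ≤ Real.log N :=
          Real.log_le_log (by norm_num) (by exact_mod_cast b2)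
        rw [Real.log_mul (by linarith) (by positivity), Real.log_pow,
          Real.log_mul (by norm_num) (by positivity), Real.log_rpow hN0, hC5]
        have h5 : 0 ≤ Real.log KR := Real.log_nonneg hKR1
        have h6 : (0 : ℝ) ≤ R.natDegree := by positivity
        have h7 : Real.log KR ≤ Real.log KR * Real.log N := le_mul_of_one_le_right h5 b9
        have h8 : (R.natDegree : ℝ) * (Real.log 2 + C * Real.log N) ≤
            R.natDegree * (Real.log N + C * Real.log N) := by gcongr
        calc Real.log KR + R.natDegree * (Real.log 2 + C * Real.log N) ≤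
            Real.log KR * Real.log N + R.natDegree * (Real.log N + C * Real.log N) := by linarith
          _ = _ := by ring
    have hmain := hX0 N b1 (HH N) (zd δ N) (zd δ N) b3
      (by
        have := HH_le N
        linarith) rfl rfl (PF f (HH N) (zd δ N)) B (Hf f) (qf f) (fun p _ => 1 / (p : ℝ))
      (fun p => p) (fun n => if n % Q = b then 1 else 0) N ((N : ℝ) / Q) (fun _ => 1)
      (PF_sub f _ _)
      (by
        intro a b ha hab hb
        refine (mert f CM hCMb (HH N) (zd δ N) e1 a b ha hab hb).trans ?_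
        linarith)
      (qbounds f B0 hB0 _ _ e2)
      (by
        intro i j hij
        simp only [hB]
        rw [Finset.disjoint_map]
        exact Finset.disjoint_of_subset_left (Finset.filter_subset _ _)
          (Finset.disjoint_of_subset_right (Finset.filter_subset _ _)
            (hAd _ _ (fun h => hij (hφ h)))))
      (by
        intro i
        simp only [hB]
        rw [Finset.card_map]
        refine (hφT i).trans ?_
        have h1 : 2 * (C3 * (C * Real.log N)) / ε' = (2 / ε' * C3 * C) * Real.log N := by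
          field_simp
        rw [h1]
        refine mul_le_mul_of_nonneg_right ?_ hlog.le
        linarith)
      (fun i => hit f B0 hB0 _ _ e2 (B i))
      (by
        intro p hp c hc
        have h2 : (2 : ℝ) ≤ p := by exact_mod_cast (PP_prime (PF_sub f _ _ hp)).two_le
        refine ⟨by positivity, ?_, ?_⟩
        · apply one_div_le_one_div_of_le <;> linarith
        · intro _
          rw [sub_self, abs_zero]
          positivity)
      (fun m => by split_ifs <;> norm_num)
      (by positivity)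
      (equidF f Q b N (HH N) (zd δ N) (zd δ N) hbQ hPQ)
      (by
        intro U hU hUK
        exact (dl_leF f R hR1 hR2 (C5 * Real.log N) (by positivity) U
          (fun x hx y hy => hlogR x (hU hx) y (hU hy)) hUK b4).trans e3)
      ((et_leF f K (HH N) (zd δ N) (zd δ N) b3).trans (le_trans (by gcongr) b6))
      (by
        intro m hm _ i a ha
        refine hsizeF f _ _ _ m a ?_
        have h1 : |((((m : ℤ) + Equiv.intEquivNat.symm a : ℤ)) : ℝ)| ≤
            (N : ℝ) + (N : ℝ) ^ C := by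
          push_cast
          refine (abs_add_le _ _).trans ?_
          have h2 : |((m : ℕ) : ℝ)| ≤ N := by
            rw [abs_of_nonneg (by positivity)]
            exact_mod_cast hm.le
          linarith [hBN i a ha]
        refine (hKf _ _ (by linarith) h1).trans (e4.trans ?_)
        refine Real.rpow_le_rpow_of_exponent_le hN1 ?_
        linarith)
    refine le_trans ?_ hmain
    rw [← Finset.sum_filter, Finset.sum_const, nsmul_eq_mul, mul_one]
    refine Nat.cast_le.mpr (Finset.card_le_card ?_)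
    · intro m hm
      rw [hBd, Finset.mem_filter, Finset.mem_filter] at hm
      obtain ⟨⟨hm1, hm2⟩, hm3⟩ := hm
      rw [Finset.mem_filter, Finset.mem_filter]
      refine ⟨⟨hm1, fun i => ?_⟩, hm3⟩
      obtain ⟨a, ha, hap⟩ := hm2 (φ i)
      refine ⟨Equiv.intEquivNat a, ?_, ?_⟩
      · simp only [hB, Finset.mem_map]
        refine ⟨a, ?_, rfl⟩
        simp only [hsv, Finset.mem_filter]
        refine ⟨ha, fun p hp hpd => ?_⟩
        have hp' := hp
        rw [SS, Finset.mem_filter, Finset.mem_range] at hp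
        have hpQ : p ∣ Q := by
          rw [hQ, ← prod_SS]
          exact Finset.dvd_prod_of_mem (fun p => p) hp'
        apply hap p hp.2 (by omega)
        rw [← dvd_eval_mod f p m a]
        have h5 : m % p = b % p := by
          rw [← hm3, Nat.mod_mod_of_dvd m hpQ]
        rw [h5, dvd_eval_mod f p b a]
        exact hpd
      · intro p hp hmem
        have hp' := PF_sub f _ _ hp
        rw [mem_Hf f p _ m (PP_prime hp').pos, Equiv.symm_apply_apply] at hmem
        exact hap p (PP_prime hp') (PP_le hp') hmem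
  -- all classes
  have hBdc : (Bd.card : ℝ) ≤ 3 * ε' * N := by
    have h1 : Bd.card = ∑ b ∈ range Q, (Bd.filter (fun n => n % Q = b)).card := by
      apply Finset.card_eq_sum_card_fiberwise
      intro n _
      exact Finset.mem_coe.2 (Finset.mem_range.2 (Nat.mod_lt _ hQ0))
    have h2 : (Bd.card : ℝ) = ∑ b ∈ G, ((Bd.filter (fun n => n % Q = b)).card : ℝ) +
        ∑ b ∈ range Q \ G, ((Bd.filter (fun n => n % Q = b)).card : ℝ) := by
      rw [h1]
      push_cast
      rw [← Finset.sum_sdiff hGR, add_comm]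
    have h3 : ∑ b ∈ G, ((Bd.filter (fun n => n % Q = b)).card : ℝ) ≤ ε' * N := by
      refine (Finset.sum_le_sum hclass).trans ?_
      rw [Finset.sum_const, nsmul_eq_mul]
      have h4 : (G.card : ℝ) ≤ Q := by
        have := Finset.card_le_card hGR
        rw [Finset.card_range] at this
        exact_mod_cast this
      calc (G.card : ℝ) * (ε' * ((N : ℝ) / Q)) ≤ Q * (ε' * ((N : ℝ) / Q)) := by gcongr
        _ = ε' * N := by field_simp
    have h4 : ∑ b ∈ range Q \ G, ((Bd.filter (fun n => n % Q = b)).card : ℝ) ≤ 2 * ε' * N := by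
      have h5 : ∀ b ∈ range Q \ G, ((Bd.filter (fun n => n % Q = b)).card : ℝ) ≤
          (N : ℝ) / Q + 1 := by
        intro b _
        refine le_trans ?_ (card_class N Q b hQ0)
        have : Bd.filter (fun n => n % Q = b) ⊆ (range N).filter (fun n => n % Q = b) :=
          Finset.filter_subset_filter _ (Finset.filter_subset _ _)
        exact_mod_cast Finset.card_le_card this
      refine (Finset.sum_le_sum h5).trans ?_
      rw [Finset.sum_const, nsmul_eq_mul]
      calc ((range Q \ G).card : ℝ) * ((N : ℝ) / Q + 1) ≤ (ε' * Q) * ((N : ℝ) / Q + 1) := by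
            gcongr
        _ = ε' * (N + Q) := by field_simp
        _ ≤ ε' * (N + N) := by gcongr
        _ = 2 * ε' * N := by ring
    linarith
  -- the final count
  set E : Finset ℕ := (range N).filter (fun n : ℕ => ∃ a ∈ Finset.univ.biUnion A,
    |f.eval ((n : ℤ) + a)| ≤ zd δ N) with hE
  have hEcard := nearF f hd N (zd δ N) (Finset.univ.biUnion A)
  have hEcard' : E.card ≤ (Finset.univ.biUnion A).card * ((2 * zd δ N + 1) * d) := by
    refine le_trans (Finset.card_le_card ?_) hEcard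
    intro n hn
    simp only [hE, Finset.mem_filter] at hn ⊢
    exact hn
  have hU : ((Finset.univ.biUnion A).card : ℝ) ≤ ((2 * J0 : ℕ) : ℝ) * (C * Real.log N) := by
    have h1 : ((Finset.univ.biUnion A).card : ℝ) ≤ ∑ j : Fin (2 * J0), ((A j).card : ℝ) := by
      exact_mod_cast Finset.card_biUnion_le
    refine h1.trans ((Finset.sum_le_sum (fun j _ => hAC j)).trans ?_)
    rw [Finset.sum_const, nsmul_eq_mul, Finset.card_univ, Fintype.card_fin]
  have hEc : (E.card : ℝ) ≤ ε' * N := by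
    have h1 : (E.card : ℝ) ≤ ((Finset.univ.biUnion A).card : ℝ) * ((2 * zd δ N + 1) * d) := by
      exact_mod_cast hEcard'
    refine h1.trans ?_
    calc ((Finset.univ.biUnion A).card : ℝ) * ((2 * zd δ N + 1) * d)
        ≤ (((2 * J0 : ℕ) : ℝ) * (C * Real.log N)) * ((2 * zz N + 1) * d) := by gcongr
      _ = C * d * ((2 * J0 : ℕ) : ℝ) * Real.log N * (2 * zz N + 1) := by ring
      _ ≤ 4 * ε' / 4 * N := b8
      _ = ε' * N := by ring
  have hsub : ((range N).filter (fun n : ℕ => ¬ ∃ j, ∀ a ∈ A j, ∃ p : ℕ, p.Prime ∧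
      (p : ℝ) ≤ (N : ℝ) ^ δ ∧ (p : ℤ) ∣ f.eval ((n : ℤ) + a) ∧
      p < (f.eval ((n : ℤ) + a)).natAbs)) ⊆ Bd ∪ E := by
    intro n hn
    rw [Finset.mem_filter] at hn
    obtain ⟨hn1, hn2⟩ := hn
    rw [Finset.mem_union]
    by_cases hnE : n ∈ E
    · exact Or.inr hnE
    · left
      rw [hBd, Finset.mem_filter]
      refine ⟨hn1, fun j => ?_⟩
      by_contra hcon
      push Not at hcon
      apply hn2
      refine ⟨j, fun a ha => ?_⟩
      obtain ⟨p, hp, hpz, hpd⟩ := hcon a ha
      refine ⟨p, hp, ?_, hpd, ?_⟩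
      · have h1 : ((zd δ N : ℕ) : ℝ) ≤ (N : ℝ) ^ δ := Nat.floor_le (by positivity)
        have h2 : (p : ℝ) ≤ zd δ N := by exact_mod_cast hpz
        linarith
      · by_contra hcon2
        apply hnE
        simp only [hE, Finset.mem_filter]
        refine ⟨hn1, a, Finset.mem_biUnion.2 ⟨j, Finset.mem_univ _, ha⟩, ?_⟩
        rw [Int.abs_eq_natAbs]
        push Not at hcon2
        exact_mod_cast hcon2.trans hpz
  have h1 := (Finset.card_le_card hsub).trans (Finset.card_union_le _ _)
  have h2 : (((range N).filter (fun n : ℕ => ¬ ∃ j, ∀ a ∈ A j, ∃ p : ℕ, p.Prime ∧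
      (p : ℝ) ≤ (N : ℝ) ^ δ ∧ (p : ℤ) ∣ f.eval ((n : ℤ) + a) ∧
      p < (f.eval ((n : ℤ) + a)).natAbs)).card : ℝ) ≤ (Bd.card : ℝ) + E.card := by
    exact_mod_cast h1
  have h3 : 4 * ε' * N ≤ ε * N := by
    apply mul_le_mul_of_nonneg_right _ hN0.le
    linarith
  linarith

end Pool.Agent.H474R3.AA
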