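import Mathlib
import Pool.Agent.H474R3.AA.Iface

/-! AA10: from the smooth weights to the number of primes. -/

set_option autoImplicit false

open Finset Filter Topology

namespace Pool.Agent.H474R3.AA

open Pool.Agent.H880R2.EN7 (vv vv_nonneg near_card ev_log)

namespace PrA

/-- the height of the `i`-th weight -/
noncomputable def XX (N i : ℕ) : ℝ := N * Real.exp (-(3 / 4) - (i : ℝ) / 2)

lemma XX_pos {N i : ℕ} (hN : 1 ≤ N) : 0 < XX N i := by
  have : (0 : ℝ) < N := by exact_mod_cast hN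
  unfold XX
  positivity

lemma XX_le {N i : ℕ} : XX N i ≤ N := by
  have h1 : Real.exp (-(3 / 4) - (i : ℝ) / 2) ≤ 1 := by
    rw [Real.exp_le_one_iff]
    have : (0 : ℝ) ≤ i := Nat.cast_nonneg i
    linarith
  unfold XX
  exact mul_le_of_le_one_right (Nat.cast_nonneg N) h1

lemma XX_ge {N i I : ℕ} (h : i ≤ I) : XX N I ≤ XX N i := by
  have h1 : (i : ℝ) ≤ I := by exact_mod_cast h
  unfold XX
  refine mul_le_mul_of_nonneg_left (Real.exp_le_exp.mpr ?_) (Nat.cast_nonneg N)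
  linarith

lemma log_XX {N i : ℕ} (hN : 1 ≤ N) : Real.log (XX N i) = Real.log N - 3 / 4 - (i : ℝ) / 2 := by
  have hN0 : (N : ℝ) ≠ 0 := by
    have : 0 < N := hN
    exact_mod_cast this.ne'
  unfold XX
  rw [Real.log_mul hN0 (Real.exp_pos _).ne', Real.log_exp]
  ring

/-- lower bound of the weight at a prime of the `i`-th interval -/
lemma vv_ge {N i p : ℕ} (hN : 1 ≤ N) (hp : p.Prime)
    (h1 : (i : ℝ) ≤ 2 * (Real.log N - Real.log p)) (h2 : 2 * (Real.log N - Real.log p) < i + 1) :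
    (1 / 4) * Real.log p ≤ vv (XX N i) p := by
  have hp0 : (0 : ℝ) < p := by exact_mod_cast hp.pos
  have hX := XX_pos (i := i) hN
  have hl : Real.log ((p : ℝ) / XX N i) = Real.log p - Real.log N + 3 / 4 + (i : ℝ) / 2 := by
    rw [Real.log_div hp0.ne' hX.ne', log_XX hN]
    ring
  have hPhi : (1 / 4 : ℝ) ≤ Pool.Agent.H378R2.Phi ((p : ℝ) / XX N i) := by
    unfold Pool.Agent.H378R2.Phi
    refine le_trans ?_ (le_max_right _ _)
    rw [hl]
    have h3 : |Real.log p - Real.log N + 3 / 4 + (i : ℝ) / 2 - 1 / 2| ≤ 1 / 4 := by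
      rw [abs_le]
      constructor <;> linarith
    linarith
  unfold vv
  rw [ArithmeticFunction.vonMangoldt_apply_prime hp]
  exact mul_le_mul_of_nonneg_right hPhi (Real.log_nonneg (by exact_mod_cast hp.one_lt.le))

lemma p_le {N i p : ℕ} (hN : 1 ≤ N) (hp : p.Prime)
    (h1 : (i : ℝ) ≤ 2 * (Real.log N - Real.log p)) : (p : ℝ) ≤ 3 * XX N i := by
  have hp0 : (0 : ℝ) < p := by exact_mod_cast hp.pos
  have hX := XX_pos (i := i) hN
  rw [← Real.log_le_log_iff hp0 (by positivity), Real.log_mul (by norm_num) hX.ne', log_XX hN]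
  have h3 : (1 : ℝ) ≤ Real.log 3 := by
    rw [Real.le_log_iff_exp_le (by norm_num)]
    have := Real.exp_one_lt_d9
    linarith
  linarith

/-- the primes of the `i`-th interval -/
noncomputable def Si {J : ℕ} (A : Fin J → Finset ℤ) (N z i : ℕ) : Finset ℕ :=
  (range N).filter (fun p : ℕ => p.Prime ∧ ((i : ℝ) ≤ 2 * (Real.log N - Real.log p)) ∧
    (2 * (Real.log N - Real.log p) < i + 1) ∧ ∀ j, ∃ a ∈ A j,
      ((p : ℤ) - a).natAbs.Prime ∧ z < ((p : ℤ) - a).natAbs)

lemma card_Si {J : ℕ} (A : Fin J → Finset ℤ) {N z i I : ℕ} {ε2 : ℝ} (hN : 1 ≤ N) (hi : i < I)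
    (hε2 : 0 ≤ ε2) (hlog : (I : ℝ) ≤ Real.log N) (hlog0 : 0 < Real.log N)
    (hz : ⌊XX N i ^ (1 / 100 : ℝ)⌋₊ ≤ z)
    (hmass : ∑ m ∈ (range (⌊3 * XX N i⌋₊ + 1)).filter (fun m : ℕ => ∀ j, ∃ a ∈ A j,
      ((m : ℤ) - a).natAbs.Prime ∧ ⌊XX N i ^ (1 / 100 : ℝ)⌋₊ < ((m : ℤ) - a).natAbs),
        vv (XX N i) m ≤ ε2 * XX N i) :
    ((Si A N z i).card : ℝ) ≤ 8 * ε2 * (N / Real.log N) := by
  have h1 : ((Si A N z i).card : ℝ) * ((1 / 8) * Real.log N) ≤ ε2 * N := by
    calc ((Si A N z i).card : ℝ) * ((1 / 8) * Real.log N)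
        = ∑ _p ∈ Si A N z i, (1 / 8) * Real.log N := by
          rw [Finset.sum_const, nsmul_eq_mul]
      _ ≤ ∑ p ∈ Si A N z i, vv (XX N i) p := by
          refine Finset.sum_le_sum fun p hp => ?_
          obtain ⟨-, hp1, hp2, hp3, -⟩ := Finset.mem_filter.mp hp
          have h2 := vv_ge hN hp1 hp2 hp3
          have h3 : (i : ℝ) + 1 ≤ I := by exact_mod_cast hi
          linarith
      _ ≤ ∑ m ∈ (range (⌊3 * XX N i⌋₊ + 1)).filter (fun m : ℕ => ∀ j, ∃ a ∈ A j,
            ((m : ℤ) - a).natAbs.Prime ∧ ⌊XX N i ^ (1 / 100 : ℝ)⌋₊ < ((m : ℤ) - a).natAbs),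
              vv (XX N i) m := by
          refine Finset.sum_le_sum_of_subset_of_nonneg ?_ (fun m _ _ => vv_nonneg _ _)
          intro p hp
          obtain ⟨-, hp1, hp2, hp3, hp4⟩ := Finset.mem_filter.mp hp
          rw [Finset.mem_filter, Finset.mem_range]
          refine ⟨Nat.lt_succ_of_le (Nat.le_floor (p_le hN hp1 hp2)), fun j => ?_⟩
          obtain ⟨a, ha, ha1, ha2⟩ := hp4 j
          exact ⟨a, ha, ha1, hz.trans_lt ha2⟩
      _ ≤ ε2 * XX N i := hmass
      _ ≤ ε2 * N := mul_le_mul_of_nonneg_left XX_le hε2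
  have h2 : ((Si A N z i).card : ℝ) = ((Si A N z i).card : ℝ) * ((1 / 8) * Real.log N) *
      (8 / Real.log N) := by
    field_simp
  rw [h2]
  calc ((Si A N z i).card : ℝ) * ((1 / 8) * Real.log N) * (8 / Real.log N)
      ≤ (ε2 * N) * (8 / Real.log N) := mul_le_mul_of_nonneg_right h1 (by positivity)
    _ = 8 * ε2 * (N / Real.log N) := by ring

/-- integers close to one of the positions -/
noncomputable def Near {J : ℕ} (A : Fin J → Finset ℤ) (N z : ℕ) : Finset ℕ :=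
  (univ : Finset (Fin J)).biUnion fun j => (A j).biUnion fun a =>
    (range (N + 1)).filter (fun m : ℕ => ((m : ℤ) - a).natAbs ≤ z)

lemma card_A_le {A : Finset ℤ} (hA : ∀ a ∈ A, a ≠ 0) :
    (A.card : ℝ) ≤ ∑ a ∈ A, ((a.natAbs : ℝ) / (Nat.totient a.natAbs : ℝ)) := by
  rw [← nsmul_one A.card, ← Finset.sum_const]
  refine Finset.sum_le_sum fun a ha => ?_
  have h1 : 0 < a.natAbs := Int.natAbs_pos.mpr (hA a ha)
  have h2 : (0 : ℝ) < (Nat.totient a.natAbs : ℝ) := by
    exact_mod_cast Nat.totient_pos.mpr h1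
  rw [le_div_iff₀ h2, one_mul]
  exact_mod_cast Nat.totient_le _

lemma card_Near {J : ℕ} (A : Fin J → Finset ℤ) (N z : ℕ) {T : ℝ}
    (hA : ∀ j, ((A j).card : ℝ) ≤ T) :
    ((Near A N z).card : ℝ) ≤ J * (T * (2 * z + 1)) := by
  unfold Near
  have h1 : ((((univ : Finset (Fin J)).biUnion fun j => (A j).biUnion fun a =>
      (range (N + 1)).filter (fun m : ℕ => ((m : ℤ) - a).natAbs ≤ z)).card : ℕ) : ℝ) ≤
      ((∑ j : Fin J, ∑ a ∈ A j, (2 * z + 1) : ℕ) : ℝ) := by
    have h2 : ((univ : Finset (Fin J)).biUnion fun j => (A j).biUnion fun a =>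
      (range (N + 1)).filter (fun m : ℕ => ((m : ℤ) - a).natAbs ≤ z)).card ≤
        ∑ j : Fin J, ∑ a ∈ A j, (2 * z + 1) := by
      refine Finset.card_biUnion_le.trans (Finset.sum_le_sum fun j _ => ?_)
      exact Finset.card_biUnion_le.trans (Finset.sum_le_sum fun a _ => near_card N z a)
    exact_mod_cast h2
  refine h1.trans ?_
  push_cast
  calc ∑ j : Fin J, ∑ _a ∈ A j, (2 * (z : ℝ) + 1) ≤ ∑ _j : Fin J, T * (2 * z + 1) := by
        refine Finset.sum_le_sum fun j _ => ?_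
        rw [Finset.sum_const, nsmul_eq_mul]
        exact mul_le_mul_of_nonneg_right (hA j) (by positivity)
    _ = J * (T * (2 * z + 1)) := by
        rw [Finset.sum_const, Finset.card_univ, Fintype.card_fin, nsmul_eq_mul]

/-- the real inequality for the near positions -/
lemma ev_near (c d : ℝ) (hc : 0 < c) (hd : 0 < d) : ∀ᶠ N : ℕ in atTop,
    c * Real.log N * (2 * (⌊(N : ℝ) ^ (1 / 100 : ℝ)⌋₊ : ℝ) + 1) ≤ d * (N / Real.log N) := by
  obtain ⟨δ, hδ⟩ : ∃ δ : ℝ, δ = min 1 (d / (3 * c)) := ⟨_, rfl⟩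
  have hδ0 : 0 < δ := by rw [hδ]; exact lt_min one_pos (by positivity)
  have hδ1 : δ ≤ 1 := by rw [hδ]; exact min_le_left _ _
  have hδ2 : δ * (3 * c) ≤ d := by
    have : δ ≤ d / (3 * c) := by rw [hδ]; exact min_le_right _ _
    rwa [le_div_iff₀ (by positivity)] at this
  filter_upwards [ev_log δ hδ0 (1 / 10) (by norm_num), eventually_ge_atTop 2] with N hN hN2
  have hN2' : (2 : ℝ) ≤ N := by exact_mod_cast hN2
  have hN1' : (1 : ℝ) ≤ N := by linarith
  have hN0 : (0 : ℝ) < N := by linarith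
  have hl : 0 < Real.log N := Real.log_pos (by linarith)
  have h2 : 2 * (⌊(N : ℝ) ^ (1 / 100 : ℝ)⌋₊ : ℝ) + 1 ≤ 3 * (N : ℝ) ^ (1 / 100 : ℝ) := by
    have h3 : (⌊(N : ℝ) ^ (1 / 100 : ℝ)⌋₊ : ℝ) ≤ (N : ℝ) ^ (1 / 100 : ℝ) :=
      Nat.floor_le (by positivity)
    have h5 : (1 : ℝ) ≤ (N : ℝ) ^ (1 / 100 : ℝ) := Real.one_le_rpow hN1' (by norm_num)
    linarith
  have h6 : Real.log N * Real.log N * (N : ℝ) ^ (1 / 100 : ℝ) ≤ δ * N := by
    calc Real.log N * Real.log N * (N : ℝ) ^ (1 / 100 : ℝ)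
        ≤ (δ * (N : ℝ) ^ (1 / 10 : ℝ)) * (δ * (N : ℝ) ^ (1 / 10 : ℝ)) * (N : ℝ) ^ (1 / 100 : ℝ) := by
          apply mul_le_mul_of_nonneg_right _ (by positivity)
          exact mul_le_mul hN hN hl.le (by positivity)
      _ = δ * (δ * (N : ℝ) ^ (1 / 10 + 1 / 10 + 1 / 100 : ℝ)) := by
          rw [Real.rpow_add hN0, Real.rpow_add hN0]; ring
      _ ≤ δ * (1 * (N : ℝ) ^ (1 : ℝ)) := by
          apply mul_le_mul_of_nonneg_left _ hδ0.le
          apply mul_le_mul hδ1 _ (by positivity) (by norm_num)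
          exact Real.rpow_le_rpow_of_exponent_le hN1' (by norm_num)
      _ = δ * N := by rw [Real.rpow_one, one_mul]
  rw [← mul_div_assoc, le_div_iff₀ hl]
  calc c * Real.log N * (2 * (⌊(N : ℝ) ^ (1 / 100 : ℝ)⌋₊ : ℝ) + 1) * Real.log N
      ≤ c * Real.log N * (3 * (N : ℝ) ^ (1 / 100 : ℝ)) * Real.log N := by
        apply mul_le_mul_of_nonneg_right _ hl.le
        exact mul_le_mul_of_nonneg_left h2 (by positivity)
    _ = 3 * c * (Real.log N * Real.log N * (N : ℝ) ^ (1 / 100 : ℝ)) := by ring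
    _ ≤ 3 * c * (δ * N) := mul_le_mul_of_nonneg_left h6 (by positivity)
    _ = (δ * (3 * c)) * N := by ring
    _ ≤ d * N := mul_le_mul_of_nonneg_right hδ2 hN0.le

/-- small primes -/
lemma ev_small (I : ℕ) : ∀ᶠ N : ℕ in atTop,
    (((range (⌊(N : ℝ) * Real.exp (-((I : ℝ) / 2))⌋₊ + 1)).filter Nat.Prime).card : ℝ) ≤
      6 * Real.exp (-((I : ℝ) / 2)) * (N / Real.log N) := by
  have h1 := Chebyshev.eventually_primeCounting_le (ε := 1) one_pos
  have ht : Tendsto (fun N : ℕ => (N : ℝ) * Real.exp (-((I : ℝ) / 2))) atTop atTop :=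
    tendsto_natCast_atTop_atTop.atTop_mul_const (Real.exp_pos _)
  have h2 := ht.eventually h1
  have h3 : ∀ᶠ N : ℕ in atTop, Real.exp ((I : ℝ) + 1) ≤ N :=
    tendsto_natCast_atTop_atTop.eventually (eventually_ge_atTop _)
  filter_upwards [h2, h3] with N hN hNI
  have hN0 : (0 : ℝ) < N := (Real.exp_pos _).trans_le hNI
  have hlog : (I : ℝ) + 1 ≤ Real.log N := by
    rwa [Real.le_log_iff_exp_le hN0]
  have hI0 : (0 : ℝ) ≤ I := Nat.cast_nonneg I
  have hl0 : 0 < Real.log N := by linarith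
  have hcard : ((range (⌊(N : ℝ) * Real.exp (-((I : ℝ) / 2))⌋₊ + 1)).filter Nat.Prime).card =
      Nat.primeCounting ⌊(N : ℝ) * Real.exp (-((I : ℝ) / 2))⌋₊ := by
    unfold Nat.primeCounting Nat.primeCounting'
    rw [Nat.count_eq_card_filter_range]
  rw [hcard]
  refine hN.trans ?_
  have hly : Real.log ((N : ℝ) * Real.exp (-((I : ℝ) / 2))) = Real.log N - (I : ℝ) / 2 := by
    rw [Real.log_mul hN0.ne' (Real.exp_pos _).ne', Real.log_exp]
    ring
  rw [hly]
  have h4 : (0 : ℝ) < Real.log N - (I : ℝ) / 2 := by linarith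
  have h5 : Real.log 4 ≤ 2 := by
    rw [Real.log_le_iff_le_exp (by norm_num)]
    have := Real.add_one_le_exp (2 : ℝ)
    have h6 : Real.exp 2 = Real.exp 1 * Real.exp 1 := by rw [← Real.exp_add]; norm_num
    have h7 := Real.exp_one_gt_d9
    nlinarith
  have hE := Real.exp_pos (-((I : ℝ) / 2))
  rw [div_le_iff₀ h4]
  have h8 : (N : ℝ) = N / Real.log N * Real.log N := by field_simp
  have h9 : 0 ≤ (N : ℝ) / Real.log N := by positivity
  calc (Real.log 4 + 1) * ((N : ℝ) * Real.exp (-((I : ℝ) / 2)))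
      ≤ 3 * ((N : ℝ) * Real.exp (-((I : ℝ) / 2))) :=
        mul_le_mul_of_nonneg_right (by linarith) (by positivity)
    _ = 6 * Real.exp (-((I : ℝ) / 2)) * (N / Real.log N) * (Real.log N / 2) := by
        conv_lhs => rw [h8]
        ring
    _ ≤ 6 * Real.exp (-((I : ℝ) / 2)) * (N / Real.log N) * (Real.log N - (I : ℝ) / 2) :=
        mul_le_mul_of_nonneg_left (by linarith) (by positivity)

/-- covering of the bad primes -/
lemma cover {J : ℕ} (A : Fin J → Finset ℤ) {N z I : ℕ} (hN : 1 ≤ N) :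
    (range N).filter (fun p : ℕ => p.Prime ∧ ∀ j, ∃ a ∈ A j, ((p : ℤ) - a).natAbs.Prime) ⊆
      ((range (⌊(N : ℝ) * Real.exp (-((I : ℝ) / 2))⌋₊ + 1)).filter Nat.Prime ∪ Near A N z) ∪
        (range I).biUnion (fun i => Si A N z i) := by
  intro p hp
  obtain ⟨hpN, hpp, hbad⟩ := Finset.mem_filter.mp hp
  rw [Finset.mem_range] at hpN
  have hp0 : (0 : ℝ) < p := by exact_mod_cast hpp.pos
  have hN0 : (0 : ℝ) < N := by exact_mod_cast hN
  rw [Finset.mem_union, Finset.mem_union]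
  by_cases hs : (p : ℝ) ≤ (N : ℝ) * Real.exp (-((I : ℝ) / 2))
  · left; left
    rw [Finset.mem_filter, Finset.mem_range]
    exact ⟨Nat.lt_succ_of_le (Nat.le_floor hs), hpp⟩
  · by_cases hn : p ∈ Near A N z
    · left; right; exact hn
    · right
      push Not at hs
      have hfar : ∀ j, ∀ a ∈ A j, z < ((p : ℤ) - a).natAbs := by
        intro j a ha
        by_contra h
        push Not at h
        apply hn
        unfold Near
        rw [Finset.mem_biUnion]
        refine ⟨j, Finset.mem_univ j, ?_⟩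
        rw [Finset.mem_biUnion]
        refine ⟨a, ha, ?_⟩
        rw [Finset.mem_filter, Finset.mem_range]
        exact ⟨by omega, h⟩
      have hlt : Real.log p ≤ Real.log N :=
        Real.log_le_log hp0 (by exact_mod_cast hpN.le)
      have hgt : Real.log N - (I : ℝ) / 2 < Real.log p := by
        have h1 := Real.log_lt_log (by positivity) hs
        rw [Real.log_mul hN0.ne' (Real.exp_pos _).ne', Real.log_exp] at h1
        linarith
      have h0 : 0 ≤ 2 * (Real.log N - Real.log p) := by linarith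
      rw [Finset.mem_biUnion]
      refine ⟨⌊2 * (Real.log N - Real.log p)⌋₊, ?_, ?_⟩
      · rw [Finset.mem_range, Nat.floor_lt h0]
        linarith
      · unfold Si
        rw [Finset.mem_filter, Finset.mem_range]
        refine ⟨hpN, hpp, Nat.floor_le h0, Nat.lt_floor_add_one _, fun j => ?_⟩
        obtain ⟨a, ha, ha1⟩ := hbad j
        exact ⟨a, ha, ha1, hfar j a ha⟩

end PrA

open PrA in
theorem primesAA_of (h : PMassAA) : PrimesAA := by
  intro C ε hε
  -- the number of dyadic pieces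
  obtain ⟨I, hI⟩ : ∃ I : ℕ, 6 * Real.exp (-((I : ℝ) / 2)) ≤ ε / 4 := by
    have ht : Tendsto (fun I : ℕ => 6 * Real.exp (-((I : ℝ) / 2))) atTop (𝓝 (6 * 0)) := by
      apply Tendsto.const_mul
      apply Real.tendsto_exp_neg_atTop_nhds_zero.comp
      exact tendsto_natCast_atTop_atTop.atTop_div_const (by norm_num)
    rw [mul_zero] at ht
    exact (ht.eventually_le_const (by positivity)).exists
  obtain ⟨C', hC'⟩ : ∃ C' : ℝ, C' = max C 1 := ⟨_, rfl⟩
  have hC1 : 1 ≤ C' := by rw [hC']; exact le_max_right _ _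
  have hCC : C ≤ C' := by rw [hC']; exact le_max_left _ _
  obtain ⟨ε2, hε2⟩ : ∃ ε2 : ℝ, ε2 = ε / (32 * (I + 1)) := ⟨_, rfl⟩
  have hI0 : (0 : ℝ) ≤ I := Nat.cast_nonneg I
  have hε2p : 0 < ε2 := by rw [hε2]; positivity
  obtain ⟨J, hJ, X0, hX0⟩ := h (2 * C') ε2 (by linarith) hε2p
  refine ⟨J, hJ, ?_⟩
  have hJ0 : (0 : ℝ) < J := by exact_mod_cast hJ
  have ev1 : ∀ᶠ N : ℕ in atTop, X0 ≤ XX N I := by
    have ht : Tendsto (fun N : ℕ => XX N I) atTop atTop := by
      unfold XX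
      exact tendsto_natCast_atTop_atTop.atTop_mul_const (Real.exp_pos _)
    exact ht.eventually (eventually_ge_atTop _)
  have ev2 : ∀ᶠ N : ℕ in atTop, Real.exp ((I : ℝ) + 2) ≤ N :=
    tendsto_natCast_atTop_atTop.eventually (eventually_ge_atTop _)
  obtain ⟨N₀, hN₀⟩ := Filter.eventually_atTop.mp
    (ev1.and (ev2.and ((ev_near (J * C') (ε / 4) (by positivity) (by positivity)).and
      (ev_small I))))
  refine ⟨N₀, fun N hN A hdisj hA hsum => ?_⟩
  obtain ⟨e1, e2, e3, e4⟩ := hN₀ N hN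
  have hN0 : (0 : ℝ) < N := (Real.exp_pos _).trans_le e2
  have hN1 : 1 ≤ N := by exact_mod_cast hN0
  have hlog : (I : ℝ) + 2 ≤ Real.log N := by
    rwa [Real.le_log_iff_exp_le hN0]
  have hl0 : 0 < Real.log N := by linarith
  have hq : 0 ≤ (N : ℝ) / Real.log N := by positivity
  -- the pieces
  have hSi : ∀ i ∈ range I, ((Si A N ⌊(N : ℝ) ^ (1 / 100 : ℝ)⌋₊ i).card : ℝ) ≤
      8 * ε2 * (N / Real.log N) := by
    intro i hi
    rw [Finset.mem_range] at hi
    have hXpos := XX_pos (i := i) hN1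
    have hlX : Real.log N ≤ 2 * Real.log (XX N i) := by
      rw [log_XX hN1]
      have h1 : (i : ℝ) + 1 ≤ I := by exact_mod_cast hi
      linarith
    refine card_Si A hN1 hi hε2p.le (by linarith) hl0 ?_ ?_
    · apply Nat.floor_le_floor
      exact Real.rpow_le_rpow hXpos.le XX_le (by norm_num)
    · refine hX0 (XX N i) (e1.trans (XX_ge hi.le)) A hdisj ?_ ?_
      · intro j a ha
        obtain ⟨h1, h2⟩ := hA j a ha
        refine ⟨h2, ?_⟩
        have h3 : |(a : ℝ)| ≤ N := by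
          have h4 : ((|a| : ℤ) : ℝ) ≤ ((N : ℤ) : ℝ) := by exact_mod_cast h1
          rw [Int.cast_abs] at h4
          exact_mod_cast h4
        refine h3.trans ?_
        have hlX0 : 0 < Real.log (XX N i) := by linarith
        rw [← Real.log_le_log_iff hN0 (Real.rpow_pos_of_pos hXpos _), Real.log_rpow hXpos]
        nlinarith
      · intro j
        refine (hsum j).trans ?_
        have h1 : C * Real.log N ≤ C' * Real.log N := mul_le_mul_of_nonneg_right hCC hl0.le
        have h2 : C' * Real.log N ≤ C' * (2 * Real.log (XX N i)) :=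
          mul_le_mul_of_nonneg_left hlX (by linarith)
        linarith
  -- the positions close to a shift
  have hNear : ((Near A N ⌊(N : ℝ) ^ (1 / 100 : ℝ)⌋₊).card : ℝ) ≤ ε / 4 * (N / Real.log N) := by
    refine (card_Near A N _ (T := C' * Real.log N) (fun j => ?_)).trans ?_
    · refine (card_A_le (fun a ha => (hA j a ha).2)).trans ((hsum j).trans ?_)
      exact mul_le_mul_of_nonneg_right hCC hl0.le
    · refine le_trans (le_of_eq ?_) e3
      ring
  -- conclusion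
  have hcov := Finset.card_le_card (cover A (z := ⌊(N : ℝ) ^ (1 / 100 : ℝ)⌋₊) (I := I) hN1)
  have hcard := hcov.trans ((Finset.card_union_le _ _).trans
    (Nat.add_le_add (Finset.card_union_le _ _) Finset.card_biUnion_le))
  have hreal : (((range N).filter (fun p : ℕ => p.Prime ∧ ∀ j, ∃ a ∈ A j,
      ((p : ℤ) - a).natAbs.Prime)).card : ℝ) ≤
      ((((range (⌊(N : ℝ) * Real.exp (-((I : ℝ) / 2))⌋₊ + 1)).filter Nat.Prime).card : ℝ) +
        ((Near A N ⌊(N : ℝ) ^ (1 / 100 : ℝ)⌋₊).card : ℝ)) +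
        ∑ i ∈ range I, ((Si A N ⌊(N : ℝ) ^ (1 / 100 : ℝ)⌋₊ i).card : ℝ) := by
    exact_mod_cast hcard
  refine hreal.trans ?_
  have h1 : (((range (⌊(N : ℝ) * Real.exp (-((I : ℝ) / 2))⌋₊ + 1)).filter Nat.Prime).card : ℝ) ≤
      ε / 4 * (N / Real.log N) := e4.trans (mul_le_mul_of_nonneg_right hI hq)
  have h2 : ∑ i ∈ range I, ((Si A N ⌊(N : ℝ) ^ (1 / 100 : ℝ)⌋₊ i).card : ℝ) ≤
      ε / 4 * (N / Real.log N) := by
    calc ∑ i ∈ range I, ((Si A N ⌊(N : ℝ) ^ (1 / 100 : ℝ)⌋₊ i).card : ℝ)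
        ≤ ∑ _i ∈ range I, 8 * ε2 * (N / Real.log N) := Finset.sum_le_sum hSi
      _ = (I * (8 * ε2)) * (N / Real.log N) := by
          rw [Finset.sum_const, Finset.card_range, nsmul_eq_mul]
          ring
      _ ≤ ε / 4 * (N / Real.log N) := by
          apply mul_le_mul_of_nonneg_right _ hq
          rw [hε2]
          have h3 : (I : ℝ) * (8 * (ε / (32 * (I + 1)))) = ε / 4 * (I / (I + 1)) := by
            field_simp
            ring
          rw [h3]
          have h4 : (I : ℝ) / (I + 1) ≤ 1 := by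
            rw [div_le_one (by positivity)]
            linarith
          exact mul_le_of_le_one_right (by positivity) h4
  have h5 : 0 ≤ ε / 4 * ((N : ℝ) / Real.log N) := by positivity
  linarith

end Pool.Agent.H474R3.AA
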