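import Mathlib
import Pool.Agent.H474R3.AA.Iface
import Pool.Agent.H646.Moment

/-! Task AA11: windows with small sum of a/phi(a) (helper226). -/

set_option autoImplicit false

open Finset

namespace Pool.Agent.H474R3.AA

namespace Win

theorem sum_windows (g : ℕ → ℝ) (H n : ℕ) :
    ∑ j ∈ range n, ∑ a ∈ Ioc (j * H) ((j + 1) * H), g a = ∑ a ∈ Ioc 0 (n * H), g a := by
  induction n with
  | zero => simp
  | succ n ih =>
    rw [sum_range_succ, ih]
    exact sum_Ioc_consecutive g (Nat.zero_le _) (Nat.mul_le_mul_right _ (Nat.le_succ n))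

end Win

open Win

theorem windows : Windows := by
  obtain ⟨c, hc, hcN⟩ := Pool.Agent.H646.MomentM.rat_moment 1
  refine ⟨max (2 * c) 1, le_max_right _ _, fun J H hJ hH => ?_⟩
  set g : ℕ → ℝ := fun a => (a : ℝ) / (Nat.totient a : ℝ) with hg
  have hg0 : ∀ a, 0 ≤ g a := fun a => by positivity
  set f : Fin (2 * J) → ℝ := fun j => ∑ a ∈ Ioc ((j : ℕ) * H) (((j : ℕ) + 1) * H), g a with hf
  have hf0 : ∀ j, 0 ≤ f j := fun j => sum_nonneg fun a _ => hg0 a
  have htot : ∑ j, f j ≤ c * (2 * J * H : ℕ) := by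
    have h1 : ∑ j, f j = ∑ j ∈ range (2 * J), ∑ a ∈ Ioc (j * H) ((j + 1) * H), g a :=
      (Finset.sum_range (fun j : ℕ => ∑ a ∈ Ioc (j * H) ((j + 1) * H), g a)).symm
    rw [h1, sum_windows]
    have h2 : ∑ a ∈ Ioc 0 (2 * J * H), g a = ∑ n ∈ Icc 1 (2 * J * H), Pool.Agent.H646.rat n ^ 1 := by
      refine Finset.sum_congr ?_ fun n _ => ?_
      · ext n
        simp only [mem_Ioc, mem_Icc]
        omega
      · rw [pow_one]
        rfl
    rw [h2]
    exact hcN _
  classical
  set G : Finset (Fin (2 * J)) := univ.filter fun j => f j ≤ 2 * c * H with hG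
  have hGc : J ≤ G.card := by
    by_contra hlt
    push Not at hlt
    have hbad : J + 1 ≤ (univ.filter fun j : Fin (2 * J) => ¬ f j ≤ 2 * c * H).card := by
      have h1 := Finset.card_filter_add_card_filter_not (s := (univ : Finset (Fin (2 * J))))
        (fun j => f j ≤ 2 * c * H)
      rw [Finset.card_univ, Fintype.card_fin] at h1
      rw [hG] at hlt
      omega
    have h2 : ((J + 1 : ℕ) : ℝ) * (2 * c * H) ≤ ∑ j, f j := by
      calc ((J + 1 : ℕ) : ℝ) * (2 * c * H)
          ≤ ((univ.filter fun j : Fin (2 * J) => ¬ f j ≤ 2 * c * H).card : ℝ) * (2 * c * H) := by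
            gcongr
        _ = ∑ j ∈ univ.filter (fun j : Fin (2 * J) => ¬ f j ≤ 2 * c * H), 2 * c * (H : ℝ) := by
            rw [Finset.sum_const, nsmul_eq_mul]
        _ ≤ ∑ j ∈ univ.filter (fun j : Fin (2 * J) => ¬ f j ≤ 2 * c * H), f j := by
            refine Finset.sum_le_sum fun j hj => ?_
            rw [Finset.mem_filter] at hj
            exact (not_le.1 hj.2).le
        _ ≤ ∑ j, f j := Finset.sum_le_sum_of_subset_of_nonneg (Finset.filter_subset _ _)
            fun j _ _ => hf0 j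
    have h3 := h2.trans htot
    have hH' : (0 : ℝ) < H := by exact_mod_cast hH
    push_cast at h3
    nlinarith [mul_pos hc hH']
  obtain ⟨G', hG', hG'c⟩ := Finset.exists_subset_card_eq hGc
  refine ⟨fun i => G'.orderEmbOfFin hG'c i, (G'.orderEmbOfFin hG'c).injective, fun i => ?_⟩
  have h1 : G'.orderEmbOfFin hG'c i ∈ G := hG' (Finset.orderEmbOfFin_mem _ _ _)
  rw [hG, Finset.mem_filter] at h1
  refine h1.2.trans ?_
  gcongr
  exact le_max_left _ _

end Pool.Agent.H474R3.AA
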