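import Mathlib
import Pool.Agent.H474R3.AA.Main
import Pool.Agent.H474R3.AA.ClassMarkov
import Pool.Agent.H474R3.AA.PolyAA
import Pool.Agent.H474R3.AA.PMassAA
import Pool.Agent.H474R3.AA.PrimesAA
import Pool.Agent.H474R3.AA.MertP
import Pool.Agent.H474R3.AA.Windows
import Pool.Agent.H474R3.AA.Dense
import Pool.Agent.H474R3.AA.GapsAA
import Pool.Agent.H797R2.PrimeEq
import Pool.Agent.H414R2.ENAvg

set_option autoImplicit false

namespace Pool.Agent.H474R3.AA

/-- polynomials -/
theorem polyAA : PolyAA := polyAA_of coreAA classMarkov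

/-- primes -/
theorem primesAA : PrimesAA :=
  primesAA_of (pMassAA_of coreAA classMarkov Pool.Agent.H797R2.PE.primeEq
    Pool.Agent.H414R2.ENAvg.avgB mertP)

/-- consecutive gaps -/
theorem gapsAA : GapsAA := gapsAA_of primesAA windows dense

end Pool.Agent.H474R3.AA
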