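import Mathlib
import Pool.Agent.H474R3.AA.Iface

set_option autoImplicit false

open Finset

namespace Pool.Agent.H474R3.AA

/-- from blocks to positive density: if almost all indices start a block of length K1 containing a
marked index, then in almost all blocks of any large length a positive proportion is marked -/
lemma density_of_blocks (mark : ℕ → Prop) [DecidablePred mark] (ε' : ℝ) (hε : 0 < ε')
    (hε1 : ε' < 1) (K1 x1 : ℕ)
    (h : ∀ x : ℕ, x1 ≤ x →
      (((range x).filter (fun k : ℕ => ∀ i < K1, ¬ mark (k + i))).card : ℝ) ≤ ε' * x) :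
    ∃ c : ℝ, 0 < c ∧ ∃ K₀ : ℕ, ∀ K : ℕ, K₀ ≤ K → ∃ x₀ : ℕ, ∀ x : ℕ, x₀ ≤ x →
      (((range x).filter (fun k : ℕ =>
        (((range K).filter (fun i : ℕ => mark (k + i))).card : ℝ) < c * K)).card : ℝ) ≤
      4 * ε' * x := by
  classical
  have hK1 : 0 < K1 := by
    rcases Nat.eq_zero_or_pos K1 with h0 | h0
    · subst h0
      have h1 := h (x1 + 1) (by omega)
      simp only [Nat.not_lt_zero, false_implies, implies_true, Finset.filter_true,
        Finset.card_range] at h1
      have h2 : (0 : ℝ) < ((x1 + 1 : ℕ) : ℝ) := by positivity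
      nlinarith
    · exact h0
  have hK1r : (0 : ℝ) < K1 := by exact_mod_cast hK1
  refine ⟨1 / (4 * K1), by positivity, K1, fun K hK => ?_⟩
  set L := K / K1 with hL
  have hL1 : 1 ≤ L := (Nat.one_le_div_iff hK1).2 hK
  have hLK : L * K1 ≤ K := Nat.div_mul_le_self K K1
  have hKL : K ≤ 2 * L * K1 := by
    have h1 : K < (L + 1) * K1 := by
      rw [hL]
      have := Nat.lt_div_mul_add (a := K) hK1
      calc K < K / K1 * K1 + K1 := this
        _ = (K / K1 + 1) * K1 := by ring
    have h2 : (L + 1) * K1 ≤ 2 * L * K1 := Nat.mul_le_mul_right _ (by omega)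
    omega
  have hLr : (1 : ℝ) ≤ L := by exact_mod_cast hL1
  refine ⟨x1 + L * K1, fun x hx => ?_⟩
  set bad : ℕ → Prop := fun k => ∀ i < K1, ¬ mark (k + i) with hbad
  set bb : ℕ → ℕ := fun k => ((range L).filter (fun l => bad (k + l * K1))).card with hbb
  -- the marked indices of a block
  have hcount : ∀ k, L - bb k ≤ ((range K).filter (fun i : ℕ => mark (k + i))).card := by
    intro k
    have h1 : ((range L).filter (fun l => ¬ bad (k + l * K1))).card = L - bb k := by
      have := Finset.card_filter_add_card_filter_not (s := range L) (fun l => bad (k + l * K1))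
      rw [Finset.card_range] at this
      simp only [hbb]
      omega
    rw [← h1]
    have hch : ∀ l, ∃ i, ¬ bad (k + l * K1) → i < K1 ∧ mark (k + l * K1 + i) := by
      intro l
      by_cases hb : bad (k + l * K1)
      · exact ⟨0, fun h => absurd hb h⟩
      · simp only [hbad] at hb
        push Not at hb
        obtain ⟨i, hi, hm⟩ := hb
        exact ⟨i, fun _ => ⟨hi, hm⟩⟩
    choose f hf using hch
    refine Finset.card_le_card_of_injOn (fun l => l * K1 + f l) ?_ ?_
    · intro l hl
      rw [Finset.mem_coe, Finset.mem_filter, Finset.mem_range] at hl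
      obtain ⟨h3, h4⟩ := hf l hl.2
      rw [Finset.mem_coe, Finset.mem_filter, Finset.mem_range]
      refine ⟨?_, ?_⟩
      · have : (l + 1) * K1 ≤ L * K1 := Nat.mul_le_mul_right _ (by omega)
        have h5 : (l + 1) * K1 = l * K1 + K1 := by ring
        show l * K1 + f l < K
        omega
      · show mark (k + (l * K1 + f l))
        rw [← add_assoc]
        exact h4
    · intro l hl l' hl' heq
      rw [Finset.mem_coe, Finset.mem_filter, Finset.mem_range] at hl hl'
      obtain ⟨h3, -⟩ := hf l hl.2
      obtain ⟨h3', -⟩ := hf l' hl'.2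
      simp only at heq
      by_contra hne
      rcases Nat.lt_or_gt_of_ne hne with hlt | hlt
      · have h5 : (l + 1) * K1 ≤ l' * K1 := Nat.mul_le_mul_right _ hlt
        have h6 : (l + 1) * K1 = l * K1 + K1 := by ring
        omega
      · have h5 : (l' + 1) * K1 ≤ l * K1 := Nat.mul_le_mul_right _ hlt
        have h6 : (l' + 1) * K1 = l' * K1 + K1 := by ring
        omega
  -- the sum of bb
  have hsum : ((∑ k ∈ range x, bb k : ℕ) : ℝ) ≤ L * (ε' * (2 * x)) := by
    have h1 : ∑ k ∈ range x, bb k =
        ∑ l ∈ range L, ((range x).filter (fun k => bad (k + l * K1))).card := by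
      simp only [hbb, Finset.card_filter]
      rw [Finset.sum_comm]
    rw [h1]
    push_cast
    have h2 : ∀ l ∈ range L, (((range x).filter (fun k => bad (k + l * K1))).card : ℝ) ≤
        ε' * (2 * x) := by
      intro l hl
      rw [Finset.mem_range] at hl
      have h3 : ((range x).filter (fun k => bad (k + l * K1))).card ≤
          ((range (x + L * K1)).filter bad).card := by
        refine Finset.card_le_card_of_injOn (fun k => k + l * K1) ?_ ?_
        · intro k hk
          rw [Finset.mem_coe, Finset.mem_filter, Finset.mem_range] at hk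
          rw [Finset.mem_coe, Finset.mem_filter, Finset.mem_range]
          have : l * K1 ≤ L * K1 := Nat.mul_le_mul_right _ hl.le
          exact ⟨by show k + l * K1 < x + L * K1; omega, hk.2⟩
        · intro k _ k' _ heq
          simp only at heq
          omega
      have h4 := h (x + L * K1) (by omega)
      have h5 : (((range x).filter (fun k => bad (k + l * K1))).card : ℝ) ≤
          (((range (x + L * K1)).filter bad).card : ℝ) := by exact_mod_cast h3
      have h6 : ((x + L * K1 : ℕ) : ℝ) ≤ 2 * x := by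
        have : x + L * K1 ≤ 2 * x := by omega
        exact_mod_cast this
      calc (((range x).filter (fun k => bad (k + l * K1))).card : ℝ) ≤
            (((range (x + L * K1)).filter bad).card : ℝ) := h5
        _ ≤ ε' * ((x + L * K1 : ℕ) : ℝ) := h4
        _ ≤ ε' * (2 * x) := mul_le_mul_of_nonneg_left h6 hε.le
    refine (Finset.sum_le_sum h2).trans ?_
    rw [Finset.sum_const, Finset.card_range, nsmul_eq_mul]
  -- Markov
  set E := (range x).filter (fun k : ℕ =>
        (((range K).filter (fun i : ℕ => mark (k + i))).card : ℝ) < 1 / (4 * K1) * K) with hE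
  have hEb : ∀ k ∈ E, (L : ℝ) / 2 ≤ (bb k : ℝ) := by
    intro k hk
    rw [hE, Finset.mem_filter] at hk
    have h1 := hcount k
    have h2 : (L : ℝ) - bb k ≤ (((range K).filter (fun i : ℕ => mark (k + i))).card : ℝ) := by
      have h3 : L ≤ ((range K).filter (fun i : ℕ => mark (k + i))).card + bb k := by omega
      have h4 : (L : ℝ) ≤ (((range K).filter (fun i : ℕ => mark (k + i))).card : ℝ) + bb k := by
        exact_mod_cast h3
      linarith
    have h3 : 1 / (4 * (K1 : ℝ)) * K ≤ L / 2 := by
      have h4 : (K : ℝ) ≤ 2 * L * K1 := by exact_mod_cast hKL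
      rw [one_div, inv_mul_le_iff₀ (by positivity)]
      linarith
    linarith [hk.2]
  have h1 : (E.card : ℝ) * (L / 2) ≤ ((∑ k ∈ range x, bb k : ℕ) : ℝ) := by
    calc (E.card : ℝ) * (L / 2) = ∑ k ∈ E, (L : ℝ) / 2 := by
          rw [Finset.sum_const, nsmul_eq_mul]
      _ ≤ ∑ k ∈ E, (bb k : ℝ) := Finset.sum_le_sum hEb
      _ ≤ ∑ k ∈ range x, (bb k : ℝ) :=
          Finset.sum_le_sum_of_subset_of_nonneg (Finset.filter_subset _ _)
            (fun _ _ _ => by positivity)
      _ = _ := by push_cast; rfl
  have h2 := h1.trans hsum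
  have hL0 : (0 : ℝ) < L := by linarith
  have h3 : (E.card : ℝ) * (L / 2) ≤ (4 * ε' * x) * (L / 2) := by
    calc (E.card : ℝ) * (L / 2) ≤ L * (ε' * (2 * x)) := h2
      _ = (4 * ε' * x) * (L / 2) := by ring
  exact le_of_mul_le_mul_right h3 (by positivity)

/-- K consecutive gaps: a positive proportion is longer than C times the average -/
def GapsDensity : Prop := ∀ C ε : ℝ, 0 < ε → ∃ c : ℝ, 0 < c ∧ ∃ K₀ : ℕ, ∀ K : ℕ, K₀ ≤ K →
  ∃ x₀ : ℕ, ∀ x : ℕ, x₀ ≤ x →
    (((range x).filter (fun k : ℕ => (((range K).filter (fun i : ℕ =>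
      C * Real.log (Nat.nth Nat.Prime (k + i)) <
        (Nat.nth Nat.Prime (k + i + 1) : ℝ) - Nat.nth Nat.Prime (k + i))).card : ℝ) <
      c * K)).card : ℝ) ≤ ε * x

theorem gapsDensity_of (h : GapsAA) : GapsDensity := by
  classical
  intro C ε hε
  set ε' : ℝ := min ε 1 / 4 with hε'
  have h0 : 0 < min ε 1 := lt_min hε one_pos
  have hε'0 : 0 < ε' := by positivity
  have hε'1 : ε' < 1 := by
    have : min ε 1 ≤ 1 := min_le_right _ _
    rw [hε']
    linarith
  obtain ⟨K1, x1, hx1⟩ := h C ε' hε'0
  obtain ⟨c, hc, K₀, hK₀⟩ := density_of_blocks (fun j : ℕ =>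
    C * Real.log (Nat.nth Nat.Prime j) <
        (Nat.nth Nat.Prime (j + 1) : ℝ) - Nat.nth Nat.Prime j) ε' hε'0 hε'1 K1 x1 (by
    intro x hx
    have h1 := hx1 x hx
    refine le_trans (le_of_eq ?_) h1
    congr 2
    refine Finset.filter_congr (fun k _ => ?_)
    simp only [not_lt])
  refine ⟨c, hc, K₀, fun K hK => ?_⟩
  obtain ⟨x₀, hx₀⟩ := hK₀ K hK
  refine ⟨x₀, fun x hx => (hx₀ x hx).trans ?_⟩
  have h2 : 4 * ε' ≤ ε := by
    rw [hε']
    have := min_le_left ε 1
    linarith
  exact mul_le_mul_of_nonneg_right h2 (by positivity)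

end Pool.Agent.H474R3.AA
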