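import Mathlib
import Pool.Agent.H474R3.AA.Iface

set_option autoImplicit false

open Finset

namespace Pool.Agent.H474R3.AA

/-- from one good window among J0 to a positive proportion of good windows among J -/
lemma density_family (Ω : Finset ℕ) (J J0 : ℕ) (hJ0 : 0 < J0) (hJ : J0 ≤ J)
    (good : Fin J → ℕ → Prop) [∀ j, DecidablePred (good j)] (T : ℝ)
    (h : ∀ ψ : Fin J0 → Fin J, Function.Injective ψ →
      ((Ω.filter (fun n : ℕ => ∀ i, ¬ good (ψ i) n)).card : ℝ) ≤ T) :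
    ((Ω.filter (fun n : ℕ =>
      ((Finset.univ.filter (fun j : Fin J => good j n)).card : ℝ) < 1 / (4 * J0) * J)).card : ℝ) ≤
      2 * T := by
  classical
  have hJ0r : (0 : ℝ) < J0 := by exact_mod_cast hJ0
  set L := J / J0 with hL
  have hL1 : 1 ≤ L := (Nat.one_le_div_iff hJ0).2 hJ
  have hLJ : L * J0 ≤ J := Nat.div_mul_le_self J J0
  have hJL : J ≤ 2 * L * J0 := by
    have h1 : J < (L + 1) * J0 := by
      rw [hL]
      have := Nat.lt_div_mul_add (a := J) hJ0
      calc J < J / J0 * J0 + J0 := this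
        _ = (J / J0 + 1) * J0 := by ring
    have h2 : (L + 1) * J0 ≤ 2 * L * J0 := Nat.mul_le_mul_right _ (by omega)
    omega
  have hLr : (1 : ℝ) ≤ L := by exact_mod_cast hL1
  have hidx : ∀ (g : Fin L) (i : Fin J0), (g : ℕ) * J0 + i < J := by
    intro g i
    have h1 : ((g : ℕ) + 1) * J0 ≤ L * J0 := Nat.mul_le_mul_right _ g.2
    have h2 : ((g : ℕ) + 1) * J0 = g * J0 + J0 := by ring
    have := i.2
    omega
  set ψ : Fin L → Fin J0 → Fin J := fun g i => ⟨(g : ℕ) * J0 + i, hidx g i⟩ with hψ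
  have hψi : ∀ g, Function.Injective (ψ g) := by
    intro g i i' hii
    simp only [hψ, Fin.mk.injEq] at hii
    exact Fin.ext (by omega)
  set bad : Fin L → ℕ → Prop := fun g n => ∀ i, ¬ good (ψ g i) n with hbad
  set bb : ℕ → ℕ := fun n => (Finset.univ.filter (fun g : Fin L => bad g n)).card with hbb
  have hcount : ∀ n, L - bb n ≤ (Finset.univ.filter (fun j : Fin J => good j n)).card := by
    intro n
    have h1 : (Finset.univ.filter (fun g : Fin L => ¬ bad g n)).card = L - bb n := by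
      have := Finset.card_filter_add_card_filter_not (s := (Finset.univ : Finset (Fin L)))
        (fun g => bad g n)
      rw [Finset.card_univ, Fintype.card_fin] at this
      simp only [hbb]
      omega
    rw [← h1]
    have hch : ∀ g : Fin L, ∃ i : Fin J0, ¬ bad g n → good (ψ g i) n := by
      intro g
      by_cases hb : bad g n
      · exact ⟨⟨0, hJ0⟩, fun h => absurd hb h⟩
      · simp only [hbad] at hb
        push Not at hb
        obtain ⟨i, hi⟩ := hb
        exact ⟨i, fun _ => hi⟩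
    choose f hf using hch
    refine Finset.card_le_card_of_injOn (fun g => ψ g (f g)) ?_ ?_
    · intro g hg
      rw [Finset.mem_coe, Finset.mem_filter] at hg
      rw [Finset.mem_coe, Finset.mem_filter]
      exact ⟨Finset.mem_univ _, hf g hg.2⟩
    · intro g _ g' _ heq
      simp only [hψ, Fin.mk.injEq] at heq
      have h3 := (f g).2
      have h3' := (f g').2
      by_contra hne
      have hne' : (g : ℕ) ≠ g' := fun h => hne (Fin.ext h)
      rcases Nat.lt_or_gt_of_ne hne' with hlt | hlt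
      · have h5 : ((g : ℕ) + 1) * J0 ≤ g' * J0 := Nat.mul_le_mul_right _ hlt
        have h6 : ((g : ℕ) + 1) * J0 = g * J0 + J0 := by ring
        omega
      · have h5 : ((g' : ℕ) + 1) * J0 ≤ g * J0 := Nat.mul_le_mul_right _ hlt
        have h6 : ((g' : ℕ) + 1) * J0 = g' * J0 + J0 := by ring
        omega
  have hsum : ((∑ n ∈ Ω, bb n : ℕ) : ℝ) ≤ L * T := by
    have h1 : ∑ n ∈ Ω, bb n = ∑ g : Fin L, (Ω.filter (fun n => bad g n)).card := by
      simp only [hbb, Finset.card_filter]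
      rw [Finset.sum_comm]
    rw [h1]
    push_cast
    have h2 : ∀ g ∈ (Finset.univ : Finset (Fin L)),
        ((Ω.filter (fun n => bad g n)).card : ℝ) ≤ T := fun g _ => h (ψ g) (hψi g)
    refine (Finset.sum_le_sum h2).trans ?_
    rw [Finset.sum_const, Finset.card_univ, Fintype.card_fin, nsmul_eq_mul]
  set E := Ω.filter (fun n : ℕ =>
      ((Finset.univ.filter (fun j : Fin J => good j n)).card : ℝ) < 1 / (4 * J0) * J) with hE
  have hEb : ∀ n ∈ E, (L : ℝ) / 2 ≤ (bb n : ℝ) := by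
    intro n hn
    rw [hE, Finset.mem_filter] at hn
    have h1 := hcount n
    have h2 : (L : ℝ) - bb n ≤
        ((Finset.univ.filter (fun j : Fin J => good j n)).card : ℝ) := by
      have h3 : L ≤ (Finset.univ.filter (fun j : Fin J => good j n)).card + bb n := by omega
      have h4 : (L : ℝ) ≤ ((Finset.univ.filter (fun j : Fin J => good j n)).card : ℝ) + bb n := by
        exact_mod_cast h3
      linarith
    have h3 : 1 / (4 * (J0 : ℝ)) * J ≤ L / 2 := by
      have h4 : (J : ℝ) ≤ 2 * L * J0 := by exact_mod_cast hJL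
      rw [one_div, inv_mul_le_iff₀ (by positivity)]
      linarith
    linarith [hn.2]
  have h1 : (E.card : ℝ) * (L / 2) ≤ ((∑ n ∈ Ω, bb n : ℕ) : ℝ) := by
    calc (E.card : ℝ) * (L / 2) = ∑ n ∈ E, (L : ℝ) / 2 := by
          rw [Finset.sum_const, nsmul_eq_mul]
      _ ≤ ∑ n ∈ E, (bb n : ℝ) := Finset.sum_le_sum hEb
      _ ≤ ∑ n ∈ Ω, (bb n : ℝ) :=
          Finset.sum_le_sum_of_subset_of_nonneg (Finset.filter_subset _ _)
            (fun _ _ _ => by positivity)
      _ = _ := by push_cast; rfl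
  have h2 := h1.trans hsum
  have hL0 : (0 : ℝ) < L := by linarith
  have h3 : (E.card : ℝ) * (L / 2) ≤ (2 * T) * (L / 2) := by
    calc (E.card : ℝ) * (L / 2) ≤ L * T := h2
      _ = (2 * T) * (L / 2) := by ring
  exact le_of_mul_le_mul_right h3 (by positivity)

open Classical in
/-- polynomials, positive proportion of the windows -/
def PolyDensity : Prop := ∀ (f : Polynomial ℤ), Irreducible f → 0 < f.natDegree →
  ∀ C δ ε : ℝ, 0 < δ → 0 < ε → ∃ c : ℝ, 0 < c ∧ ∃ J₀ : ℕ, ∀ J : ℕ, J₀ ≤ J →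
  ∃ N₀ : ℕ, ∀ N : ℕ, N₀ ≤ N → ∀ A : Fin J → Finset ℤ,
    (∀ i j, i ≠ j → Disjoint (A i) (A j)) →
    (∀ j, ∀ a ∈ A j, |(a : ℝ)| ≤ (N : ℝ) ^ C) → (∀ j, ((A j).card : ℝ) ≤ C * Real.log N) →
    (((range N).filter (fun n : ℕ => ((Finset.univ.filter (fun j : Fin J =>
      ∀ a ∈ A j, ¬ (f.eval ((n : ℤ) + a)).natAbs.Prime ∧ ∃ p : ℕ, p.Prime ∧
      (p : ℝ) ≤ (N : ℝ) ^ δ ∧ (p : ℤ) ∣ f.eval ((n : ℤ) + a) ∧
      p < (f.eval ((n : ℤ) + a)).natAbs)).card : ℝ) < c * J)).card : ℝ) ≤ ε * N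

theorem polyDensity_of (h : PolyAA) : PolyDensity := by
  classical
  intro f hf hd C δ ε hδ hε
  obtain ⟨J0, hJ0, N₁, hN₁⟩ := h f hf hd C (min δ (1 / 10)) (ε / 2)
    (lt_min hδ (by norm_num)) (min_le_right _ _) (by positivity)
  refine ⟨1 / (4 * J0), by positivity, J0, fun J hJ => ⟨N₁ + 1, fun N hN A hA hAa hAc => ?_⟩⟩
  have hN1 : (1 : ℝ) ≤ N := by exact_mod_cast (by omega : 1 ≤ N)
  have hfin := density_family (range N) J J0 (by omega) hJ (fun (j : Fin J) (n : ℕ) =>
    ∀ a ∈ A j, ¬ (f.eval ((n : ℤ) + a)).natAbs.Prime ∧ ∃ p : ℕ, p.Prime ∧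
      (p : ℝ) ≤ (N : ℝ) ^ δ ∧ (p : ℤ) ∣ f.eval ((n : ℤ) + a) ∧
      p < (f.eval ((n : ℤ) + a)).natAbs) (ε / 2 * N) (by
    intro ψ hψ
    refine le_trans ?_ (hN₁ N (by omega) (fun i => A (ψ i)) (fun i j hij => hA _ _
      (fun h => hij (hψ h))) (fun j => hAa (ψ j)) (fun j => hAc (ψ j)))
    norm_cast
    refine Finset.card_le_card fun n hn => ?_
    rw [Finset.mem_filter] at hn ⊢
    refine ⟨hn.1, ?_⟩
    rintro ⟨i, hi⟩
    apply hn.2 i
    intro a ha
    obtain ⟨p, hp, hpN, hpd, hpl⟩ := hi a ha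
    refine ⟨fun hpr => ?_, p, hp, hpN.trans (Real.rpow_le_rpow_of_exponent_le hN1
      (min_le_left _ _)), hpd, hpl⟩
    have h5 := (Nat.prime_dvd_prime_iff_eq hp hpr).mp (Int.natCast_dvd.mp hpd)
    omega)
  refine le_trans ?_ (hfin.trans (le_of_eq (by ring)))
  norm_cast

end Pool.Agent.H474R3.AA
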